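import Pool.Agent.N208.BT.Stm5

/-!
# Project BT (helper208), part BG/P1: long roots correspond to long roots (any signatures),
adapted from N521/BTP1 (helper521) and N73/BTbase (helper73)
-/

set_option autoImplicit false

noncomputable section

namespace Pool.Agent.N49.BGP1

open Matrix
open Pool.Agent.N208.BT

variable {N : ℕ} {sg : Fin N → ℝ}

lemma hs_add_left (x y z : VN N) : hs sg (x + y) z = hs sg x z + hs sg y z := by
  unfold hs
  rw [← Finset.sum_add_distrib]
  exact Finset.sum_congr rfl fun i _ => by rw [Pi.add_apply]; ring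

lemma hs_smul_left (c : ℂ) (x y : VN N) : hs sg (c • x) y = c * hs sg x y := by
  unfold hs
  rw [Finset.mul_sum]
  exact Finset.sum_congr rfl fun i _ => by rw [Pi.smul_apply, smul_eq_mul]; ring

lemma hs_conj (x y : VN N) : hs sg y x = star (hs sg x y) := by
  unfold hs
  rw [star_sum]
  refine Finset.sum_congr rfl fun i _ => ?_
  rw [star_mul', star_mul', star_star]
  have : star ((sg i : ℝ) : ℂ) = ((sg i : ℝ) : ℂ) := Complex.conj_ofReal _
  rw [this]
  ring

lemma hs_add_right (x y z : VN N) : hs sg x (y + z) = hs sg x y + hs sg x z := by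
  rw [hs_conj, hs_add_left, star_add, ← hs_conj, ← hs_conj]

lemma hs_smul_right (c : ℂ) (x y : VN N) : hs sg x (c • y) = star c * hs sg x y := by
  rw [hs_conj, hs_smul_left, star_mul', ← hs_conj]

lemma hs_zero_left (y : VN N) : hs sg 0 y = 0 := by
  have := hs_smul_left (sg := sg) 0 (0 : VN N) y
  simpa using this

lemma hs_sub_left (x y z : VN N) : hs sg (x - y) z = hs sg x z - hs sg y z := by
  have h : x - y = x + (-1 : ℂ) • y := by rw [neg_one_smul, sub_eq_add_neg]
  rw [h, hs_add_left, hs_smul_left]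
  ring

lemma hs_sub_right (x y z : VN N) : hs sg x (y - z) = hs sg x y - hs sg x z := by
  have h : y - z = y + (-1 : ℂ) • z := by rw [neg_one_smul, sub_eq_add_neg]
  rw [h, hs_add_right, hs_smul_right]
  simp
  ring

/-- `hs sg` as a linear form -/
def hsL (sg : Fin N → ℝ) (b : VN N) : VN N →ₗ[ℂ] ℂ where
  toFun x := hs sg x b
  map_add' x y := hs_add_left x y b
  map_smul' c x := hs_smul_left c x b

lemma R_apply (a b x : VN N) : Rs sg a b *ᵥ x = hs sg x b • a := by
  have h := LinearMap.pi_apply_eq_sum_univ (hsL sg b) x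
  funext i
  have h2 : (Rs sg a b *ᵥ x) i = ∑ j, Rs sg a b i j * x j := rfl
  have h3 : hs sg x b = ∑ j, x j * hs sg (Pi.single j 1) b := by
    have h4 : hsL sg b x = hs sg x b := rfl
    rw [← h4, h]
    refine Finset.sum_congr rfl fun j _ => ?_
    rw [smul_eq_mul]
    congr 1
    have e : (fun k => if j = k then (1 : ℂ) else 0) = (Pi.single j 1 : VN N) := by
      funext k
      rw [Pi.single_apply]
      by_cases hjk : j = k
      · rw [if_pos hjk, if_pos hjk.symm]
      · rw [if_neg hjk, if_neg (fun h => hjk h.symm)]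
    rw [e]
    rfl
  rw [h2, Pi.smul_apply, smul_eq_mul, h3, Finset.sum_mul]
  refine Finset.sum_congr rfl fun j _ => ?_
  unfold Rs
  rw [Matrix.of_apply]
  ring

lemma mat_ext {A B : MN N} (h : ∀ x, A *ᵥ x = B *ᵥ x) : A = B := by
  apply Matrix.toLin'.injective
  ext1 x
  apply LinearMap.ext
  intro y
  simp only [LinearMap.comp_apply, Matrix.toLin'_apply]
  exact h _

lemma R_add_left (a b c : VN N) : Rs sg (a + b) c = Rs sg a c + Rs sg b c := by
  apply mat_ext
  intro x
  rw [Matrix.add_mulVec, R_apply, R_apply, R_apply, smul_add]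

lemma R_smul_left (c : ℂ) (a b : VN N) : Rs sg (c • a) b = c • Rs sg a b := by
  apply mat_ext
  intro x
  rw [Matrix.smul_mulVec, R_apply, R_apply, smul_comm]

lemma R_add_right (a b c : VN N) : Rs sg a (b + c) = Rs sg a b + Rs sg a c := by
  apply mat_ext
  intro x
  rw [Matrix.add_mulVec, R_apply, R_apply, R_apply, hs_add_right, add_smul]

lemma R_smul_right (c : ℂ) (a b : VN N) : Rs sg a (c • b) = star c • Rs sg a b := by
  apply mat_ext
  intro x
  rw [Matrix.smul_mulVec, R_apply, R_apply, hs_smul_right, mul_smul]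

lemma R_zero_left (b : VN N) : Rs sg 0 b = 0 := by
  have := R_smul_left (sg := sg) 0 (0 : VN N) b
  simpa using this

lemma R_zero_right (a : VN N) : Rs sg a 0 = 0 := by
  have := R_smul_right (sg := sg) 0 a (0 : VN N)
  simpa using this

lemma hs_self (x : VN N) : star (hs sg x x) = hs sg x x := (hs_conj x x).symm

/-- the commutator -/
def br (X Y : MN N) : MN N := X * Y - Y * X

lemma br_add (X Y Z : MN N) : br X (Y + Z) = br X Y + br X Z := by
  unfold br
  noncomm_ring

lemma br_sub (X Y Z : MN N) : br X (Y - Z) = br X Y - br X Z := by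
  unfold br
  noncomm_ring

lemma br_smul (c : ℂ) (X Y : MN N) : br X (c • Y) = c • br X Y := by
  unfold br
  rw [mul_smul_comm, smul_mul_assoc, smul_sub]

lemma br_R {X : MN N} (hX : IsSks sg X) (a b : VN N) : br X (Rs sg a b) = Rs sg (X *ᵥ a) b + Rs sg a (X *ᵥ b) := by
  apply mat_ext
  intro x
  unfold br
  rw [Matrix.sub_mulVec, Matrix.add_mulVec, ← Matrix.mulVec_mulVec, ← Matrix.mulVec_mulVec,
    R_apply, R_apply, R_apply, R_apply, Matrix.mulVec_smul]
  have h := hX x b
  have h2 : hs sg (X *ᵥ x) b = - hs sg x (X *ᵥ b) := by linear_combination h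
  rw [h2, neg_smul, sub_neg_eq_add]

lemma hs_sum_single (x b : VN N) : hs sg x b = ∑ j, x j * hs sg (Pi.single j 1) b := by
  have h := LinearMap.pi_apply_eq_sum_univ (hsL sg b) x
  have h4 : hsL sg b x = hs sg x b := rfl
  rw [← h4, h]
  refine Finset.sum_congr rfl fun j _ => ?_
  rw [smul_eq_mul]
  congr 1
  have e : (fun k => if j = k then (1 : ℂ) else 0) = (Pi.single j 1 : VN N) := by
    funext k
    rw [Pi.single_apply]
    by_cases hjk : j = k
    · rw [if_pos hjk, if_pos hjk.symm]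
    · rw [if_neg hjk, if_neg (fun h => hjk h.symm)]
  rw [e]
  rfl

lemma trace_R (a b : VN N) : (Rs sg a b).trace = hs sg a b := by
  rw [hs_sum_single]
  rfl

lemma RA (a b x : VN N) : Rs sg a b *ᵥ x = hs sg x b • a := R_apply a b x

lemma hs_zero_right (y : VN N) : hs sg y 0 = 0 := by
  rw [hs_conj, hs_zero_left, star_zero]

lemma nondeg (hsg : IsSg sg) {x : VN N} (hx : x ≠ 0) : ∃ b, hs sg x b ≠ 0 := by
  by_contra hcon
  push Not at hcon
  apply hx
  funext i
  have h1 := hcon (Pi.single i 1)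
  unfold hs at h1
  rw [Finset.sum_eq_single i (fun j _ hj => by rw [Pi.single_eq_of_ne hj, star_zero, mul_zero])
    (fun h => absurd (Finset.mem_univ i) h), Pi.single_eq_same, star_one, mul_one] at h1
  rcases mul_eq_zero.1 h1 with h2 | h2
  · exfalso
    have h3 : sg i = 0 := by exact_mod_cast h2
    rcases hsg i with h | h <;> rw [h] at h3 <;> norm_num at h3
  · exact h2

lemma R_mul (a b c d : VN N) : Rs sg a b * Rs sg c d = hs sg c b • Rs sg a d := by
  apply mat_ext
  intro x
  rw [← Matrix.mulVec_mulVec, RA, RA, Matrix.smul_mulVec, RA, hs_smul_left,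
    smul_smul, mul_comm]

lemma mul_R (X : MN N) (a b : VN N) : X * Rs sg a b = Rs sg (X *ᵥ a) b := by
  apply mat_ext
  intro x
  rw [← Matrix.mulVec_mulVec, RA, RA, Matrix.mulVec_smul]

lemma sk_R (a : VN N) : IsSks sg (Complex.I • Rs sg a a) := by
  intro x y
  rw [Matrix.smul_mulVec, Matrix.smul_mulVec, RA, RA, hs_smul_left, hs_smul_left,
    hs_smul_right, hs_smul_right, ← hs_conj]
  simp
  ring

lemma sk_add {X Y : MN N} (hX : IsSks sg X) (hY : IsSks sg Y) : IsSks sg (X + Y) := by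
  intro x y
  rw [Matrix.add_mulVec, Matrix.add_mulVec, hs_add_left, hs_add_right]
  linear_combination hX x y + hY x y

lemma sk_one {c : ℂ} (hc : star c = -c) : IsSks sg (c • (1 : MN N)) := by
  intro x y
  rw [Matrix.smul_mulVec, Matrix.smul_mulVec, Matrix.one_mulVec, Matrix.one_mulVec, hs_smul_left,
    hs_smul_right, hc]
  ring

/-- the double commutator -/
def ad2 (E : MN N) : MN N →ₗ[ℂ] MN N where
  toFun Z := br E (br E Z)
  map_add' X Y := by rw [br_add, br_add]
  map_smul' c X := by rw [br_smul, br_smul]; rfl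

/-- **Polarization**: a complex subspace with the unit and the isotropic `Rs sg x x` contains all
`Rs sg a b`. -/
lemma all_R (hSU : G_SU) (hsg : IsSg sg) (hmx : Mixed sg) (W : Submodule ℂ (MN N)) (h1 : (1 : MN N) ∈ W)
    (h2 : ∀ x : VN N, hs sg x x = 0 → Complex.I • Rs sg x x ∈ W) (a b : VN N) : Rs sg a b ∈ W := by
  have hn : (N : ℂ) ≠ 0 := by
    obtain ⟨⟨i, -⟩, -⟩ := hmx
    have : N ≠ 0 := by
      rintro rfl
      exact i.elim0
    exact_mod_cast this
  have h3 : ∀ X : MN N, IsSks sg X → X.trace = 0 → X ∈ W := by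
    intro X hX hX0
    have h4 := hSU N sg hsg hmx X hX hX0
    have h5 : Submodule.span ℝ {Y : MN N | ∃ x : VN N, hs sg x x = 0 ∧ Y = Complex.I • Rs sg x x} ≤
        W.restrictScalars ℝ := by
      rw [Submodule.span_le]
      rintro Y ⟨x, hx, rfl⟩
      exact h2 x hx
    exact h5 h4
  have h4 : ∀ a : VN N, Rs sg a a ∈ W := by
    intro a
    set c : ℂ := -(Complex.I * (hs sg a a / N)) with hc
    have hcs : star c = -c := by
      rw [hc, star_neg, star_mul', star_div₀, hs_self]
      simp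
    have h5 := h3 (Complex.I • Rs sg a a + c • 1) (sk_add (sk_R a) (sk_one hcs)) (by
      rw [Matrix.trace_add, Matrix.trace_smul, Matrix.trace_smul, trace_R, Matrix.trace_one, hc]
      simp only [Fintype.card_fin, smul_eq_mul]
      field_simp
      ring)
    have h6 : Complex.I • Rs sg a a ∈ W := by
      have := W.sub_mem h5 (W.smul_mem c h1)
      rwa [add_sub_cancel_right] at this
    have h7 := W.smul_mem (-Complex.I) h6
    rwa [smul_smul, neg_mul, Complex.I_mul_I, neg_neg, one_smul] at h7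
  have h5 : ∀ a b : VN N, Rs sg a b + Rs sg b a ∈ W := by
    intro a b
    have h6 := W.sub_mem (W.sub_mem (h4 (a + b)) (h4 a)) (h4 b)
    have h7 : Rs sg (a + b) (a + b) - Rs sg a a - Rs sg b b = Rs sg a b + Rs sg b a := by
      rw [R_add_left, R_add_right, R_add_right]
      abel
    rwa [h7] at h6
  have h6 := W.add_mem (h5 a b) (W.smul_mem Complex.I (h5 a (Complex.I • b)))
  have h7 : Rs sg a b + Rs sg b a + Complex.I • (Rs sg a (Complex.I • b) + Rs sg (Complex.I • b) a) =
      (2 : ℂ) • Rs sg a b := by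
    rw [R_smul_right, R_smul_left, smul_add, smul_smul, smul_smul]
    simp only [Complex.star_def, Complex.conj_I, mul_neg, Complex.I_mul_I, neg_neg]
    module
  rw [h7] at h6
  have h8 := W.smul_mem (2⁻¹ : ℂ) h6
  rwa [smul_smul, inv_mul_cancel₀ two_ne_zero, one_smul] at h8

/-- a commutator relation implies nilpotency -/
lemma nilp {H E : MN N} (h : br H E = (2 : ℂ) • E) : ∃ k, E ^ k = 0 := by
  by_contra hcon
  push Not at hcon
  have h1 : ∀ k : ℕ, br H (E ^ k) = ((2 * k : ℕ) : ℂ) • E ^ k := by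
    intro k
    induction k with
    | zero =>
      unfold br
      simp
    | succ k ih =>
      have h2 : br H (E ^ (k + 1)) = br H (E ^ k) * E + E ^ k * br H E := by
        unfold br
        rw [pow_succ]
        noncomm_ring
      rw [h2, ih, h, smul_mul_assoc, mul_smul_comm, ← pow_succ, ← add_smul]
      congr 1
      push_cast
      ring
  let f : Module.End ℂ (MN N) :=
    { toFun := fun Z => br H Z
      map_add' := fun X Y => br_add H X Y
      map_smul' := fun c X => br_smul c H X }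
  have h2 : ∀ k : ℕ, f.HasEigenvalue ((2 * k : ℕ) : ℂ) := by
    intro k
    refine Module.End.hasEigenvalue_of_hasEigenvector (x := E ^ k) ?_
    rw [Module.End.hasEigenvector_iff]
    exact ⟨Module.End.mem_eigenspace_iff.2 (h1 k), hcon k⟩
  have h3 : (Set.range fun k : ℕ => ((2 * k : ℕ) : ℂ)).Finite :=
    (Module.End.finite_hasEigenvalue f).subset (by
      rintro _ ⟨k, rfl⟩
      exact h2 k)
  refine Set.infinite_range_of_injective ?_ h3
  intro a b hab
  have h5 : ((2 * a : ℕ) : ℂ) = ((2 * b : ℕ) : ℂ) := hab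
  have h4 : 2 * a = 2 * b := by exact_mod_cast h5
  omega

lemma br_ad (E Z : MN N) : br E (br E Z) = E * E * Z - (2 : ℂ) • (E * Z * E) + Z * (E * E) := by
  unfold br
  have : (2 : ℂ) • (E * Z * E) = E * Z * E + E * Z * E := two_smul ℂ _
  rw [this]
  noncomm_ring

/-- the operators with the double commutator property are long roots -/
lemma rank_one (hsg : IsSg sg) {E : MN N} (hE : E ≠ 0) (hsk : IsSks sg E) (hnil : ∃ k, E ^ k = 0)
    (h : ∀ a b : VN N, ∃ c : ℂ, br E (br E (Rs sg a b)) = c • E) :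
    ∃ (s : ℝ) (u : VN N), (s = 1 ∨ s = -1) ∧ u ≠ 0 ∧ hs sg u u = 0 ∧
      E = ((s : ℂ) * Complex.I) • Rs sg u u := by
  classical
  obtain ⟨k, hk, hmin⟩ : ∃ k, E ^ k = 0 ∧ ∀ j < k, E ^ j ≠ 0 :=
    ⟨Nat.find hnil, Nat.find_spec hnil, fun j hj => Nat.find_min hnil hj⟩
  have hk0 : k ≠ 0 := by
    rintro rfl
    rw [pow_zero] at hk
    apply hE
    rw [← mul_one E, hk, mul_zero]
  have hk1 : k ≠ 1 := by
    rintro rfl
    rw [pow_one] at hk
    exact hE hk
  have hE2 : E * E = 0 := by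
    by_contra hEE
    have hk3 : 3 ≤ k := by
      by_contra hlt
      have : k = 2 := by omega
      rw [this, pow_two] at hk
      exact hEE hk
    obtain ⟨j, rfl⟩ : ∃ j, k = j + 1 := ⟨k - 1, by omega⟩
    have hj := hmin j (by omega)
    obtain ⟨a, ha⟩ : ∃ a, E ^ j *ᵥ a ≠ 0 := by
      by_contra hcon
      push Not at hcon
      exact hj (mat_ext fun x => by rw [hcon, Matrix.zero_mulVec])
    obtain ⟨x, hx⟩ : ∃ x, (E * E) *ᵥ x ≠ 0 := by
      by_contra hcon
      push Not at hcon
      exact hEE (mat_ext fun x => by rw [hcon, Matrix.zero_mulVec])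
    obtain ⟨b, hb⟩ := nondeg hsg hx
    obtain ⟨c, hc⟩ := h a b
    have h1 := congrArg (fun Z => E ^ j * Z) hc
    rw [br_ad, mul_add, mul_sub, mul_smul_comm, mul_smul_comm, ← mul_assoc, ← mul_assoc,
      ← mul_assoc, ← mul_assoc, ← mul_assoc, ← pow_succ, hk] at h1
    simp only [zero_mul, smul_zero, sub_zero, zero_add] at h1
    have h2 := congrArg (fun Z => Z *ᵥ x) h1
    rw [mul_R, ← Matrix.mulVec_mulVec, RA, Matrix.zero_mulVec] at h2
    rcases smul_eq_zero.1 h2 with h3 | h3
    · exact hb h3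
    · exact ha h3
  obtain ⟨y, hy⟩ : ∃ y, E *ᵥ y ≠ 0 := by
    by_contra hcon
    push Not at hcon
    exact hE (mat_ext fun x => by rw [hcon, Matrix.zero_mulVec])
  set p : VN N := E *ᵥ y with hp
  obtain ⟨b, hb⟩ := nondeg hsg hy
  have hrange : ∀ a, ∃ t : ℂ, E *ᵥ a = t • p := by
    intro a
    obtain ⟨c, hc⟩ := h a b
    rw [br_ad, hE2, zero_mul, mul_zero, add_zero, zero_sub] at hc
    have h2 := congrArg (fun Z => Z *ᵥ y) hc
    rw [Matrix.neg_mulVec, Matrix.smul_mulVec, ← Matrix.mulVec_mulVec, ← hp, mul_R, RA,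
      Matrix.smul_mulVec, ← hp] at h2
    refine ⟨-(c / (2 * hs sg p b)), ?_⟩
    have h3 : E *ᵥ a = (-(1 / (2 * hs sg p b))) • (-((2 : ℂ) • hs sg p b • E *ᵥ a)) := by
      rw [smul_smul, smul_neg, smul_smul, ← neg_smul]
      have : -(-(1 / (2 * hs sg p b)) * (2 * hs sg p b)) = 1 := by
        field_simp
      rw [this, one_smul]
    rw [h3, h2, smul_smul]
    congr 1
    ring
  choose f hfr using hrange
  obtain ⟨z, hz⟩ : ∃ z, hs sg p z = 1 := by
    refine ⟨(star (hs sg p b))⁻¹ • b, ?_⟩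
    rw [hs_smul_right, star_inv₀, star_star, inv_mul_cancel₀ hb]
  set κ : ℂ := -star (f z) with hκ
  have hEκ : E = κ • Rs sg p p := by
    apply mat_ext
    intro x
    have h1 := hsk x z
    rw [hfr x, hfr z, hs_smul_left, hs_smul_right, hz, mul_one] at h1
    rw [hfr x, Matrix.smul_mulVec, RA, smul_smul]
    congr 1
    rw [hκ]
    linear_combination h1
  have hκ0 : κ ≠ 0 := by
    intro h0
    rw [h0, zero_smul] at hEκ
    exact hE hEκ
  have hpp : hs sg p p = 0 := by
    have h1 := hE2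
    rw [hEκ, smul_mul_assoc, mul_smul_comm, R_mul, smul_smul, smul_smul] at h1
    have hR : Rs sg p p ≠ 0 := by
      intro h0
      rw [h0, smul_zero] at hEκ
      exact hE hEκ
    rcases smul_eq_zero.1 h1 with h2 | h2
    · rcases mul_eq_zero.1 h2 with h3 | h3
      · exact absurd (mul_self_eq_zero.1 h3) hκ0
      · exact h3
    · exact absurd h2 hR
  have hκs : κ + star κ = 0 := by
    have h1 := hsk z z
    have hzp : hs sg z p = 1 := by rw [hs_conj, hz, star_one]
    rw [hEκ, Matrix.smul_mulVec, RA, hzp, one_smul, hs_smul_left, hs_smul_right, hz, hzp,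
      mul_one, mul_one] at h1
    exact h1
  have hre : κ.re = 0 := by
    have h1 := congrArg Complex.re hκs
    simp at h1
    linarith
  set t : ℝ := κ.im with ht
  have hκt : κ = (t : ℂ) * Complex.I := by
    apply Complex.ext
    · simp [hre]
    · simp [ht]
  have ht0 : t ≠ 0 := by
    intro h0
    rw [h0] at hκt
    exact hκ0 (by rw [hκt]; simp)
  have hp0 : p ≠ 0 := hy
  have key : ∀ s : ℝ, 0 < s * t → s * s = 1 → ((s : ℂ) * Complex.I) •
      Rs sg (((Real.sqrt (s * t) : ℝ) : ℂ) • p) (((Real.sqrt (s * t) : ℝ) : ℂ) • p) = E := by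
    intro s hst hss
    rw [R_smul_left, R_smul_right, smul_smul, smul_smul, hEκ, hκt]
    congr 1
    have h1 : ((Real.sqrt (s * t) : ℝ) : ℂ) * ((Real.sqrt (s * t) : ℝ) : ℂ) = ((s * t : ℝ) : ℂ) := by
      rw [← Complex.ofReal_mul, Real.mul_self_sqrt hst.le]
    have h2 : star ((Real.sqrt (s * t) : ℝ) : ℂ) = ((Real.sqrt (s * t) : ℝ) : ℂ) :=
      Complex.conj_ofReal _
    rw [h2, mul_assoc, h1]
    push_cast
    have h3 : ((s : ℂ)) * s = 1 := by exact_mod_cast hss
    linear_combination (Complex.I * t) * h3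
  have hfin : ∀ s : ℝ, 0 < s * t → (((Real.sqrt (s * t) : ℝ) : ℂ) • p ≠ 0 ∧
      hs sg (((Real.sqrt (s * t) : ℝ) : ℂ) • p) (((Real.sqrt (s * t) : ℝ) : ℂ) • p) = 0) := by
    intro s hst
    constructor
    · refine smul_ne_zero ?_ hp0
      exact_mod_cast (Real.sqrt_pos.2 hst).ne'
    · rw [hs_smul_left, hs_smul_right, hpp, mul_zero, mul_zero]
  rcases lt_or_gt_of_ne ht0 with hlt | hgt
  · have hst : 0 < (-1) * t := by linarith
    exact ⟨-1, _, Or.inr rfl, (hfin _ hst).1, (hfin _ hst).2, (key _ hst (by norm_num)).symm⟩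
  · have hst : 0 < 1 * t := by linarith
    exact ⟨1, _, Or.inl rfl, (hfin _ hst).1, (hfin _ hst).2, (key _ hst (by norm_num)).symm⟩

theorem main (hSU : G_SU) : Pool.Agent.N208.BT.G_P1 := by
  intro N N' sg sg' hsg hmx hsg' hmx' 𝔟 hb hi1 hi2 u v huu hvv huv E' hE'
  have hvu : hs sg v u = 1 := by rw [hs_conj, huv, star_one]
  have hu0 : u ≠ 0 := by
    rintro rfl
    rw [hs_zero_left] at huv
    exact zero_ne_one huv
  have hbr : ∀ (X X' : MN N) (Y Y' : MN N'), (X, Y) ∈ 𝔟 → (X', Y') ∈ 𝔟 → (br X X', br Y Y') ∈ 𝔟 := by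
    intro X X' Y Y' h1 h2
    exact hb.br _ h1 _ h2
  have hsub : ∀ (X X' : MN N) (Y Y' : MN N'), (X, Y) ∈ 𝔟 → (X', Y') ∈ 𝔟 → ∀ c : ℝ,
      X = (c : ℂ) • X' → Y = (c : ℂ) • Y' := by
    intro X X' Y Y' h1 h2 c hc
    have h3 : (X - (c : ℂ) • X', Y - (c : ℂ) • Y') ∈ 𝔟 := by
      have h4 := 𝔟.sub_mem h1 (𝔟.smul_mem c h2)
      rw [Prod.smul_mk, Prod.mk_sub_mk, ← Complex.coe_smul, ← Complex.coe_smul] at h4
      exact h4
    rw [hc, sub_self] at h3
    exact sub_eq_zero.1 (hi2 _ h3)
  have hsk1 : ∀ (X : MN N) (Y : MN N'), (X, Y) ∈ 𝔟 → IsSks sg X := fun X Y h => hb.sk1 (X, Y) h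
  have hsk2 : ∀ (X : MN N) (Y : MN N'), (X, Y) ∈ 𝔟 → IsSks sg' Y := fun X Y h => hb.sk2 (X, Y) h
  obtain ⟨F', hF'⟩ := hb.all1 v hvv
  have hH := hbr _ _ _ _ hF' hE'
  have hHE := hbr _ _ _ _ hH hE'
  have hHeq : br (Complex.I • Rs sg v v) (Complex.I • Rs sg u u) = Rs sg u v - Rs sg v u := by
    unfold br
    simp only [smul_mul_assoc, mul_smul_comm, R_mul, huv, hvu, smul_smul,
      Complex.I_mul_I, neg_smul, one_smul]
    abel
  have hHsk : IsSks sg (Rs sg u v - Rs sg v u) := by
    rw [← hHeq]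
    exact hsk1 _ _ hH
  have hHu : (Rs sg u v - Rs sg v u) *ᵥ u = u := by
    rw [Matrix.sub_mulVec, RA, RA, huv, huu]
    simp
  have hHE2 : br (br (Complex.I • Rs sg v v) (Complex.I • Rs sg u u)) (Complex.I • Rs sg u u) =
      ((2 : ℝ) : ℂ) • (Complex.I • Rs sg u u) := by
    rw [hHeq, br_smul, br_R hHsk, hHu, ← two_smul ℂ (Rs sg u u), smul_comm]
    norm_num
  have hrel : br (br F' E') E' = ((2 : ℝ) : ℂ) • E' := hsub _ _ _ _ hHE hE' 2 hHE2
  have hrel' : br (br F' E') E' = (2 : ℂ) • E' := by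
    rw [hrel]
    norm_num
  have hnil := nilp hrel'
  have hE'0 : E' ≠ 0 := by
    rintro rfl
    have h1 := hi1 _ hE'
    have h2 := congrArg (fun Z => Z *ᵥ v) h1
    rw [Matrix.smul_mulVec, RA, hvu, one_smul, Matrix.zero_mulVec] at h2
    rcases smul_eq_zero.1 h2 with h3 | h3
    · exact Complex.I_ne_zero h3
    · exact hu0 h3
  have hEE : (Complex.I • Rs sg u u) * (Complex.I • Rs sg u u) = 0 := by
    rw [smul_mul_assoc, mul_smul_comm, R_mul, huu, zero_smul, smul_zero, smul_zero]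
  have hquad : ∀ (X : MN N) (Y : MN N'), (X, Y) ∈ 𝔟 → ∃ c : ℂ, br E' (br E' Y) = c • E' := by
    intro X Y hp
    have h1 := hbr _ _ _ _ hE' (hbr _ _ _ _ hE' hp)
    have hskX : IsSks sg X := hsk1 _ _ hp
    obtain ⟨k, hk⟩ : ∃ k : ℂ, k = 2 * hs sg (X *ᵥ u) u * (-Complex.I) := ⟨_, rfl⟩
    have hks : star k = k := by
      have h2 := hskX u u
      have h3 : star (hs sg (X *ᵥ u) u) = - hs sg (X *ᵥ u) u := by
        rw [← hs_conj]
        linear_combination h2
      rw [hk, star_mul', star_mul', h3]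
      simp
    have hkr : ((k.re : ℝ) : ℂ) = k := Complex.conj_eq_iff_re.1 hks
    have hfst : br (Complex.I • Rs sg u u) (br (Complex.I • Rs sg u u) X) =
        ((k.re : ℝ) : ℂ) • (Complex.I • Rs sg u u) := by
      rw [hkr, br_ad, hEE, zero_mul, mul_zero, add_zero, zero_sub, smul_mul_assoc,
        smul_mul_assoc, mul_smul_comm, mul_assoc, mul_R, R_mul, hk]
      simp only [smul_smul]
      rw [← neg_smul]
      congr 1
      ring
    exact ⟨_, hsub _ _ _ _ h1 hE' _ hfst⟩
  refine rank_one hsg' hE'0 (hsk2 _ _ hE') hnil ?_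
  intro a b
  have hW := all_R hSU hsg' hmx' ((ℂ ∙ E').comap (ad2 E')) (by
    rw [Submodule.mem_comap]
    have : ad2 E' 1 = 0 := by
      show br E' (br E' 1) = 0
      unfold br
      simp
    rw [this]
    exact Submodule.zero_mem _) (by
    intro x hx
    obtain ⟨X, hX⟩ := hb.all2 x hx
    obtain ⟨c, hc⟩ := hquad _ _ hX
    rw [Submodule.mem_comap]
    have hc' : ad2 E' (Complex.I • Rs sg' x x) = c • E' := hc
    rw [hc']
    exact Submodule.smul_mem _ _ (Submodule.mem_span_singleton_self _)) a b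
  rw [Submodule.mem_comap, Submodule.mem_span_singleton] at hW
  obtain ⟨c, hc⟩ := hW
  exact ⟨c, hc.symm⟩

end Pool.Agent.N49.BGP1
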