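import Pool.Agent.N904.AP.Stm

/-! D1: parametrisation of the special circles. -/

set_option autoImplicit false

open Set Filter Topology

namespace Pool.Agent.N49.APPar

open Pool.Agent.N904.AP

theorem mk2_some (a b c d : ℂ) (h : a * d - b * c ≠ 0) (z : ℂ) :
    mk2 a b c d h • (z : OnePoint ℂ) =
      if c * z + d = 0 then OnePoint.infty else (((a * z + b) / (c * z + d) : ℂ) : OnePoint ℂ) := by
  rw [OnePoint.smul_some_eq_ite]
  rfl

theorem mk2_infty (a b c d : ℂ) (h : a * d - b * c ≠ 0) :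
    mk2 a b c d h • (OnePoint.infty : OnePoint ℂ) =
      if c = 0 then OnePoint.infty else ((a / c : ℂ) : OnePoint ℂ) := by
  rw [OnePoint.smul_infty_eq_ite]
  rfl

theorem s5_pos : 0 < s5 := Real.sqrt_pos.2 (by norm_num)

theorem s5_sq : s5 ^ 2 = 5 := Real.sq_sqrt (by norm_num)

theorem s5_ne : (s5 : ℂ) ≠ 0 := by
  exact_mod_cast s5_pos.ne'

theorem img_img (g h : GLC) (S : Set (OnePoint ℂ)) : img g (img h S) = img (g * h) S := by
  unfold img
  rw [Set.image_image]
  simp only [mul_smul]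

theorem num_eq (t w : ℝ) : (s5 : ℂ) * Complex.I * (w : ℂ) + ((s5 : ℂ) * t + s5) =
    s5 * (1 + (t + w * Complex.I)) := by ring

theorem den_eq (t w : ℝ) : -Complex.I * (w : ℂ) + (1 - (t : ℂ)) =
    1 - (t + w * Complex.I) := by ring

theorem mem_Ct_of (t w : ℝ) (hD : -Complex.I * (w : ℂ) + (1 - (t : ℂ)) ≠ 0) (z : ℂ)
    (hz : z = ((s5 : ℂ) * Complex.I * (w : ℂ) + ((s5 : ℂ) * t + s5)) /
      (-Complex.I * (w : ℂ) + (1 - (t : ℂ)))) : ‖z‖ ^ 2 - 5 = t * ‖z + (s5 : ℂ)‖ ^ 2 := by
  have h1 : z + s5 = 2 * s5 / (-Complex.I * (w : ℂ) + (1 - (t : ℂ))) := by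
    rw [hz, div_add' _ _ _ hD]
    congr 1
    ring
  rw [h1, hz, norm_div, norm_div, div_pow, div_pow, Complex.sq_norm, Complex.sq_norm,
    Complex.sq_norm]
  have hD' : Complex.normSq (-Complex.I * (w : ℂ) + (1 - (t : ℂ))) ≠ 0 := by
    rwa [Ne, Complex.normSq_eq_zero]
  have e1 : Complex.normSq (-Complex.I * (w : ℂ) + (1 - (t : ℂ))) = (1 - t) ^ 2 + w ^ 2 := by
    rw [Complex.normSq_apply]
    simp
    ring
  have e2 : Complex.normSq ((s5 : ℂ) * Complex.I * (w : ℂ) + ((s5 : ℂ) * t + s5)) =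
      s5 ^ 2 * ((1 + t) ^ 2 + w ^ 2) := by
    rw [Complex.normSq_apply]
    simp
    ring
  have e3 : Complex.normSq (2 * (s5 : ℂ)) = 4 * s5 ^ 2 := by
    rw [Complex.normSq_apply]
    simp
    ring
  rw [e2, e3, s5_sq]
  rw [e1] at hD' ⊢
  field_simp
  ring

theorem ct_eq (t : ℝ) : Ct t = img (hh t) RR := by
  ext p
  constructor
  · rintro (⟨rfl, rfl⟩ | ⟨z, rfl, hz⟩)
    · refine ⟨(((0 : ℝ) : ℂ) : OnePoint ℂ), Or.inr ⟨0, rfl⟩, ?_⟩
      show hh 1 • _ = _
      unfold hh
      rw [mk2_some, if_pos (by simp)]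
    · by_cases h : z + s5 = 0
      · refine ⟨OnePoint.infty, Or.inl rfl, ?_⟩
        show hh t • _ = _
        unfold hh
        rw [mk2_infty, if_neg (neg_ne_zero.mpr Complex.I_ne_zero)]
        have h1 : (s5 : ℂ) * Complex.I / -Complex.I = z := by
          rw [div_neg, mul_div_assoc, div_self Complex.I_ne_zero, mul_one]
          exact (eq_neg_of_add_eq_zero_left h).symm
        rw [h1]
      · set ζ : ℂ := (z - s5) / (z + s5) with hζ
        have hre : ζ.re = t := by
          rw [hζ, Complex.div_re]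
          have h2 : Complex.normSq (z + s5) ≠ 0 := by rwa [Ne, Complex.normSq_eq_zero]
          rw [Complex.sq_norm, Complex.sq_norm] at hz
          rw [← add_div, div_eq_iff h2]
          rw [Complex.normSq_apply] at hz
          have h3 : (z - (s5 : ℂ)).re * (z + (s5 : ℂ)).re + (z - (s5 : ℂ)).im * (z + (s5 : ℂ)).im =
              z.re * z.re + z.im * z.im - s5 ^ 2 := by
            simp
            ring
          rw [h3, s5_sq]
          exact hz
        have hζ2 : ((t : ℂ) + ζ.im * Complex.I) = ζ := by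
          rw [← hre]
          exact Complex.re_add_im ζ
        have e1 : 1 - ζ = 2 * s5 / (z + s5) := by
          rw [hζ]
          field_simp
          ring
        have e2 : 1 + ζ = 2 * z / (z + s5) := by
          rw [hζ]
          field_simp
          ring
        have hD : -Complex.I * ((ζ.im : ℝ) : ℂ) + (1 - (t : ℂ)) ≠ 0 := by
          rw [den_eq, hζ2, e1]
          exact div_ne_zero (mul_ne_zero two_ne_zero s5_ne) h
        refine ⟨((ζ.im : ℂ) : OnePoint ℂ), Or.inr ⟨ζ.im, rfl⟩, ?_⟩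
        show hh t • _ = _
        unfold hh
        rw [mk2_some, if_neg hD]
        have h4 : ((s5 : ℂ) * Complex.I * ((ζ.im : ℝ) : ℂ) + ((s5 : ℂ) * t + s5)) /
            (-Complex.I * ((ζ.im : ℝ) : ℂ) + (1 - (t : ℂ))) = z := by
          rw [num_eq, den_eq, hζ2, e1, e2]
          have := s5_ne
          field_simp
        rw [h4]
  · rintro ⟨q, hq, rfl⟩
    rcases hq with rfl | ⟨w, rfl⟩
    · right
      refine ⟨-s5, ?_, ?_⟩
      · show hh t • _ = _
        unfold hh
        rw [mk2_infty, if_neg (neg_ne_zero.mpr Complex.I_ne_zero)]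
        have h1 : (s5 : ℂ) * Complex.I / -Complex.I = -s5 := by
          rw [div_neg, mul_div_assoc, div_self Complex.I_ne_zero, mul_one]
        rw [h1]
      · rw [neg_add_cancel, norm_zero, norm_neg, Complex.sq_norm, Complex.normSq_ofReal, ← sq, s5_sq]
        ring
    · by_cases hD : -Complex.I * (w : ℂ) + (1 - (t : ℂ)) = 0
      · left
        constructor
        · show hh t • _ = _
          unfold hh
          rw [mk2_some, if_pos hD]
        · have := congrArg Complex.re hD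
          simp at this
          linarith
      · right
        refine ⟨((s5 : ℂ) * Complex.I * (w : ℂ) + ((s5 : ℂ) * t + s5)) /
            (-Complex.I * (w : ℂ) + (1 - (t : ℂ))), ?_, mem_Ct_of t w hD _ rfl⟩
        show hh t • _ = _
        unfold hh
        rw [mk2_some, if_neg hD]

theorem mk2_mul (a b c d a' b' c' d' : ℂ) (h : a * d - b * c ≠ 0) (h' : a' * d' - b' * c' ≠ 0)
    (h'' : (a * a' + b * c') * (c * b' + d * d') - (a * b' + b * d') * (c * a' + d * c') ≠ 0) :
    mk2 a b c d h * mk2 a' b' c' d' h' =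
      mk2 (a * a' + b * c') (a * b' + b * d') (c * a' + d * c') (c * b' + d * d') h'' := by
  apply Units.ext
  show !![a, b; c, d] * !![a', b'; c', d'] = _
  rw [Matrix.mul_fin_two]
  rfl

/-- translations -/
noncomputable def tr (x : ℂ) : GLC := mk2 1 x 0 1 (by norm_num)

theorem tr_mul (x y : ℂ) : tr x * tr y = tr (x + y) := by
  unfold tr
  rw [mk2_mul _ _ _ _ _ _ _ _ _ _ (by ring_nf; norm_num)]
  congr 1 <;> ring

theorem tr_zero : tr 0 = 1 := by
  apply Units.ext
  show !![(1 : ℂ), 0; 0, 1] = 1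
  exact Matrix.one_fin_two.symm

theorem tr_inv (x : ℂ) : (tr x)⁻¹ = tr (-x) := by
  rw [inv_eq_iff_mul_eq_one, tr_mul, add_neg_cancel, tr_zero]

theorem tr_cont : Continuous tr := by
  have h1 : Continuous (fun x : ℂ => ((tr x : GLC) : Matrix (Fin 2) (Fin 2) ℂ)) := by
    refine continuous_matrix fun i j => ?_
    fin_cases i <;> fin_cases j
    · exact continuous_const
    · exact continuous_id
    · exact continuous_const
    · exact continuous_const
  rw [Units.continuous_iff]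
  refine ⟨h1, ?_⟩
  simp only [tr_inv]
  exact h1.comp continuous_neg

theorem hh_eq (t : ℝ) : hh t = hh 0 * tr (-(Complex.I * t)) := by
  apply Units.ext
  show !![_, _; _, _] = !![_, _; _, _] * !![_, _; _, _]
  rw [Matrix.mul_fin_two]
  have hI : Complex.I * Complex.I = -1 := Complex.I_mul_I
  congr 1
  ext i j
  fin_cases i <;> fin_cases j
  · simp
  · simp
    linear_combination ((s5 : ℂ) * t) * hI
  · simp
  · simp
    linear_combination (-(t : ℂ)) * hI

theorem hh_cont : Continuous hh := by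
  have h : hh = fun t : ℝ => hh 0 * tr (-(Complex.I * t)) := funext hh_eq
  rw [h]
  refine continuous_const.mul (tr_cont.comp ?_)
  exact (continuous_const.mul Complex.continuous_ofReal).neg

/-- `z ↦ -z` -/
noncomputable def ng : GLC := mk2 (-1) 0 0 1 (by norm_num)

theorem ng_some (z : ℂ) : ng • (z : OnePoint ℂ) = ((-z : ℂ) : OnePoint ℂ) := by
  unfold ng
  rw [mk2_some, if_neg (by norm_num)]
  congr 1
  ring

theorem ng_infty : ng • (OnePoint.infty : OnePoint ℂ) = OnePoint.infty := by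
  unfold ng
  rw [mk2_infty, if_pos rfl]

theorem cu_eq (t : ℝ) (ht : 0 < t) : Cu t = img ng (Ct (-t)) := by
  ext p
  constructor
  · rintro ⟨z, rfl, hz⟩
    refine ⟨((-z : ℂ) : OnePoint ℂ), Or.inr ⟨-z, rfl, ?_⟩, ?_⟩
    · have h1 : ‖-z + (s5 : ℂ)‖ = ‖z - (s5 : ℂ)‖ := by
        rw [show -z + (s5 : ℂ) = -(z - s5) by ring, norm_neg]
      rw [h1, norm_neg]
      linarith
    · show ng • _ = _
      rw [ng_some, neg_neg]
  · rintro ⟨q, hq, rfl⟩
    rcases hq with ⟨-, h⟩ | ⟨z, rfl, hz⟩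
    · linarith
    · refine ⟨-z, ng_some z, ?_⟩
      have h1 : ‖-z - (s5 : ℂ)‖ = ‖z + (s5 : ℂ)‖ := by
        rw [show -z - (s5 : ℂ) = -(z + s5) by ring, norm_neg]
      rw [h1, norm_neg]
      linarith

/-- the imaginary part of the point of parameter `w` -/
theorem im_val (t w : ℝ) (hw : w ≠ 0) :
    (((s5 : ℂ) * Complex.I * (w : ℂ) + ((s5 : ℂ) * t + s5)) /
      (-Complex.I * (w : ℂ) + (1 - (t : ℂ)))).im = 2 * s5 * w / ((1 - t) ^ 2 + w ^ 2) := by
  rw [Complex.div_im]
  have e1 : Complex.normSq (-Complex.I * (w : ℂ) + (1 - (t : ℂ))) = (1 - t) ^ 2 + w ^ 2 := by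
    rw [Complex.normSq_apply]
    simp
    ring
  have e0 : (1 - t) ^ 2 + w ^ 2 ≠ 0 := by positivity
  rw [e1, ← sub_div]
  congr 1
  simp
  ring

theorem den_ne (t w : ℝ) (hw : w ≠ 0) : -Complex.I * (w : ℂ) + (1 - (t : ℂ)) ≠ 0 := by
  intro h
  have := congrArg Complex.im h
  simp at this
  exact hw this

theorem par : StPar := by
  refine ⟨ct_eq, hh_cont, ?_, ?_, ?_⟩
  · intro t ht
    exact ⟨ng * hh (-t), by rw [cu_eq t ht, ct_eq, img_img]⟩
  · intro t _
    refine ⟨_, ?_, Or.inr ⟨_, rfl, mem_Ct_of t (-1) (den_ne t (-1) (by norm_num)) _ rfl⟩⟩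
    rw [im_val t (-1) (by norm_num)]
    apply div_neg_of_neg_of_pos
    · have := s5_pos
      linarith
    · positivity
  · intro t ht
    have h1 := mem_Ct_of (-t) 1 (den_ne (-t) 1 (by norm_num)) _ rfl
    have h2 := im_val (-t) 1 (by norm_num)
    generalize ((s5 : ℂ) * Complex.I * ((1 : ℝ) : ℂ) + ((s5 : ℂ) * ((-t : ℝ) : ℂ) + s5)) /
      (-Complex.I * ((1 : ℝ) : ℂ) + (1 - ((-t : ℝ) : ℂ))) = z at h1 h2
    refine ⟨-z, ?_, ?_⟩
    · rw [Complex.neg_im, h2, neg_lt_zero]
      have := s5_pos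
      positivity
    · rw [cu_eq t ht]
      exact ⟨z, Or.inr ⟨z, rfl, h1⟩, ng_some z⟩

end Pool.Agent.N49.APPar
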