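import Pool.Agent.N352.HP.FW

/-! Occurrences of Hertzsprung patterns at given places: `A0`, `A1`, `A2`. -/

set_option autoImplicit false

namespace N49HP

open N352HP

/-! ### reversal of the values -/

theorem shP_rev {k : ℕ} (σ : Equiv.Perm (Fin k)) (s : ℕ) :
    ShP (Fin.revPerm * σ) s ↔ ShN σ s := by
  unfold ShP ShN
  refine forall_congr' fun j => forall_congr' fun h => ?_
  simp only [Equiv.Perm.mul_apply, Fin.revPerm_apply, Fin.val_rev]
  have h1 := (σ ⟨j + s, h⟩).2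
  have h2 := (σ ⟨j, by omega⟩).2
  omega

theorem shN_rev {k : ℕ} (σ : Equiv.Perm (Fin k)) (s : ℕ) :
    ShN (Fin.revPerm * σ) s ↔ ShP σ s := by
  unfold ShP ShN
  refine forall_congr' fun j => forall_congr' fun h => ?_
  simp only [Equiv.Perm.mul_apply, Fin.revPerm_apply, Fin.val_rev]
  have h1 := (σ ⟨j + s, h⟩).2
  have h2 := (σ ⟨j, by omega⟩).2
  omega

theorem occ_rev {k n : ℕ} (σ : Equiv.Perm (Fin k)) (π : Equiv.Perm (Fin n)) (i : ℕ) :
    OccAt (Fin.revPerm * σ) (Fin.revPerm * π) i ↔ OccAt σ π i := by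
  unfold OccAt
  constructor
  · rintro ⟨h, d, hd⟩
    refine ⟨h, (n : ℤ) - k - d, fun j => ?_⟩
    have h0 := hd j
    simp only [Equiv.Perm.mul_apply, Fin.revPerm_apply, Fin.val_rev] at h0
    have h1 := (σ j).2
    have h2 := (π ⟨i + (j : ℕ), by have := j.2; omega⟩).2
    omega
  · rintro ⟨h, d, hd⟩
    refine ⟨h, (n : ℤ) - k - d, fun j => ?_⟩
    have h0 := hd j
    simp only [Equiv.Perm.mul_apply, Fin.revPerm_apply, Fin.val_rev]
    have h1 := (σ j).2
    have h2 := (π ⟨i + (j : ℕ), by have := j.2; omega⟩).2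
    omega

/-! ### A0 -/

/-- the case `k - s < k - t` -/
theorem A0_aux (k : ℕ) (σ : Equiv.Perm (Fin k)) (s t : ℕ) (_hs : 1 ≤ s) (hsk : s < k) (ht : 1 ≤ t)
    (hts : t < s) (hP : ShP σ s) : ¬ ShN σ t := by
  intro hN
  have hlt : ∀ j : Fin (k - s), (σ ⟨j, by have := j.2; omega⟩ : ℕ) < k - s := by
    intro j
    have h1 := hP j (by have := j.2; omega)
    have h2 := (σ ⟨j + s, by have := j.2; omega⟩).2
    omega
  let f : Fin (k - s) → Fin (k - s) := fun j => ⟨σ ⟨j, by have := j.2; omega⟩, hlt j⟩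
  have hf : Function.Injective f := by
    intro x y hxy
    have h1 : (σ ⟨x, by have := x.2; omega⟩ : ℕ) = (σ ⟨y, by have := y.2; omega⟩ : ℕ) := by
      have h0 := congrArg Fin.val hxy
      exact h0
    have h2 := σ.injective (Fin.ext h1)
    exact Fin.ext (Fin.mk.inj_iff.mp h2)
  obtain ⟨j, hj⟩ := (Finite.injective_iff_surjective.mp hf) ⟨0, by omega⟩
  have h1 : (σ ⟨j, by have := j.2; omega⟩ : ℕ) = 0 := congrArg Fin.val hj
  have h2 := hN j (by have := j.2; omega)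
  omega

theorem A0 : S_A0 := by
  intro k σ s t hs hsk ht htk hP hN
  rcases Nat.lt_trichotomy s t with h | h | h
  · exact A0_aux k (Fin.revPerm * σ) t s ht htk hs h ((shP_rev σ t).mpr hN) ((shN_rev σ s).mpr hP)
  · subst h
    have h1 := hP 0 (by omega)
    have h2 := hN 0 (by omega)
    omega
  · exact A0_aux k σ s t hs hsk ht h hP hN

/-! ### A1 -/

theorem inj_le {k x y : ℕ} (σ : Equiv.Perm (Fin k)) (hx : x ≤ k)
    (h : ∀ j : Fin k, (j : ℕ) < x → (σ j : ℕ) < y) : x ≤ y := by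
  have := Fintype.card_le_of_injective
    (fun i : Fin x => (⟨σ ⟨i, by have := i.2; omega⟩, h _ i.2⟩ : Fin y)) (by
      intro a b hab
      have h1 : (σ ⟨a, by have := a.2; omega⟩ : ℕ) = (σ ⟨b, by have := b.2; omega⟩ : ℕ) := by
        have h0 := congrArg Fin.val hab
        exact h0
      have h2 := σ.injective (Fin.ext h1)
      exact Fin.ext (Fin.mk.inj_iff.mp h2))
  simpa using this

theorem A1_aux {k n : ℕ} (σ : Equiv.Perm (Fin k)) (π : Equiv.Perm (Fin n)) (i s : ℕ)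
    (hs : 1 ≤ s) (hsk : s < k) (_h1 : i + k ≤ n) (h2 : i + s + k ≤ n) (d d' : ℤ)
    (hd : ∀ j : Fin k, ((π ⟨i + (j : ℕ), by have := j.2; omega⟩ : ℕ) : ℤ) = ((σ j : ℕ) : ℤ) + d)
    (hd' : ∀ j : Fin k, ((π ⟨i + s + (j : ℕ), by have := j.2; omega⟩ : ℕ) : ℤ) =
      ((σ j : ℕ) : ℤ) + d') (hlt : d < d') : ShP σ s := by
  obtain ⟨e, he⟩ := Int.le.dest hlt.le
  have he1 : 1 ≤ e := by omega
  -- the constant difference
  have hc : ∀ (j : ℕ) (h : j + s < k), (σ ⟨j + s, h⟩ : ℕ) = (σ ⟨j, by omega⟩ : ℕ) + e := by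
    intro j h
    have a1 := hd ⟨j + s, h⟩
    have a2 := hd' ⟨j, by omega⟩
    have a3 : (⟨i + ((⟨j + s, h⟩ : Fin k) : ℕ), by simp only; omega⟩ : Fin n) =
        ⟨i + s + ((⟨j, by omega⟩ : Fin k) : ℕ), by simp only; omega⟩ := by
      apply Fin.ext
      simp only
      omega
    rw [a3] at a1
    omega
  have hek : e < k := by
    have a1 := hc 0 (by omega)
    have a2 := (σ ⟨0 + s, by omega⟩).2
    omega
  have e1 : k - s ≤ k - e := by
    refine inj_le σ (by omega) fun j hj => ?_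
    have a1 := hc j (by omega)
    have a2 := (σ ⟨j + s, by omega⟩).2
    have a3 : σ ⟨(j : ℕ), by omega⟩ = σ j := rfl
    rw [a3] at a1
    omega
  have e2 : k - e ≤ k - s := by
    refine inj_le σ.symm (by omega) fun w hw => ?_
    -- the value `w + e`
    have b1 := hd (σ.symm ⟨w + e, by omega⟩)
    have b2 := hd' (σ.symm w)
    rw [Equiv.apply_symm_apply] at b1 b2
    simp only at b1
    have b3 : π ⟨i + ((σ.symm ⟨w + e, by omega⟩ : Fin k) : ℕ),
        by have := (σ.symm ⟨w + e, by omega⟩ : Fin k).2; omega⟩ =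
        π ⟨i + s + ((σ.symm w : Fin k) : ℕ), by have := (σ.symm w : Fin k).2; omega⟩ := by
      apply Fin.ext
      push_cast at b1
      omega
    have b4 := Fin.mk.inj_iff.mp (π.injective b3)
    have b5 := (σ.symm ⟨w + e, by omega⟩ : Fin k).2
    omega
  have he2 : e = s := by omega
  subst he2
  exact hc

theorem A1 : S_A1 := by
  rintro k n σ π i s hs hsk ho ho'
  have hor := (occ_rev σ π i).mpr ho
  have hor' := (occ_rev σ π (i + s)).mpr ho'
  obtain ⟨h1, d, hd⟩ := ho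
  obtain ⟨h2, d', hd'⟩ := ho'
  refine ⟨hs, hsk, ?_⟩
  rcases lt_trichotomy d d' with h | h | h
  · left
    exact A1_aux σ π i s hs hsk h1 h2 d d' hd hd' h
  · exfalso
    subst h
    have a1 := hd ⟨s, hsk⟩
    have a2 := hd' ⟨0, by omega⟩
    have a3 : (⟨i + ((⟨s, hsk⟩ : Fin k) : ℕ), by simp only; omega⟩ : Fin n) =
        ⟨i + s + ((⟨0, by omega⟩ : Fin k) : ℕ), by simp only; omega⟩ := by
      apply Fin.ext
      simp only
      omega
    rw [a3] at a1
    have a4 : σ ⟨s, hsk⟩ = σ ⟨0, by omega⟩ := by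
      apply Fin.ext
      omega
    have a5 := Fin.mk.inj_iff.mp (σ.injective a4)
    omega
  · right
    rw [← shP_rev]
    have e1 : ∀ j : Fin k, (((Fin.revPerm * π : Equiv.Perm (Fin n)) ⟨i + (j : ℕ), by have := j.2; omega⟩ : ℕ) : ℤ) =
        (((Fin.revPerm * σ : Equiv.Perm (Fin k)) j : ℕ) : ℤ) + ((n : ℤ) - k - d) := by
      intro j
      have h0 := hd j
      simp only [Equiv.Perm.mul_apply, Fin.revPerm_apply, Fin.val_rev]
      have h1 := (σ j).2
      have h2 := (π ⟨i + (j : ℕ), by have := j.2; omega⟩).2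
      omega
    have e2 : ∀ j : Fin k, (((Fin.revPerm * π : Equiv.Perm (Fin n)) ⟨i + s + (j : ℕ), by have := j.2; omega⟩ : ℕ) : ℤ) =
        (((Fin.revPerm * σ : Equiv.Perm (Fin k)) j : ℕ) : ℤ) + ((n : ℤ) - k - d') := by
      intro j
      have h0 := hd' j
      simp only [Equiv.Perm.mul_apply, Fin.revPerm_apply, Fin.val_rev]
      have h1 := (σ j).2
      have h2 := (π ⟨i + s + (j : ℕ), by have := j.2; omega⟩).2
      omega
    exact A1_aux _ _ i s hs hsk h1 h2 _ _ e1 e2 (by omega)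

/-! ### A2 -/

theorem shP_zero {k : ℕ} (σ : Equiv.Perm (Fin k)) : ShP σ 0 := fun _ _ => rfl

theorem shP_add {k : ℕ} {σ : Equiv.Perm (Fin k)} {s t : ℕ} (hs : ShP σ s) (ht : ShP σ t) :
    ShP σ (s + t) := by
  intro j h
  have a1 := hs j (by omega)
  have a2 := ht (j + s) (by omega)
  have a3 : (⟨j + (s + t), h⟩ : Fin k) = ⟨j + s + t, by omega⟩ := Fin.ext (by simp only; omega)
  rw [a3]
  omega

theorem chain {k : ℕ} {σ : Equiv.Perm (Fin k)} {M : Finset ℕ}
    (H : ∀ i ∈ M, ∀ j ∈ M, i < j → j < i + k → (∀ x ∈ M, ¬ (i < x ∧ x < j)) → ShP σ (j - i)) :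
    ∀ m i j : ℕ, i ∈ M → j ∈ M → i ≤ j → j < i + k → j - i = m → ShP σ (j - i) := by
  intro m
  induction m using Nat.strong_induction_on with
  | _ m ih =>
    intro i j hi hj hij hjk hm
    rcases Nat.eq_or_lt_of_le hij with h | h
    · subst h
      rw [Nat.sub_self]
      exact shP_zero σ
    · by_cases hc : ∀ x ∈ M, ¬ (i < x ∧ x < j)
      · exact H i hi j hj h hjk hc
      · push Not at hc
        obtain ⟨x, hx, h1, h2⟩ := hc
        have a1 := ih (x - i) (by omega) i x hi hx h1.le (by omega) rfl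
        have a2 := ih (j - x) (by omega) x j hx hj h2.le (by omega) rfl
        have a3 := shP_add a1 a2
        rwa [show x - i + (j - x) = j - i by omega] at a3

open Classical in
/-- the permutation `F` as a function on the natural numbers -/
noncomputable def gf {k : ℕ} (σ : Equiv.Perm (Fin k)) (M : Finset ℕ) (x : ℕ) : ℕ :=
  if h : ∃ i ∈ M, i ≤ x ∧ x < i + k then
    h.choose + (σ ⟨x - h.choose, by have := h.choose_spec; omega⟩ : ℕ) else x

theorem gf_wd {k : ℕ} {σ : Equiv.Perm (Fin k)} {M : Finset ℕ}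
    (H : ∀ i ∈ M, ∀ j ∈ M, i ≤ j → j < i + k → ShP σ (j - i)) (i : ℕ) (hi : i ∈ M) (j : Fin k)
    (i0 : ℕ) (h1 : i0 ∈ M) (h2 : i0 ≤ i + (j : ℕ)) (h3 : i + (j : ℕ) < i0 + k)
    (p2 : i + (j : ℕ) - i0 < k) :
    i0 + (σ ⟨i + (j : ℕ) - i0, p2⟩ : ℕ) = i + (σ j : ℕ) := by
  have hj := j.2
  rcases Nat.le_total i0 i with h | h
  · have a1 := H i0 h1 i hi h (by omega) (j : ℕ) (by omega)
    have a2 : (⟨(j : ℕ) + (i - i0), by omega⟩ : Fin k) = ⟨i + (j : ℕ) - i0, p2⟩ :=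
      Fin.ext (by simp only; omega)
    rw [a2] at a1
    have a3 : σ ⟨(j : ℕ), by omega⟩ = σ j := rfl
    rw [a3] at a1
    omega
  · have a1 := H i hi i0 h1 h (by omega) (i + (j : ℕ) - i0) (by omega)
    have a2 : (⟨i + (j : ℕ) - i0 + (i0 - i), by omega⟩ : Fin k) = j :=
      Fin.ext (by simp only; omega)
    rw [a2] at a1
    omega

theorem gf_block {k : ℕ} {σ : Equiv.Perm (Fin k)} {M : Finset ℕ}
    (H : ∀ i ∈ M, ∀ j ∈ M, i ≤ j → j < i + k → ShP σ (j - i)) (i : ℕ) (hi : i ∈ M) (j : Fin k) :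
    gf σ M (i + j) = i + (σ j : ℕ) := by
  have hj := j.2
  have hex : ∃ i' ∈ M, i' ≤ i + (j : ℕ) ∧ i + (j : ℕ) < i' + k := ⟨i, hi, by omega, by omega⟩
  unfold gf
  rw [dif_pos hex]
  obtain ⟨h1, h2, h3⟩ := hex.choose_spec
  exact gf_wd H i hi j _ h1 h2 h3 _

theorem gf_out {k : ℕ} {σ : Equiv.Perm (Fin k)} {M : Finset ℕ} (x : ℕ)
    (h : ¬ ∃ i ∈ M, i ≤ x ∧ x < i + k) : gf σ M x = x := by
  unfold gf
  rw [dif_neg h]

theorem NM_pos {k n : ℕ} (σ : Equiv.Perm (Fin k)) (M : Finset ℕ) (hM : ∀ i ∈ M, i + k ≤ n)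
    (H : ∀ i ∈ M, ∀ j ∈ M, i ≤ j → j < i + k → ShP σ (j - i)) :
    NM σ n M = NM (1 : Equiv.Perm (Fin k)) n M := by
  have hlt : ∀ x : Fin n, gf σ M x < n := by
    intro x
    by_cases h : ∃ i ∈ M, i ≤ (x : ℕ) ∧ (x : ℕ) < i + k
    · obtain ⟨i, hi, h1, h2⟩ := h
      have a1 := gf_block H i hi ⟨(x : ℕ) - i, by omega⟩
      simp only at a1
      rw [show i + ((x : ℕ) - i) = x by omega] at a1
      rw [a1]
      have a2 := (σ ⟨(x : ℕ) - i, by omega⟩).2
      have a3 := hM i hi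
      omega
    · rw [gf_out _ h]
      exact x.2
  let F0 : Fin n → Fin n := fun x => ⟨gf σ M x, hlt x⟩
  have hsurj : Function.Surjective F0 := by
    intro y
    by_cases h : ∃ i ∈ M, i ≤ (y : ℕ) ∧ (y : ℕ) < i + k
    · obtain ⟨i, hi, h1, h2⟩ := h
      have a3 := hM i hi
      have a4 := (σ.symm ⟨(y : ℕ) - i, by omega⟩).2
      refine ⟨⟨i + (σ.symm ⟨(y : ℕ) - i, by omega⟩ : ℕ), by omega⟩, ?_⟩
      apply Fin.ext
      have a1 := gf_block H i hi (σ.symm ⟨(y : ℕ) - i, by omega⟩)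
      rw [Equiv.apply_symm_apply] at a1
      simp only at a1
      simp only [F0]
      omega
    · refine ⟨y, Fin.ext ?_⟩
      exact gf_out _ h
  let F : Equiv.Perm (Fin n) := Equiv.ofBijective F0 (Finite.surjective_iff_bijective.mp hsurj)
  have hF : ∀ x : Fin n, (F x : ℕ) = gf σ M x := fun x => rfl
  refine Nat.card_congr ((Equiv.mulRight F⁻¹).subtypeEquiv fun π => ?_)
  refine forall_congr' fun i => forall_congr' fun hi => ?_
  have hin := hM i hi
  -- `F (i + j) = i + σ j`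
  have hFb : ∀ j : Fin k, F ⟨i + (j : ℕ), by have := j.2; omega⟩ =
      ⟨i + (σ j : ℕ), by have := (σ j).2; omega⟩ := by
    intro j
    apply Fin.ext
    rw [hF]
    exact gf_block H i hi j
  have hFi : ∀ j : Fin k, F⁻¹ ⟨i + (σ j : ℕ), by have := (σ j).2; omega⟩ =
      ⟨i + (j : ℕ), by have := j.2; omega⟩ := by
    intro j
    rw [Equiv.Perm.inv_eq_iff_eq]
    exact (hFb j).symm
  unfold OccAt
  constructor
  · rintro ⟨h, d, hd⟩
    refine ⟨h, d, fun j => ?_⟩
    have a1 := hd (σ.symm j)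
    rw [Equiv.apply_symm_apply] at a1
    have a2 := hFi (σ.symm j)
    have a3 : (⟨i + (σ (σ.symm j) : ℕ), by have := (σ (σ.symm j)).2; omega⟩ : Fin n) =
        ⟨i + (j : ℕ), by have := j.2; omega⟩ := by
      apply Fin.ext
      simp only [Equiv.apply_symm_apply]
    rw [a3] at a2
    simp only [Equiv.coe_mulRight, Equiv.Perm.mul_apply, Equiv.Perm.one_apply]
    rw [a2]
    exact a1
  · rintro ⟨h, d, hd⟩
    refine ⟨h, d, fun j => ?_⟩
    have a1 := hd (σ j)
    simp only [Equiv.coe_mulRight, Equiv.Perm.mul_apply, Equiv.Perm.one_apply] at a1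
    rw [hFi j] at a1
    exact a1

theorem NM_rev {k n : ℕ} (σ : Equiv.Perm (Fin k)) (M : Finset ℕ) :
    NM σ n M = NM (Fin.revPerm * σ) n M := by
  refine Nat.card_congr ((Equiv.mulLeft (Fin.revPerm : Equiv.Perm (Fin n))).subtypeEquiv
    fun π => ?_)
  refine forall_congr' fun i => forall_congr' fun _ => ?_
  exact (occ_rev σ π i).symm

theorem A2 : S_A2 := by
  intro k n σ M hk hM hadm
  by_cases hex : ∃ i ∈ M, ∃ j ∈ M, i < j ∧ j < i + k ∧ ShP σ (j - i)
  · obtain ⟨i0, hi0, j0, hj0, h1, h2, h3⟩ := hex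
    have H : ∀ i ∈ M, ∀ j ∈ M, i < j → j < i + k → (∀ x ∈ M, ¬ (i < x ∧ x < j)) →
        ShP σ (j - i) := by
      intro i hi j hj hij hjk hc
      obtain ⟨-, -, h4 | h4⟩ := hadm i hi j hj hij hjk hc
      · exact h4
      · exact absurd h4 (A0 k σ (j0 - i0) (j - i) (by omega) (by omega) (by omega) (by omega) h3)
    exact NM_pos σ M hM fun i hi j hj hij hjk => chain H (j - i) i j hi hj hij hjk rfl
  · have H : ∀ i ∈ M, ∀ j ∈ M, i < j → j < i + k → (∀ x ∈ M, ¬ (i < x ∧ x < j)) →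
        ShP (Fin.revPerm * σ) (j - i) := by
      intro i hi j hj hij hjk hc
      rw [shP_rev]
      obtain ⟨-, -, h4 | h4⟩ := hadm i hi j hj hij hjk hc
      · exact absurd ⟨i, hi, j, hj, hij, hjk, h4⟩ hex
      · exact h4
    rw [NM_rev]
    exact NM_pos _ M hM fun i hi j hj hij hjk => chain H (j - i) i j hi hj hij hjk rfl

end N49HP
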