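import Pool.Agent.N906.NT.Stm

/-!
# NT/LOWN (project NT of helper906): many tuples with given divisor tuple
-/

set_option autoImplicit false
set_option linter.unusedVariables false

namespace Pool.Agent.N49.NT

open Finset
open Pool.Agent.N906.NT

namespace LW

variable {n : ℕ}

/-! ### The box -/

open scoped Classical in
/-- the box -/
noncomputable def Bx (n : ℕ) (Y : ℝ) (l : Fin n) : Finset (Fin n → ℤ) :=
  (Fintype.piFinset fun _ : Fin n => Finset.Icc (-((n : ℤ) * ⌈Y⌉)) ((n : ℤ) * ⌈Y⌉)).filter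
    (fun y => ∑ i, y i = 0 ∧ ∀ k, k ≠ l → Y / 2 < (y k : ℝ) ∧ (y k : ℝ) ≤ Y)

theorem at_l {l : Fin n} {y : Fin n → ℤ} (h : ∑ i, y i = 0) : y l = -∑ k ∈ univ.erase l, y k := by
  have := Finset.add_sum_erase univ y (mem_univ l)
  linarith

theorem card_er (l : Fin n) : (univ.erase l).card = n - 1 := by
  rw [card_erase_of_mem (mem_univ _), card_univ, Fintype.card_fin]

theorem l_bd {Y : ℝ} {l : Fin n} {y : Fin n → ℤ} (h : ∑ i, y i = 0)
    (hk : ∀ k, k ≠ l → Y / 2 < (y k : ℝ) ∧ (y k : ℝ) ≤ Y) :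
    ((n : ℝ) - 1) * (Y / 2) ≤ -(y l : ℝ) ∧ -(y l : ℝ) ≤ ((n : ℝ) - 1) * Y := by
  have hn : 1 ≤ n := by have := l.2; omega
  have e : ((n - 1 : ℕ) : ℝ) = (n : ℝ) - 1 := by push_cast [Nat.cast_sub hn]; ring
  have h1 : -(y l : ℝ) = ∑ k ∈ univ.erase l, (y k : ℝ) := by
    rw [at_l h]
    push_cast
    ring
  rw [h1]
  constructor
  · rw [← e, ← card_er l, ← nsmul_eq_mul, ← sum_const]
    exact sum_le_sum fun k hk' => (hk k (ne_of_mem_erase hk')).1.le
  · rw [← e, ← card_er l, ← nsmul_eq_mul, ← sum_const]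
    exact sum_le_sum fun k hk' => (hk k (ne_of_mem_erase hk')).2

theorem mem_Bx {Y : ℝ} (hY : 0 < Y) {l : Fin n} {y : Fin n → ℤ} : y ∈ Bx n Y l ↔
    ∑ i, y i = 0 ∧ ∀ k, k ≠ l → Y / 2 < (y k : ℝ) ∧ (y k : ℝ) ≤ Y := by
  unfold Bx
  rw [mem_filter, Fintype.mem_piFinset]
  refine ⟨fun h => h.2, fun h => ⟨fun k => ?_, h⟩⟩
  have hn : 1 ≤ n := by have := l.2; omega
  have hn' : (1 : ℝ) ≤ n := by exact_mod_cast hn
  have hc : Y ≤ ⌈Y⌉ := Int.le_ceil Y
  have hb : |(y k : ℝ)| ≤ n * ⌈Y⌉ := by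
    by_cases hkl : k = l
    · subst hkl
      obtain ⟨h1, h2⟩ := l_bd h.1 h.2
      rw [abs_le]
      constructor
      · nlinarith
      · have : 0 ≤ ((n : ℝ) - 1) * (Y / 2) := mul_nonneg (by linarith) (by linarith)
        nlinarith
    · obtain ⟨h1, h2⟩ := h.2 k hkl
      rw [abs_of_pos (by linarith)]
      nlinarith
  rw [mem_Icc]
  rw [abs_le] at hb
  constructor
  · exact_mod_cast hb.1
  · exact_mod_cast hb.2

theorem up (hB : S_BOX) {Y : ℝ} (hY : 0 < Y) {l : Fin n} {E : Fin n → ℕ} {M : ℕ} (hM : 1 ≤ M)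
    (h4 : 4 * (M : ℝ) ≤ Y) (hE : ∀ i, 1 ≤ E i ∧ E i ∣ M) {S : Finset (Fin n → ℤ)}
    (hS : ∀ x ∈ S, x ∈ Bx n Y l) (hc : ∀ x ∈ S, ∀ y ∈ S, ∀ i, (E i : ℤ) ∣ x i - y i) :
    (S.card : ℝ) ≤ Y ^ (n - 1) * (univ.gcd E : ℕ) / (∏ i, E i : ℕ) := by
  classical
  rcases S.eq_empty_or_nonempty with h | ⟨x0, hx0⟩
  · rw [h, card_empty, Nat.cast_zero]
    positivity
  · have hs := ((mem_Bx hY).1 (hS x0 hx0)).1
    have h1 := hB n E x0 M l Y ((Bx n Y l).filter (fun y => ∀ i, (E i : ℤ) ∣ y i - x0 i)) hM h4 hE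
      (by rw [hs]; exact dvd_zero _) (by
        intro y
        rw [mem_filter, mem_Bx hY]
        tauto)
    refine le_trans ?_ h1.2
    exact_mod_cast card_le_card (fun x hx => mem_filter.2 ⟨hS x hx, fun i => hc x hx x0 hx0 i⟩)

/-! ### The direct count -/

/-- the integers in `(Y/2, Y]` -/
noncomputable def Iv (Y : ℝ) : Finset ℤ := Ioc ⌊Y / 2⌋ ⌊Y⌋

theorem mem_Iv {Y : ℝ} {a : ℤ} : a ∈ Iv Y ↔ Y / 2 < (a : ℝ) ∧ (a : ℝ) ≤ Y := by
  unfold Iv
  rw [mem_Ioc, Int.floor_lt, Int.le_floor]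

theorem card_Iv {Y : ℝ} (hY : 2 ≤ Y) : ((Iv Y).card : ℝ) ≤ Y := by
  unfold Iv
  rw [Int.card_Ioc]
  have h1 : (⌊Y⌋ : ℝ) ≤ Y := Int.floor_le Y
  have h2 : Y / 2 - 1 < ⌊Y / 2⌋ := Int.sub_one_lt_floor _
  have h3 : ((⌊Y⌋ - ⌊Y / 2⌋).toNat : ℝ) = max ((⌊Y⌋ : ℝ) - ⌊Y / 2⌋) 0 := by
    have : (((⌊Y⌋ - ⌊Y / 2⌋).toNat : ℤ) : ℝ) = ((max (⌊Y⌋ - ⌊Y / 2⌋) 0 : ℤ) : ℝ) := by
      rw [Int.toNat_eq_max]
    rw [Int.cast_max] at this
    push_cast at this
    exact this
  rw [h3]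
  refine max_le (by linarith) (by linarith)

theorem card_Iv_mod {Y : ℝ} (hY : 2 ≤ Y) {p : ℕ} (hp : 1 ≤ p) (hpY : (p : ℝ) ≤ Y) (v : ℤ) :
    (((Iv Y).filter fun a => a ≡ v [ZMOD p]).card : ℝ) ≤ 2 * Y / p := by
  have hp0 : (0 : ℤ) < p := by exact_mod_cast hp
  have hpr : (0 : ℝ) < p := by exact_mod_cast hp
  have hpq : (0 : ℚ) < p := by exact_mod_cast hp
  have h := Int.Ioc_filter_modEq_card ⌊Y / 2⌋ ⌊Y⌋ hp0 v
  have h1 : (((Iv Y).filter fun a => a ≡ v [ZMOD p]).card : ℤ) =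
    max (⌊((⌊Y⌋ : ℚ) - v) / ((p : ℤ) : ℚ)⌋ - ⌊((⌊Y / 2⌋ : ℚ) - v) / ((p : ℤ) : ℚ)⌋) 0 := h
  have h2 : ((⌊((⌊Y⌋ : ℚ) - v) / ((p : ℤ) : ℚ)⌋ - ⌊((⌊Y / 2⌋ : ℚ) - v) / ((p : ℤ) : ℚ)⌋ : ℤ) : ℚ) ≤
      (⌊Y⌋ - ⌊Y / 2⌋) / p + 1 := by
    have h3 := Int.floor_le (((⌊Y⌋ : ℚ) - v) / ((p : ℤ) : ℚ))
    have h4 := Int.lt_floor_add_one (((⌊Y / 2⌋ : ℚ) - v) / ((p : ℤ) : ℚ))
    push_cast at h3 h4 ⊢
    have h5 : ((⌊Y⌋ : ℚ) - ⌊Y / 2⌋) / p = ((⌊Y⌋ : ℚ) - v) / p - ((⌊Y / 2⌋ : ℚ) - v) / p := by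
      field_simp
      ring
    rw [h5]
    linarith
  have h2' : ((⌊((⌊Y⌋ : ℚ) - v) / ((p : ℤ) : ℚ)⌋ - ⌊((⌊Y / 2⌋ : ℚ) - v) / ((p : ℤ) : ℚ)⌋ : ℤ) : ℝ) ≤
      (⌊Y⌋ - ⌊Y / 2⌋) / p + 1 := by exact_mod_cast h2
  have h6 : (⌊Y⌋ : ℝ) ≤ Y := Int.floor_le Y
  have h7 : Y / 2 - 1 < ⌊Y / 2⌋ := Int.sub_one_lt_floor _
  have h8 : ((⌊Y⌋ : ℝ) - ⌊Y / 2⌋) / p + 1 ≤ 2 * Y / p := by
    rw [div_add_one hpr.ne']
    gcongr
    linarith
  have h9 : (((Iv Y).filter fun a => a ≡ v [ZMOD p]).card : ℝ) =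
    ((max (⌊((⌊Y⌋ : ℚ) - v) / ((p : ℤ) : ℚ)⌋ - ⌊((⌊Y / 2⌋ : ℚ) - v) / ((p : ℤ) : ℚ)⌋) 0 : ℤ) : ℝ) := by
    exact_mod_cast h1
  rw [h9, Int.cast_max, max_le_iff]
  refine ⟨h2'.trans h8, ?_⟩
  have : 0 ≤ Y := by linarith
  push_cast
  positivity

theorem direct {Y : ℝ} (hY : 2 ≤ Y) {l i d : Fin n} (hil : i ≠ l) (hdl : d ≠ l) (hid : i ≠ d)
    {p : ℕ} (hp : 1 ≤ p) (hpY : (p : ℝ) ≤ Y) {S : Finset (Fin n → ℤ)}
    (hS : ∀ x ∈ S, x ∈ Bx n Y l) (h1 : ∀ x ∈ S, (p : ℤ) ∣ x i)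
    (h2 : ∀ x ∈ S, ∀ y ∈ S, (∀ k, k ≠ l → k ≠ d → x k = y k) → (p : ℤ) ∣ x d - y d) :
    (S.card : ℝ) ≤ 4 * Y ^ (n - 1) / (p : ℝ) ^ 2 := by
  classical
  have hY0 : 0 < Y := by linarith
  have hpr : (0 : ℝ) < p := by exact_mod_cast hp
  obtain ⟨g, hg⟩ : ∃ g : (Fin n → ℤ) → (Fin n → ℤ), g = fun x k => if k = l ∨ k = d then 0 else x k :=
    ⟨_, rfl⟩
  have hg1 : ∀ x y, g x = g y → ∀ k, k ≠ l → k ≠ d → x k = y k := by
    intro x y hxy k hk hk'
    have h3 := congrFun hxy k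
    rw [hg] at h3
    simpa [hk, hk'] using h3
  -- fibres
  have hfib : S.card ≤ ⌊2 * Y / p⌋₊ * (S.image g).card := by
    refine card_le_mul_card_image S _ fun v hv => ?_
    obtain ⟨x0, hx0, rfl⟩ := mem_image.1 hv
    refine Nat.le_floor (le_trans ?_ (card_Iv_mod hY hp hpY (x0 d)))
    have : (S.filter (fun x => g x = g x0)).card ≤
        ((Iv Y).filter fun a => a ≡ x0 d [ZMOD p]).card := by
      refine card_le_card_of_injOn (fun x => x d) ?_ ?_
      · intro x hx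
        rw [mem_coe, mem_filter] at hx
        have h3 := ((mem_Bx hY0).1 (hS x hx.1)).2 d hdl
        show x d ∈ (((Iv Y).filter fun a => a ≡ x0 d [ZMOD p] : Finset ℤ) : Set ℤ)
        rw [mem_coe, mem_filter, mem_Iv]
        refine ⟨h3, ?_⟩
        exact Int.modEq_iff_dvd.2 (h2 x0 hx0 x hx.1 (fun k hk hk' => (hg1 _ _ hx.2 k hk hk').symm))
      · intro x hx y hy hxy
        rw [mem_coe, mem_filter] at hx hy
        have h4 : ∀ k, k ≠ l → x k = y k := by
          intro k hk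
          by_cases hkd : k = d
          · rw [hkd]
            exact hxy
          · exact hg1 x y (hx.2.trans hy.2.symm) k hk hkd
        funext k
        by_cases hk : k = l
        · rw [hk, at_l ((mem_Bx hY0).1 (hS x hx.1)).1, at_l ((mem_Bx hY0).1 (hS y hy.1)).1]
          rw [sum_congr rfl fun k hk => h4 k (ne_of_mem_erase hk)]
        · exact h4 k hk
    exact_mod_cast this
  -- the image
  have himg : ((S.image g).card : ℝ) ≤ 2 * Y ^ n / (Y ^ 2 * p) := by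
    have h3 : S.image g ⊆ Fintype.piFinset (fun k => if k = l ∨ k = d then ({0} : Finset ℤ) else
        if k = i then (Iv Y).filter (fun a => a ≡ 0 [ZMOD p]) else Iv Y) := by
      intro v hv
      obtain ⟨x, hx, rfl⟩ := mem_image.1 hv
      rw [Fintype.mem_piFinset]
      intro k
      rw [hg]
      by_cases hk : k = l ∨ k = d
      · simp only [hk, if_true, mem_singleton]
      · simp only [hk, if_false]
        push Not at hk
        have h4 := ((mem_Bx hY0).1 (hS x hx)).2 k hk.1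
        by_cases hki : k = i
        · subst hki
          simp only [if_true]
          rw [mem_filter, mem_Iv]
          exact ⟨h4, (Int.modEq_zero_iff_dvd).2 (h1 x hx)⟩
        · simp only [hki, if_false]
          exact mem_Iv.2 h4
    have h4 : ((S.image g).card : ℝ) ≤ ∏ k : Fin n, ((if k = l ∨ k = d then ({0} : Finset ℤ) else
        if k = i then (Iv Y).filter (fun a => a ≡ 0 [ZMOD p]) else Iv Y).card : ℝ) := by
      have := card_le_card h3
      rw [Fintype.card_piFinset] at this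
      exact_mod_cast this
    refine h4.trans ?_
    have h5 : ∏ k : Fin n, ((if k = l ∨ k = d then ({0} : Finset ℤ) else
        if k = i then (Iv Y).filter (fun a => a ≡ 0 [ZMOD p]) else Iv Y).card : ℝ) ≤
        ∏ k : Fin n, ((if k = l then 1 / Y else 1) * (if k = d then 1 / Y else 1) *
          (if k = i then 2 / (p : ℝ) else 1) * Y) := by
      refine prod_le_prod (fun _ _ => by positivity) fun k _ => ?_
      by_cases hkl : k = l
      · subst hkl
        simp only [true_or, if_true, card_singleton, hdl.symm, hil.symm, if_false]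
        push_cast
        rw [mul_one, mul_one, one_div, inv_mul_cancel₀ hY0.ne']
      · by_cases hkd : k = d
        · subst hkd
          simp only [or_true, if_true, card_singleton, hkl, hid.symm, if_false]
          push_cast
          rw [mul_one, one_mul, one_div, inv_mul_cancel₀ hY0.ne']
        · by_cases hki : k = i
          · subst hki
            simp only [hkl, hkd, or_self, if_false, if_true, one_mul]
            refine (card_Iv_mod hY hp hpY 0).trans (le_of_eq ?_)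
            ring
          · simp only [hkl, hkd, hki, or_self, if_false, one_mul]
            exact card_Iv hY
    refine h5.trans (le_of_eq ?_)
    rw [prod_mul_distrib, prod_mul_distrib, prod_mul_distrib, prod_ite_eq', prod_ite_eq',
      prod_ite_eq', prod_const, card_univ, Fintype.card_fin]
    simp only [mem_univ, if_true]
    field_simp
  have hn : 1 ≤ n := by have := l.2; omega
  have h6 : (S.card : ℝ) ≤ (2 * Y / p) * (2 * Y ^ n / (Y ^ 2 * p)) := by
    have h7 : (S.card : ℝ) ≤ (⌊2 * Y / p⌋₊ : ℝ) * ((S.image g).card : ℝ) := by exact_mod_cast hfib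
    refine h7.trans (mul_le_mul (Nat.floor_le (by positivity)) himg (by positivity) (by positivity))
  refine h6.trans (le_of_eq ?_)
  obtain ⟨n', rfl⟩ : ∃ n', n = n' + 1 := ⟨n - 1, by omega⟩
  rw [Nat.add_sub_cancel]
  field_simp
  ring

/-- two coordinates divisible by `p` -/
theorem direct2 {Y : ℝ} (hY : 2 ≤ Y) (hn : 3 ≤ n) {l i j : Fin n} (hij : i ≠ j)
    {p : ℕ} (hp : 1 ≤ p) {S : Finset (Fin n → ℤ)}
    (hS : ∀ x ∈ S, x ∈ Bx n Y l) (h1 : ∀ x ∈ S, (p : ℤ) ∣ x i ∧ (p : ℤ) ∣ x j) :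
    (S.card : ℝ) ≤ 4 * Y ^ (n - 1) / (p : ℝ) ^ 2 := by
  classical
  have hY0 : 0 < Y := by linarith
  wlog hil : i ≠ l generalizing i j
  · push Not at hil
    exact this hij.symm (fun x hx => ⟨(h1 x hx).2, (h1 x hx).1⟩) (by rw [← hil]; exact hij.symm)
  by_cases hpY : (p : ℝ) ≤ Y
  · by_cases hjl : j = l
    · obtain ⟨d, hd⟩ : ∃ d, d ∉ ({i, l} : Finset (Fin n)) := by
        by_contra hcon
        push Not at hcon
        have h3 : (univ : Finset (Fin n)) ⊆ {i, l} := fun k _ => hcon k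
        have h4 := card_le_card h3
        rw [card_univ, Fintype.card_fin] at h4
        have h5 : ({i, l} : Finset (Fin n)).card ≤ 2 := card_le_two
        omega
      rw [mem_insert, mem_singleton, not_or] at hd
      refine direct hY hil hd.2 (Ne.symm hd.1) hp hpY hS (fun x hx => (h1 x hx).1) ?_
      intro x hx y hy hxy
      have e1 : ∀ z : Fin n → ℤ, ∑ k, z k = 0 →
          z d = -(z l + ∑ k ∈ (univ.erase l).erase d, z k) := by
        intro z hz
        have h3 := Finset.add_sum_erase univ z (mem_univ l)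
        have h4 := Finset.add_sum_erase (univ.erase l) z (mem_erase.2 ⟨hd.2, mem_univ d⟩)
        linarith
      have h5 : ∑ k ∈ (univ.erase l).erase d, x k = ∑ k ∈ (univ.erase l).erase d, y k :=
        sum_congr rfl fun k hk => hxy k (ne_of_mem_erase (mem_of_mem_erase hk)) (ne_of_mem_erase hk)
      rw [e1 x ((mem_Bx hY0).1 (hS x hx)).1, e1 y ((mem_Bx hY0).1 (hS y hy)).1, h5]
      have h6 := (h1 x hx).2
      have h7 := (h1 y hy).2
      rw [hjl] at h6 h7
      have h8 : -(x l + ∑ k ∈ (univ.erase l).erase d, y k) -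
          -(y l + ∑ k ∈ (univ.erase l).erase d, y k) = y l - x l := by ring
      rw [h8]
      exact dvd_sub h7 h6
    · exact direct hY hil hjl hij hp hpY hS (fun x hx => (h1 x hx).1)
        (fun x hx y hy _ => dvd_sub (h1 x hx).2 (h1 y hy).2)
  · have h3 : S = ∅ := by
      rw [eq_empty_iff_forall_notMem]
      intro x hx
      obtain ⟨h4, h5⟩ := ((mem_Bx hY0).1 (hS x hx)).2 i hil
      have h6 : (0 : ℤ) < x i := by
        have : (0 : ℝ) < x i := by linarith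
        exact_mod_cast this
      have h7 := Int.le_of_dvd h6 (h1 x hx).1
      have h8 : (p : ℝ) ≤ x i := by exact_mod_cast h7
      exact hpY (h8.trans h5)
    rw [h3, card_empty, Nat.cast_zero]
    positivity

/-! ### Elementary lemmas -/

/-- tails of the sum of `1/n²` -/
theorem tail (S : Finset ℕ) {w : ℝ} (hw : 1 ≤ w) (hS : ∀ n ∈ S, w < (n : ℝ)) :
    ∑ n ∈ S, (1 : ℝ) / (n : ℝ) ^ 2 ≤ 2 / w := by
  set k := ⌊w⌋₊ with hk
  have hk1 : 1 ≤ k := Nat.le_floor (by exact_mod_cast hw)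
  have hsub : S ⊆ Finset.Ioc k (k + S.sup id) := by
    intro n hn
    rw [Finset.mem_Ioc]
    constructor
    · rw [hk, Nat.floor_lt (by linarith)]; exact hS n hn
    · have := Finset.le_sup (f := id) hn
      simp only [id] at this
      omega
  have hkr : (1 : ℝ) ≤ k := by exact_mod_cast hk1
  have hwk : w < k + 1 := Nat.lt_floor_add_one w
  calc ∑ n ∈ S, (1 : ℝ) / (n : ℝ) ^ 2 ≤ ∑ n ∈ Finset.Ioc k (k + S.sup id), (1 : ℝ) / (n : ℝ) ^ 2 :=
        Finset.sum_le_sum_of_subset_of_nonneg hsub (fun _ _ _ => by positivity)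
    _ = ∑ n ∈ Finset.Ioc k (k + S.sup id), ((n : ℝ) ^ 2)⁻¹ := by simp only [one_div]
    _ ≤ (k : ℝ)⁻¹ - ((k + S.sup id : ℕ) : ℝ)⁻¹ := sum_Ioc_inv_sq_le_sub (by omega) (by omega)
    _ ≤ (k : ℝ)⁻¹ := by
        have : (0 : ℝ) ≤ ((k + S.sup id : ℕ) : ℝ)⁻¹ := by positivity
        linarith
    _ ≤ 2 / w := by
        rw [inv_eq_one_div, div_le_div_iff₀ (by linarith) (by linarith)]
        linarith

/-- the gain is monotone under divisibility -/
theorem gain_le {a b : ℕ} (hb : b ≠ 0) (h : a ∣ b) :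
    (a : ℝ) / (∏ p ∈ a.primeFactors, p : ℕ) ≤ (b : ℝ) / (∏ p ∈ b.primeFactors, p : ℕ) := by
  obtain ⟨c, rfl⟩ := h
  have ha : a ≠ 0 := left_ne_zero_of_mul hb
  have hc : c ≠ 0 := right_ne_zero_of_mul hb
  have pos : ∀ m : ℕ, (0 : ℝ) < (∏ p ∈ m.primeFactors, p : ℕ) := by
    intro m
    have : 0 < ∏ p ∈ m.primeFactors, p :=
      prod_pos fun p hp => (Nat.prime_of_mem_primeFactors hp).pos
    exact_mod_cast this
  rw [div_le_div_iff₀ (pos _) (pos _)]
  have h1 : ∏ p ∈ (a * c).primeFactors, p ≤ (∏ p ∈ a.primeFactors, p) * c := by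
    have h2 : (a * c).primeFactors = a.primeFactors ∪ (c.primeFactors \ a.primeFactors) := by
      rw [Nat.primeFactors_mul ha hc, union_sdiff_self_eq_union]
    rw [h2, prod_union disjoint_sdiff]
    refine Nat.mul_le_mul_left _ ?_
    refine Nat.le_of_dvd (Nat.pos_of_ne_zero hc) ?_
    exact (prod_dvd_prod_of_subset _ _ _ sdiff_subset).trans (Nat.prod_primeFactors_dvd c)
  have h3 : ((∏ p ∈ (a * c).primeFactors, p : ℕ) : ℝ) ≤ (∏ p ∈ a.primeFactors, p : ℕ) * c := by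
    exact_mod_cast h1
  push_cast at h3 ⊢
  have ha0 : (0 : ℝ) ≤ a := by positivity
  nlinarith [mul_le_mul_of_nonneg_left h3 ha0]

/-- a tuple of pairwise coprime integers with sum zero -/
theorem exists_tuple (hn : 3 ≤ n) (l : Fin n) (hl : (l : ℕ) = 0) : ∃ c : Fin n → ℤ, c l = 3 ∧
    ∑ i, c i = 0 ∧ ∀ p : ℕ, p.Prime → ∀ i j, (p : ℤ) ∣ c i → (p : ℤ) ∣ c j → i = j := by
  have unit : ∀ p : ℕ, p.Prime → ∀ k : ℕ, ¬ (p : ℤ) ∣ (-1) ^ k := by
    intro p hp k h
    have h1 : IsUnit ((-1 : ℤ) ^ k) := (IsUnit.neg isUnit_one).pow k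
    exact (Nat.prime_iff_prime_int.1 hp).not_isUnit (isUnit_of_dvd_unit h h1)
  have unit1 : ∀ p : ℕ, p.Prime → ¬ (p : ℤ) ∣ -1 := by
    intro p hp h
    have := unit p hp 1
    rw [pow_one] at this
    exact this h
  rcases Nat.even_or_odd' n with ⟨m, hm | hm⟩
  · refine ⟨fun i => if (i : ℕ) = 0 then 3 else if (i : ℕ) = 2 then -1 else (-1) ^ (i : ℕ), ?_, ?_, ?_⟩
    · simp only [hl, if_true]
    · rw [Fin.sum_univ_eq_sum_range
        (fun i : ℕ => if i = 0 then (3 : ℤ) else if i = 2 then -1 else (-1) ^ i) n]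
      obtain ⟨k, rfl⟩ : ∃ k, m = k + 2 := ⟨m - 2, by omega⟩
      rw [hm]
      clear hm
      induction k with
      | zero => simp [sum_range_succ]
      | succ k ih =>
        have e : 2 * (k + 1 + 2) = 2 * (k + 2) + 1 + 1 := by ring
        rw [e, sum_range_succ, sum_range_succ, ih]
        have h1 : ¬ (2 * (k + 2) = 0) := by omega
        have h2 : ¬ (2 * (k + 2) = 2) := by omega
        have h3 : ¬ (2 * (k + 2) + 1 = 0) := by omega
        have h4 : ¬ (2 * (k + 2) + 1 = 2) := by omega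
        simp only [h1, h2, h3, h4, if_false]
        rw [pow_succ]
        ring
    · intro p hp i j hi hj
      have key : ∀ k : Fin n, (p : ℤ) ∣ (if (k : ℕ) = 0 then 3 else if (k : ℕ) = 2 then -1 else
          (-1) ^ (k : ℕ)) → (k : ℕ) = 0 := by
        intro k hk
        by_contra h0
        simp only [h0, if_false] at hk
        split_ifs at hk with h
        · exact unit1 p hp hk
        · exact unit p hp _ hk
      exact Fin.ext ((key i hi).trans (key j hj).symm)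
  · refine ⟨fun i => if (i : ℕ) = 0 then 3 else if (i : ℕ) = 1 then -2 else (-1) ^ ((i : ℕ) + 1),
      ?_, ?_, ?_⟩
    · simp only [hl, if_true]
    · rw [Fin.sum_univ_eq_sum_range
        (fun i : ℕ => if i = 0 then (3 : ℤ) else if i = 1 then -2 else (-1) ^ (i + 1)) n]
      obtain ⟨k, rfl⟩ : ∃ k, m = k + 1 := ⟨m - 1, by omega⟩
      rw [hm]
      clear hm
      induction k with
      | zero => simp [sum_range_succ]
      | succ k ih =>
        have e : 2 * (k + 1 + 1) + 1 = 2 * (k + 1) + 1 + 1 + 1 := by ring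
        rw [e, sum_range_succ, sum_range_succ, ih]
        have h1 : ¬ (2 * (k + 1) + 1 = 0) := by omega
        have h2 : ¬ (2 * (k + 1) + 1 = 1) := by omega
        have h3 : ¬ (2 * (k + 1) + 1 + 1 = 0) := by omega
        have h4 : ¬ (2 * (k + 1) + 1 + 1 = 1) := by omega
        simp only [h1, h2, h3, h4, if_false]
        rw [pow_succ _ (2 * (k + 1) + 1 + 1)]
        ring
    · intro p hp i j hi hj
      have key : ∀ k : Fin n, (p : ℤ) ∣ (if (k : ℕ) = 0 then 3 else if (k : ℕ) = 1 then -2 else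
          (-1) ^ ((k : ℕ) + 1)) → ((k : ℕ) = 0 ∧ (p : ℤ) ∣ 3) ∨ ((k : ℕ) = 1 ∧ (p : ℤ) ∣ -2) := by
        intro k hk
        split_ifs at hk with h h'
        · exact Or.inl ⟨h, hk⟩
        · exact Or.inr ⟨h', hk⟩
        · exact absurd hk (unit p hp _)
      have h32 : ¬ ((p : ℤ) ∣ 3 ∧ (p : ℤ) ∣ -2) := by
        rintro ⟨h1, h2⟩
        have h3 := dvd_add h1 h2
        norm_num at h3
        have := unit p hp 0
        rw [pow_zero] at this
        exact this h3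
      rcases key i hi with ⟨h1, h2⟩ | ⟨h1, h2⟩ <;> rcases key j hj with ⟨h3, h4⟩ | ⟨h3, h4⟩
      · exact Fin.ext (h1.trans h3.symm)
      · exact absurd ⟨h2, h4⟩ h32
      · exact absurd ⟨h4, h2⟩ h32
      · exact Fin.ext (h1.trans h3.symm)

/-! ### The moduli -/

/-- the parameters -/
structure Par (n r : ℕ) (l : Fin n) (C₁ K : ℕ) (D : Fin n → ℕ) : Prop where
  hr1 : 1 ≤ r
  hr : r + 2 ≤ n
  C3 : 3 ≤ C₁
  Kpos : 1 ≤ K
  Kp : ∀ q : ℕ, q.Prime → (q ∣ K ↔ q ≤ C₁ ∧ q ≠ 3)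
  tp : Tp (Dl n r) D
  big : ∀ p : ℕ, p.Prime → p ∣ pr D → C₁ < p

/-- cofactors -/
def hh (l : Fin n) (j K : ℕ) (k : Fin n) : ℕ := if k = l then 3 ^ j else K

/-- the moduli -/
def DD (l : Fin n) (j K : ℕ) (D : Fin n → ℕ) (k : Fin n) : ℕ := 3 * (hh l j K k * D k)

/-- the common multiple -/
def MM (j K : ℕ) (D : Fin n → ℕ) : ℕ := 3 ^ (j + 1) * K * pr D

theorem dvd_pr (D : Fin n → ℕ) (k : Fin n) : D k ∣ pr D := dvd_prod_of_mem D (mem_univ k)

section

variable {r : ℕ} {l : Fin n} {C₁ K : ℕ} {D : Fin n → ℕ}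

theorem pr_pos (P : Par n r l C₁ K D) : 1 ≤ pr D := by
  show 0 < ∏ i, D i
  exact prod_pos fun k _ => P.tp.1 k

theorem hh_pos (P : Par n r l C₁ K D) (j : ℕ) (k : Fin n) : 1 ≤ hh l j K k := by
  unfold hh
  split_ifs
  · exact Nat.one_le_pow _ _ (by norm_num)
  · exact P.Kpos

theorem hh_nd (P : Par n r l C₁ K D) (j : ℕ) (k : Fin n) {q : ℕ} (hq : q.Prime) (h : C₁ < q) :
    ¬ q ∣ hh l j K k := by
  have h3 := P.C3
  unfold hh
  split_ifs
  · intro h1
    have h2 := (Nat.prime_dvd_prime_iff_eq hq Nat.prime_three).1 (hq.dvd_of_dvd_pow h1)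
    omega
  · intro h1
    have := ((P.Kp q hq).1 h1).1
    omega

theorem DD_pos (P : Par n r l C₁ K D) (j : ℕ) (k : Fin n) : 1 ≤ DD l j K D k :=
  Nat.mul_pos (by norm_num) (Nat.mul_pos (hh_pos P j k) (P.tp.1 k))

theorem MM_pos (P : Par n r l C₁ K D) (j : ℕ) : 1 ≤ MM j K D :=
  Nat.mul_pos (Nat.mul_pos (by positivity) P.Kpos) (pr_pos P)

theorem DD_dvd (j : ℕ) (k : Fin n) : DD l j K D k ∣ MM j K D := by
  unfold DD MM hh
  obtain ⟨m, hm⟩ := dvd_pr D k
  rw [hm]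
  split_ifs
  · exact ⟨K * m, by ring⟩
  · exact ⟨3 ^ j * m, by ring⟩

theorem prod_DD (j : ℕ) : ∏ k, DD l j K D k = 3 ^ n * (3 ^ j * K ^ (n - 1)) * pr D := by
  unfold DD
  rw [prod_mul_distrib, prod_mul_distrib, prod_const, card_univ, Fintype.card_fin]
  have h1 : ∏ k, hh l j K k = 3 ^ j * K ^ (n - 1) := by
    rw [← Finset.mul_prod_erase univ _ (mem_univ l)]
    congr 1
    · unfold hh
      rw [if_pos rfl]
    · rw [← card_er l, ← prod_const]
      refine prod_congr rfl fun k hk => ?_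
      unfold hh
      rw [if_neg (ne_of_mem_erase hk)]
  rw [h1]
  unfold pr
  ring

theorem gcdE (P : Par n r l C₁ K D) (j : ℕ) (f : Fin n → ℕ)
    (hf3 : ∀ q : ℕ, q.Prime → q ≤ C₁ → ∀ k, ¬ q ∣ f k)
    (hf : ∀ q : ℕ, q.Prime → C₁ < q → ∃ k, ¬ q ∣ D k * f k) :
    univ.gcd (fun k => 3 * (hh l j K k * D k * f k)) = 3 := by
  have h3 := P.C3
  have h1 : univ.gcd (fun k => hh l j K k * D k * f k) = 1 := by
    by_contra hne
    obtain ⟨q, hq, hqd⟩ := Nat.exists_prime_and_dvd hne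
    have hall : ∀ k, q ∣ hh l j K k * D k * f k := fun k => hqd.trans (Finset.gcd_dvd (mem_univ k))
    by_cases hqC : q ≤ C₁
    · have hD : ∀ k, ¬ q ∣ D k := fun k h => by
        have := P.big q hq (h.trans (dvd_pr D k))
        omega
      have hh' : ∀ k, q ∣ hh l j K k := fun k => by
        rcases hq.dvd_mul.1 (hall k) with h | h
        · rcases hq.dvd_mul.1 h with h | h
          · exact h
          · exact absurd h (hD k)
        · exact absurd h (hf3 q hq hqC k)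
      by_cases hq3 : q = 3
      · have hn : 3 ≤ n := by have := P.hr; have := P.hr1; omega
        obtain ⟨k, hk⟩ : ∃ k : Fin n, k ≠ l := by
          have : Nontrivial (Fin n) := Fin.nontrivial_iff_two_le.2 (by omega)
          exact exists_ne l
        have h4 := hh' k
        unfold hh at h4
        rw [if_neg hk] at h4
        exact ((P.Kp q hq).1 h4).2 hq3
      · have h4 := hh' l
        unfold hh at h4
        rw [if_pos rfl] at h4
        exact hq3 ((Nat.prime_dvd_prime_iff_eq hq Nat.prime_three).1 (hq.dvd_of_dvd_pow h4))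
    · push Not at hqC
      obtain ⟨k, hk⟩ := hf q hq hqC
      have h4 := hall k
      rw [mul_assoc] at h4
      rcases hq.dvd_mul.1 h4 with h | h
      · exact hh_nd P j k hq hqC h
      · exact hk h
  rw [Finset.gcd_mul_left, h1, mul_one]
  rfl

theorem ex_nd (P : Par n r l C₁ K D) {q : ℕ} (hq : q.Prime) (i : Fin n) :
    ∃ k, k ≠ i ∧ ¬ q ∣ D k := by
  classical
  by_contra hcon
  push Not at hcon
  have h1 := P.tp.2 q hq
  unfold Dl at h1
  rw [mem_filter] at h1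
  have h2 : univ.erase i ⊆ univ.filter (fun k => q ∣ D k) := fun k hk =>
    mem_filter.2 ⟨mem_univ _, hcon k (ne_of_mem_erase hk)⟩
  have h3 := card_le_card h2
  rw [card_er] at h3
  have h4 := h1.2
  have h5 := P.hr
  have h6 : (univ.filter (fun k => q ∣ D k)).card ≤ r := by convert h4
  omega

theorem rem (hB : S_BOX) (P : Par n r l C₁ K D) {j : ℕ} {Y : ℝ} (hY : 0 < Y) {p m : ℕ}
    (hp : p.Prime) (hpC : C₁ < p) (hm : m = p ∨ m = p ^ 2) {I : Finset (Fin n)}
    (hI : ∃ k, k ∉ I ∧ ¬ p ∣ D k) (h4 : 4 * ((MM j K D * m : ℕ) : ℝ) ≤ Y)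
    {S : Finset (Fin n → ℤ)} (hS : ∀ x ∈ S, x ∈ Bx n Y l)
    (hSD : ∀ x ∈ S, ∀ y ∈ S, ∀ k, (DD l j K D k : ℤ) ∣ x k - y k)
    (hSm : ∀ x ∈ S, ∀ y ∈ S, ∀ k ∈ I, ((DD l j K D k * m : ℕ) : ℤ) ∣ x k - y k) :
    (S.card : ℝ) ≤ 3 * Y ^ (n - 1) / ((∏ k, DD l j K D k : ℕ) * (m : ℝ) ^ I.card) := by
  classical
  have hm0 : 1 ≤ m := by
    rcases hm with rfl | rfl
    · exact hp.one_le
    · exact Nat.one_le_pow _ _ hp.pos
  obtain ⟨f, hf⟩ : ∃ f : Fin n → ℕ, f = fun k => if k ∈ I then m else 1 := ⟨_, rfl⟩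
  have hfq : ∀ q : ℕ, q.Prime → ∀ k, q ∣ f k → q = p := by
    intro q hq k hk
    rw [hf] at hk
    simp only at hk
    split_ifs at hk
    · rcases hm with rfl | rfl
      · exact (Nat.prime_dvd_prime_iff_eq hq hp).1 hk
      · exact (Nat.prime_dvd_prime_iff_eq hq hp).1 (hq.dvd_of_dvd_pow hk)
    · exact absurd hk hq.not_dvd_one
  have hE : ∀ k, DD l j K D k * f k = 3 * (hh l j K k * D k * f k) := by
    intro k
    unfold DD
    ring
  have hg : univ.gcd (fun k => DD l j K D k * f k) = 3 := by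
    simp only [hE]
    refine gcdE P j f (fun q hq hqC k h => ?_) (fun q hq hqC => ?_)
    · have := hfq q hq k h
      omega
    · by_cases hqp : q = p
      · subst hqp
        obtain ⟨k, hk1, hk2⟩ := hI
        refine ⟨k, ?_⟩
        rw [hf]
        simp only [hk1, if_false, mul_one]
        exact hk2
      · obtain ⟨k, -, hk⟩ := ex_nd P hq l
        refine ⟨k, fun h => ?_⟩
        rcases hq.dvd_mul.1 h with h | h
        · exact hk h
        · exact hqp (hfq q hq k h)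
  have hprod : ∏ k, DD l j K D k * f k = (∏ k, DD l j K D k) * m ^ I.card := by
    rw [prod_mul_distrib, hf, prod_ite_mem, univ_inter, prod_const]
  have h5 := up hB hY (E := fun k => DD l j K D k * f k) (M := MM j K D * m)
    (Nat.mul_pos (MM_pos P j) hm0) h4 (fun k => ⟨Nat.mul_pos (DD_pos P j k) ?_, ?_⟩) hS ?_
  · rw [hg, hprod] at h5
    refine h5.trans (le_of_eq ?_)
    push_cast
    ring
  · rw [hf]
    simp only
    split_ifs
    · exact hm0
    · exact Nat.one_pos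
  · refine Nat.mul_dvd_mul (DD_dvd j k) ?_
    rw [hf]
    simp only
    split_ifs
    · exact dvd_rfl
    · exact one_dvd _
  · intro x hx y hy k
    rw [hf]
    by_cases hk : k ∈ I
    · simp only [hk, if_true]
      exact hSm x hx y hy k hk
    · simp only [hk, if_false, mul_one]
      exact hSD x hx y hy k

/-! ### The main set -/

theorem cop_of (P : Par n r l C₁ K D) (k : Fin n) : (3 * K).Coprime (D k) := by
  rw [Nat.coprime_iff_gcd_eq_one]
  by_contra hne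
  obtain ⟨q, hq, hqd⟩ := Nat.exists_prime_and_dvd hne
  have h1 := P.big q hq ((hqd.trans (Nat.gcd_dvd_right _ _)).trans (dvd_pr D k))
  have h3 := P.C3
  rcases hq.dvd_mul.1 (hqd.trans (Nat.gcd_dvd_left _ _)) with h | h
  · have := (Nat.prime_dvd_prime_iff_eq hq Nat.prime_three).1 h
    omega
  · have := ((P.Kp q hq).1 h).1
    omega

/-- the residues -/
theorem exists_res (P : Par n r l C₁ K D) {c : Fin n → ℤ} (hcl : c l = 3) (hc : ∑ i, c i = 0) :
    ∃ c' : Fin n → ℤ, c' l = 0 ∧ (∀ k, k ≠ l → (D k : ℤ) ∣ c' k ∧ ((3 * K : ℕ) : ℤ) ∣ c' k - c k) ∧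
      (3 : ℤ) ∣ ∑ k, c' k := by
  classical
  have h1 : ∀ k, ∃ v : ℤ, (D k : ℤ) ∣ v ∧ ((3 * K : ℕ) : ℤ) ∣ v - c k := by
    intro k
    obtain ⟨a, b, hab⟩ := Nat.isCoprime_iff_coprime.2 (cop_of P k)
    refine ⟨b * D k * c k, ⟨b * c k, by ring⟩, ⟨-(a * c k), ?_⟩⟩
    linear_combination (c k) * hab
  choose v hv using h1
  refine ⟨fun k => if k = l then 0 else v k, by simp, fun k hk => ?_, ?_⟩
  · simp only [hk, if_false]
    exact hv k
  · rw [← Finset.add_sum_erase univ _ (mem_univ l)]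
    have h2 : ∑ k ∈ univ.erase l, (if k = l then 0 else v k) =
        ∑ k ∈ univ.erase l, (v k - c k) + ∑ k ∈ univ.erase l, c k := by
      rw [← sum_add_distrib]
      refine sum_congr rfl fun k hk => ?_
      rw [if_neg (ne_of_mem_erase hk)]
      ring
    have h3 : ∑ k ∈ univ.erase l, c k = -3 := by
      have := Finset.add_sum_erase univ c (mem_univ l)
      linarith
    rw [h2, h3, if_pos rfl, zero_add]
    refine dvd_add (dvd_sum fun k _ => ?_) ⟨-1, by norm_num⟩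
    refine dvd_trans ?_ (hv k).2
    push_cast
    exact dvd_mul_right _ _

open scoped Classical in
/-- the main set -/
noncomputable def AA (Y : ℝ) (l : Fin n) (j K : ℕ) (D : Fin n → ℕ) (c' : Fin n → ℤ) :
    Finset (Fin n → ℤ) :=
  (Bx n Y l).filter (fun y => ∀ i, (DD l j K D i : ℤ) ∣ y i - c' i)

theorem card_AA (hB : S_BOX) (P : Par n r l C₁ K D) {j : ℕ} {Y : ℝ} (hY : 0 < Y)
    (h4 : 4 * (MM j K D : ℝ) ≤ Y) {c' : Fin n → ℤ} (hc : (3 : ℤ) ∣ ∑ k, c' k) :
    (Y / 4) ^ (n - 1) * 3 / (∏ k, DD l j K D k : ℕ) ≤ (AA Y l j K D c').card := by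
  classical
  have hg : univ.gcd (DD l j K D) = 3 := by
    have h1 := gcdE P j (fun _ => 1) (fun q hq _ k h => hq.not_dvd_one h) (fun q hq _ => by
      obtain ⟨k, -, hk⟩ := ex_nd P hq l
      exact ⟨k, by rwa [mul_one]⟩)
    simp only [mul_one] at h1
    exact h1
  have h1 := hB n (DD l j K D) c' (MM j K D) l Y (AA Y l j K D c') (MM_pos P j) h4
    (fun i => ⟨DD_pos P j i, DD_dvd j i⟩) (by rw [hg]; exact_mod_cast hc) (by
      intro y
      unfold AA
      rw [mem_filter, mem_Bx hY]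
      tauto)
  rw [hg] at h1
  exact_mod_cast h1.1

theorem AA_diff {j : ℕ} {Y : ℝ} {c' : Fin n → ℤ} {x y : Fin n → ℤ} (hx : x ∈ AA Y l j K D c')
    (hy : y ∈ AA Y l j K D c') (k : Fin n) : (DD l j K D k : ℤ) ∣ x k - y k := by
  unfold AA at hx hy
  have h1 := (mem_filter.1 hx).2 k
  have h2 := (mem_filter.1 hy).2 k
  have h3 := dvd_sub h1 h2
  have e : x k - c' k - (y k - c' k) = x k - y k := by ring
  rwa [e] at h3

theorem AA_dvd {j : ℕ} {Y : ℝ} {c' c : Fin n → ℤ} (h0 : c' l = 0)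
    (hc' : ∀ k, k ≠ l → (D k : ℤ) ∣ c' k ∧ ((3 * K : ℕ) : ℤ) ∣ c' k - c k) {x : Fin n → ℤ}
    (hx : x ∈ AA Y l j K D c') : ((3 ^ (j + 1) * D l : ℕ) : ℤ) ∣ x l ∧ ∀ k, (D k : ℤ) ∣ x k := by
  unfold AA at hx
  have h1 := (mem_filter.1 hx).2
  have h2 : ((3 ^ (j + 1) * D l : ℕ) : ℤ) ∣ x l := by
    have h3 := h1 l
    rw [h0, sub_zero] at h3
    have e : DD l j K D l = 3 ^ (j + 1) * D l := by
      unfold DD hh
      rw [if_pos rfl]
      ring
    rwa [e] at h3
  refine ⟨h2, fun k => ?_⟩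
  by_cases hk : k = l
  · subst hk
    refine dvd_trans ?_ h2
    push_cast
    exact dvd_mul_left _ _
  · have h3 : (D k : ℤ) ∣ x k - c' k := by
      refine dvd_trans ?_ (h1 k)
      unfold DD
      push_cast
      exact ⟨3 * hh l j K k, by ring⟩
    have h4 := dvd_add h3 (hc' k hk).1
    rwa [sub_add_cancel] at h4

theorem AA_res {j : ℕ} {Y : ℝ} (hY : 0 < Y) {c' c : Fin n → ℤ} (hcs : ∑ i, c i = 0)
    (hc' : ∀ k, k ≠ l → (D k : ℤ) ∣ c' k ∧ ((3 * K : ℕ) : ℤ) ∣ c' k - c k) {x : Fin n → ℤ}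
    (hx : x ∈ AA Y l j K D c') (k : Fin n) : ((3 * K : ℕ) : ℤ) ∣ x k - c k := by
  classical
  have hx' := hx
  unfold AA at hx'
  have h1 := (mem_filter.1 hx').2
  have hs := ((mem_Bx hY).1 (mem_filter.1 hx').1).1
  have h2 : ∀ k, k ≠ l → ((3 * K : ℕ) : ℤ) ∣ x k - c k := by
    intro k hk
    have h3 : ((3 * K : ℕ) : ℤ) ∣ x k - c' k := by
      refine dvd_trans ?_ (h1 k)
      unfold DD hh
      rw [if_neg hk]
      push_cast
      exact ⟨D k, by ring⟩
    have h4 := dvd_add h3 (hc' k hk).2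
    rwa [sub_add_sub_cancel] at h4
  by_cases hk : k = l
  · subst hk
    have h3 : x k - c k = -∑ i ∈ univ.erase k, (x i - c i) := by
      rw [sum_sub_distrib, at_l hs, at_l hcs]
      ring
    rw [h3]
    exact (dvd_neg).2 (dvd_sum fun i hi => h2 i (ne_of_mem_erase hi))
  · exact h2 k hk

end

/-- signs, subsums -/
theorem nv_of {Y : ℝ} (hY : 0 < Y) {l : Fin n} {x : Fin n → ℤ} (hx : x ∈ Bx n Y l) : NV x := by
  classical
  obtain ⟨hs, hk⟩ := (mem_Bx hY).1 hx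
  have hpos : ∀ k, k ≠ l → 0 < x k := by
    intro k hkl
    have := (hk k hkl).1
    have h1 : (0 : ℝ) < x k := by linarith
    exact_mod_cast h1
  intro I hI hIu h0
  by_cases hl : l ∈ I
  · have h1 : ∑ i ∈ Iᶜ, x i = 0 := by
      have := Finset.sum_add_sum_compl I x
      linarith
    have h2 : (Iᶜ).Nonempty := by
      rw [Finset.nonempty_iff_ne_empty]
      intro h
      exact hIu ((Finset.compl_eq_empty_iff I).1 h)
    have h3 : 0 < ∑ i ∈ Iᶜ, x i := sum_pos (fun i hi => hpos i (fun h => by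
      rw [h] at hi
      exact (mem_compl.1 hi) hl)) h2
    omega
  · have h3 : 0 < ∑ i ∈ I, x i := sum_pos (fun i hi => hpos i (fun h => by
      rw [h] at hi
      exact hl hi)) hI
    omega

theorem three_cop {t D a p : ℤ} (hD : D ≠ 0) (hap : IsCoprime a p) (h1 : a * D ∣ t)
    (h2 : p * D ∣ t) : a * D * p ∣ t := by
  obtain ⟨s, rfl⟩ := h2
  have h3 : a ∣ p * s := by
    have : D * a ∣ D * (p * s) := by
      rw [mul_comm D a]
      refine h1.trans (dvd_of_eq (by ring))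
    exact (mul_dvd_mul_iff_left hD).1 this
  obtain ⟨u, rfl⟩ := hap.dvd_of_dvd_mul_left h3
  exact ⟨u, by ring⟩

section

variable {r : ℕ} {l : Fin n} {C₁ K : ℕ} {D : Fin n → ℕ}

theorem n3 (P : Par n r l C₁ K D) : 3 ≤ n := by
  have := P.hr
  have := P.hr1
  omega

theorem cop_hh (P : Par n r l C₁ K D) (j : ℕ) (k : Fin n) {p : ℕ} (hp : p.Prime) (hpC : C₁ < p) :
    IsCoprime ((3 * hh l j K k : ℕ) : ℤ) (p : ℤ) := by
  rw [Nat.isCoprime_iff_coprime, Nat.coprime_comm, hp.coprime_iff_not_dvd]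
  intro h
  rcases hp.dvd_mul.1 h with h | h
  · have := (Nat.prime_dvd_prime_iff_eq hp Nat.prime_three).1 h
    have := P.C3
    omega
  · exact hh_nd P j k hp hpC h

theorem cop_DD (P : Par n r l C₁ K D) (j : ℕ) (k : Fin n) {p : ℕ} (hp : p.Prime) (hpC : C₁ < p)
    (hpD : ¬ p ∣ pr D) : IsCoprime ((DD l j K D k : ℕ) : ℤ) (p : ℤ) := by
  have e : ((DD l j K D k : ℕ) : ℤ) = ((3 * hh l j K k : ℕ) : ℤ) * (D k : ℤ) := by
    unfold DD
    push_cast
    ring
  rw [e]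
  refine IsCoprime.mul_left (cop_hh P j k hp hpC) ?_
  rw [Nat.isCoprime_iff_coprime, Nat.coprime_comm, hp.coprime_iff_not_dvd]
  exact fun h => hpD (h.trans (dvd_pr D k))

open scoped Classical in
theorem b1 (hB : S_BOX) (P : Par n r l C₁ K D) {j : ℕ} {Y : ℝ} (hY : 0 < Y) {c' : Fin n → ℤ}
    {p : ℕ} (hp : p.Prime) (hpD : p ∣ pr D) (h4 : 4 * ((MM j K D * p : ℕ) : ℝ) ≤ Y) (i : Fin n) :
    (((AA Y l j K D c').filter (fun x => ((p * D i : ℕ) : ℤ) ∣ x i)).card : ℝ) ≤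
      3 * Y ^ (n - 1) / (∏ k, DD l j K D k : ℕ) * (1 / p) := by
  have hpC := P.big p hp hpD
  have hpr : (0 : ℝ) < p := by exact_mod_cast hp.pos
  have h1 := rem hB P (j := j) hY hp hpC (Or.inl rfl) (I := {i}) (by
    obtain ⟨k, hk, hk'⟩ := ex_nd P hp i
    exact ⟨k, by rwa [mem_singleton], hk'⟩) h4
    (S := (AA Y l j K D c').filter (fun x => ((p * D i : ℕ) : ℤ) ∣ x i))
    (fun x hx => by
      have h2 := (mem_filter.1 hx).1
      unfold AA at h2
      exact (mem_filter.1 h2).1)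
    (fun x hx y hy k => AA_diff (mem_filter.1 hx).1 (mem_filter.1 hy).1 k)
    (fun x hx y hy k hk => by
      rw [mem_singleton] at hk
      subst hk
      have h2 := AA_diff (mem_filter.1 hx).1 (mem_filter.1 hy).1 k
      have h3 := dvd_sub (mem_filter.1 hx).2 (mem_filter.1 hy).2
      have e1 : ((DD l j K D k * p : ℕ) : ℤ) = ((3 * hh l j K k : ℕ) : ℤ) * (D k : ℤ) * (p : ℤ) := by
        unfold DD
        push_cast
        ring
      rw [e1]
      refine three_cop ?_ (cop_hh P j k hp hpC) ?_ ?_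
      · have := P.tp.1 k
        have : D k ≠ 0 := by omega
        exact_mod_cast this
      · refine dvd_trans (dvd_of_eq ?_) h2
        unfold DD
        push_cast
        ring
      · push_cast at h3
        exact h3)
  rw [card_singleton, pow_one] at h1
  refine h1.trans (le_of_eq ?_)
  field_simp

open scoped Classical in
theorem b2 (hB : S_BOX) (P : Par n r l C₁ K D) {j : ℕ} {Y : ℝ} (hY : 0 < Y) {c' : Fin n → ℤ}
    {p : ℕ} (hp : p.Prime) (hpC : C₁ < p) (hpD : ¬ p ∣ pr D)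
    (h4 : 4 * ((MM j K D * p : ℕ) : ℝ) ≤ Y) {i k : Fin n} (hik : i ≠ k) :
    (((AA Y l j K D c').filter (fun x => (p : ℤ) ∣ x i ∧ (p : ℤ) ∣ x k)).card : ℝ) ≤
      3 * Y ^ (n - 1) / (∏ k, DD l j K D k : ℕ) * (1 / (p : ℝ) ^ 2) := by
  have hpr : (0 : ℝ) < p := by exact_mod_cast hp.pos
  have h1 := rem hB P (j := j) hY hp hpC (Or.inl rfl) (I := {i, k}) (by
    by_contra hcon
    push Not at hcon
    have h3 : (univ : Finset (Fin n)) ⊆ {i, k} := fun m _ => by
      by_contra hm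
      exact hpD ((hcon m hm).trans (dvd_pr D m))
    have h4 := card_le_card h3
    rw [card_univ, Fintype.card_fin] at h4
    have h5 : ({i, k} : Finset (Fin n)).card ≤ 2 := card_le_two
    have := n3 P
    omega) h4
    (S := (AA Y l j K D c').filter (fun x => (p : ℤ) ∣ x i ∧ (p : ℤ) ∣ x k))
    (fun x hx => by
      have h2 := (mem_filter.1 hx).1
      unfold AA at h2
      exact (mem_filter.1 h2).1)
    (fun x hx y hy m => AA_diff (mem_filter.1 hx).1 (mem_filter.1 hy).1 m)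
    (fun x hx y hy m hm => by
      have h2 := AA_diff (mem_filter.1 hx).1 (mem_filter.1 hy).1 m
      have h5 : (p : ℤ) ∣ x m - y m := by
        rw [mem_insert, mem_singleton] at hm
        rcases hm with rfl | rfl
        · exact dvd_sub (mem_filter.1 hx).2.1 (mem_filter.1 hy).2.1
        · exact dvd_sub (mem_filter.1 hx).2.2 (mem_filter.1 hy).2.2
      rw [Nat.cast_mul]
      exact (cop_DD P j m hp hpC hpD).mul_dvd h2 h5)
  rw [card_pair hik] at h1
  refine h1.trans (le_of_eq ?_)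
  field_simp

open scoped Classical in
theorem b3 (hB : S_BOX) (P : Par n r l C₁ K D) {j : ℕ} {Y : ℝ} (hY : 0 < Y) {c' : Fin n → ℤ}
    {p : ℕ} (hp : p.Prime) (hpC : C₁ < p) (hpD : ¬ p ∣ pr D)
    (h4 : 4 * ((MM j K D * p ^ 2 : ℕ) : ℝ) ≤ Y) (i : Fin n) :
    (((AA Y l j K D c').filter (fun x => (p : ℤ) ^ 2 ∣ x i)).card : ℝ) ≤
      3 * Y ^ (n - 1) / (∏ k, DD l j K D k : ℕ) * (1 / (p : ℝ) ^ 2) := by
  have hpr : (0 : ℝ) < p := by exact_mod_cast hp.pos
  have h1 := rem hB P (j := j) hY hp hpC (Or.inr rfl) (I := {i}) (by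
    obtain ⟨k, hk, hk'⟩ := ex_nd P hp i
    exact ⟨k, by rwa [mem_singleton], hk'⟩) h4
    (S := (AA Y l j K D c').filter (fun x => (p : ℤ) ^ 2 ∣ x i))
    (fun x hx => by
      have h2 := (mem_filter.1 hx).1
      unfold AA at h2
      exact (mem_filter.1 h2).1)
    (fun x hx y hy m => AA_diff (mem_filter.1 hx).1 (mem_filter.1 hy).1 m)
    (fun x hx y hy m hm => by
      rw [mem_singleton] at hm
      subst hm
      have h2 := AA_diff (mem_filter.1 hx).1 (mem_filter.1 hy).1 m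
      have h5 := dvd_sub (mem_filter.1 hx).2 (mem_filter.1 hy).2
      rw [Nat.cast_mul, Nat.cast_pow]
      exact ((cop_DD P j m hp hpC hpD).pow_right).mul_dvd h2 h5)
  rw [card_singleton, pow_one] at h1
  refine h1.trans (le_of_eq ?_)
  push_cast
  field_simp

open scoped Classical in
/-- the good members of the main set -/
noncomputable def GG (Y Q : ℝ) (l : Fin n) (j K : ℕ) (D : Fin n → ℕ) (c' : Fin n → ℤ)
    (T : Finset ℕ) : Finset (Fin n → ℤ) :=
  (AA Y l j K D c').filter (fun x =>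
    (∀ p ∈ (pr D).primeFactors, ∀ i, ¬ ((p * D i : ℕ) : ℤ) ∣ x i) ∧
    (∀ p ∈ T, ∀ i k, i ≠ k → ¬ ((p : ℤ) ∣ x i ∧ (p : ℤ) ∣ x k)) ∧
    ∀ p ∈ T, (p : ℝ) ≤ Q → ∀ i, ¬ (p : ℤ) ^ 2 ∣ x i)

theorem sieve (hB : S_BOX) (P : Par n r l C₁ K D) {j : ℕ} {Y Q : ℝ} (hY : 2 ≤ Y) (hQ : 1 ≤ Q)
    (h4 : 4 * (MM j K D : ℝ) * Q ^ 2 ≤ Y) (hDQ : ∀ p ∈ (pr D).primeFactors, (p : ℝ) ≤ Q)
    {c' : Fin n → ℤ} (hc : (3 : ℤ) ∣ ∑ k, c' k) (T : Finset ℕ)
    (hT : ∀ p ∈ T, p.Prime ∧ C₁ < p ∧ ¬ p ∣ pr D) :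
    (Y / 4) ^ (n - 1) * 3 / (∏ k, DD l j K D k : ℕ) ≤ (GG Y Q l j K D c' T).card +
      (n * (3 * Y ^ (n - 1) / (∏ k, DD l j K D k : ℕ)) * ∑ p ∈ (pr D).primeFactors, (1 : ℝ) / p +
      (n : ℝ) ^ 2 * (3 * Y ^ (n - 1) / (∏ k, DD l j K D k : ℕ) * (2 / C₁) +
        32 * (MM j K D : ℝ) * Y ^ (n - 1) / Y) +
      n * (3 * Y ^ (n - 1) / (∏ k, DD l j K D k : ℕ) * (2 / C₁))) := by
  classical
  have hY0 : 0 < Y := by linarith
  have hM1 : (1 : ℝ) ≤ MM j K D := by exact_mod_cast MM_pos P j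
  have hQ2 : 1 ≤ Q ^ 2 := one_le_pow₀ hQ
  have hQQ : Q ≤ Q ^ 2 := by nlinarith
  have h40 : 4 * (MM j K D : ℝ) ≤ Y := by nlinarith
  have hCr : (1 : ℝ) ≤ C₁ := by
    have := P.C3
    have : 1 ≤ C₁ := by omega
    exact_mod_cast this
  obtain ⟨W, hW⟩ : ∃ W : ℝ, W = 3 * Y ^ (n - 1) / (∏ k, DD l j K D k : ℕ) := ⟨_, rfl⟩
  have hW0 : 0 ≤ W := by rw [hW]; positivity
  obtain ⟨A, hA⟩ : ∃ A, A = AA Y l j K D c' := ⟨_, rfl⟩
  have hAB : ∀ x ∈ A, x ∈ Bx n Y l := by
    intro x hx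
    rw [hA] at hx
    unfold AA at hx
    exact (mem_filter.1 hx).1
  obtain ⟨B1, hB1⟩ : ∃ B1 : Finset (Fin n → ℤ), B1 = (pr D).primeFactors.biUnion fun p =>
    (univ : Finset (Fin n)).biUnion fun i => A.filter (fun x => ((p * D i : ℕ) : ℤ) ∣ x i) := ⟨_, rfl⟩
  obtain ⟨B2, hB2⟩ : ∃ B2 : Finset (Fin n → ℤ), B2 = T.biUnion fun p =>
    ((univ : Finset (Fin n)).offDiag).biUnion fun q =>
      A.filter (fun x => (p : ℤ) ∣ x q.1 ∧ (p : ℤ) ∣ x q.2) := ⟨_, rfl⟩
  obtain ⟨B3, hB3⟩ : ∃ B3 : Finset (Fin n → ℤ), B3 = (T.filter (fun p : ℕ => (p : ℝ) ≤ Q)).biUnion fun p =>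
    (univ : Finset (Fin n)).biUnion fun i => A.filter (fun x => (p : ℤ) ^ 2 ∣ x i) := ⟨_, rfl⟩
  have hsub : A ⊆ GG Y Q l j K D c' T ∪ (B1 ∪ (B2 ∪ B3)) := by
    intro x hx
    by_cases h1 : x ∈ GG Y Q l j K D c' T
    · exact mem_union_left _ h1
    · refine mem_union_right _ ?_
      unfold GG at h1
      rw [← hA, mem_filter, not_and] at h1
      have h2 := h1 hx
      by_cases g1 : ∀ p ∈ (pr D).primeFactors, ∀ i, ¬ ((p * D i : ℕ) : ℤ) ∣ x i
      · refine mem_union_right _ ?_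
        by_cases g2 : ∀ p ∈ T, ∀ i k, i ≠ k → ¬ ((p : ℤ) ∣ x i ∧ (p : ℤ) ∣ x k)
        · refine mem_union_right _ ?_
          have g3 : ¬ ∀ p ∈ T, (p : ℝ) ≤ Q → ∀ i, ¬ (p : ℤ) ^ 2 ∣ x i := fun h => h2 ⟨g1, g2, h⟩
          push Not at g3
          obtain ⟨p, hp, hpQ, i, hi⟩ := g3
          rw [hB3, mem_biUnion]
          exact ⟨p, mem_filter.2 ⟨hp, hpQ⟩, mem_biUnion.2 ⟨i, mem_univ _, mem_filter.2 ⟨hx, hi⟩⟩⟩
        · refine mem_union_left _ ?_
          push Not at g2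
          obtain ⟨p, hp, i, k, hik, hi⟩ := g2
          rw [hB2, mem_biUnion]
          exact ⟨p, hp, mem_biUnion.2 ⟨(i, k), mem_offDiag.2 ⟨mem_univ _, mem_univ _, hik⟩,
            mem_filter.2 ⟨hx, hi⟩⟩⟩
      · refine mem_union_left _ ?_
        push Not at g1
        obtain ⟨p, hp, i, hi⟩ := g1
        rw [hB1, mem_biUnion]
        exact ⟨p, hp, mem_biUnion.2 ⟨i, mem_univ _, mem_filter.2 ⟨hx, hi⟩⟩⟩
  have hc1 : (B1.card : ℝ) ≤ n * W * ∑ p ∈ (pr D).primeFactors, (1 : ℝ) / p := by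
    have h1 : (B1.card : ℝ) ≤ ∑ p ∈ (pr D).primeFactors, ∑ i : Fin n,
        ((A.filter (fun x => ((p * D i : ℕ) : ℤ) ∣ x i)).card : ℝ) := by
      rw [hB1]
      exact_mod_cast card_biUnion_le.trans (sum_le_sum fun p _ => card_biUnion_le)
    refine h1.trans ?_
    rw [mul_sum]
    refine sum_le_sum fun p hp => ?_
    have hpp := Nat.prime_of_mem_primeFactors hp
    have hpd := Nat.dvd_of_mem_primeFactors hp
    have h5 : 4 * ((MM j K D * p : ℕ) : ℝ) ≤ Y := by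
      have h6 := hDQ p hp
      push_cast
      have h7 : (MM j K D : ℝ) * p ≤ MM j K D * Q ^ 2 :=
        mul_le_mul_of_nonneg_left (h6.trans hQQ) (by linarith)
      linarith
    refine (sum_le_sum fun i _ => ?_ : _ ≤ ∑ i : Fin n, W * (1 / (p : ℝ))).trans (le_of_eq ?_)
    · rw [hA, hW]
      exact b1 hB P hY0 hpp hpd h5 i
    · rw [sum_const, card_univ, Fintype.card_fin, nsmul_eq_mul]
      ring
  have hc2 : (B2.card : ℝ) ≤ (n : ℝ) ^ 2 * (W * (2 / C₁) + 32 * (MM j K D : ℝ) * Y ^ (n - 1) / Y) := by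
    have h1 : (B2.card : ℝ) ≤ ∑ p ∈ T, ∑ q ∈ (univ : Finset (Fin n)).offDiag,
        ((A.filter (fun x => (p : ℤ) ∣ x q.1 ∧ (p : ℤ) ∣ x q.2)).card : ℝ) := by
      rw [hB2]
      exact_mod_cast card_biUnion_le.trans (sum_le_sum fun p _ => card_biUnion_le)
    refine h1.trans ?_
    have h2 : ∀ p ∈ T, ∑ q ∈ (univ : Finset (Fin n)).offDiag,
        ((A.filter (fun x => (p : ℤ) ∣ x q.1 ∧ (p : ℤ) ∣ x q.2)).card : ℝ) ≤
        (n : ℝ) ^ 2 * (W * (1 / (p : ℝ) ^ 2) +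
          if 4 * ((MM j K D * p : ℕ) : ℝ) ≤ Y then 0 else 4 * Y ^ (n - 1) * (1 / (p : ℝ) ^ 2)) := by
      intro p hp
      obtain ⟨hpp, hpC, hpD⟩ := hT p hp
      have h3 : ∀ q ∈ (univ : Finset (Fin n)).offDiag,
          ((A.filter (fun x => (p : ℤ) ∣ x q.1 ∧ (p : ℤ) ∣ x q.2)).card : ℝ) ≤
          W * (1 / (p : ℝ) ^ 2) +
          if 4 * ((MM j K D * p : ℕ) : ℝ) ≤ Y then 0 else 4 * Y ^ (n - 1) * (1 / (p : ℝ) ^ 2) := by
        intro q hq
        have hq' := (mem_offDiag.1 hq).2.2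
        split_ifs with h5
        · rw [add_zero, hA, hW]
          exact b2 hB P hY0 hpp hpC hpD h5 hq'
        · have h6 := direct2 hY (n3 P) hq' hpp.one_le
            (S := A.filter (fun x => (p : ℤ) ∣ x q.1 ∧ (p : ℤ) ∣ x q.2))
            (fun x hx => hAB x (mem_filter.1 hx).1) (fun x hx => (mem_filter.1 hx).2)
          have h7 : 0 ≤ W * (1 / (p : ℝ) ^ 2) := by positivity
          have h8 : 4 * Y ^ (n - 1) / (p : ℝ) ^ 2 = 4 * Y ^ (n - 1) * (1 / (p : ℝ) ^ 2) := by ring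
          linarith
      refine (sum_le_sum h3).trans ?_
      rw [sum_const, nsmul_eq_mul]
      refine mul_le_mul_of_nonneg_right ?_ ?_
      · rw [offDiag_card, card_univ, Fintype.card_fin]
        have : n * n - n ≤ n ^ 2 := by rw [sq]; omega
        exact_mod_cast this
      · have h7 : 0 ≤ W * (1 / (p : ℝ) ^ 2) := by positivity
        split_ifs
        · linarith
        · positivity
    refine (sum_le_sum h2).trans ?_
    rw [← mul_sum]
    refine mul_le_mul_of_nonneg_left ?_ (by positivity)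
    rw [sum_add_distrib, ← mul_sum]
    refine add_le_add (mul_le_mul_of_nonneg_left (tail T hCr fun p hp => by
      exact_mod_cast (hT p hp).2.1) hW0) ?_
    have h5 : ∑ p ∈ T, (if 4 * ((MM j K D * p : ℕ) : ℝ) ≤ Y then (0 : ℝ) else
        4 * Y ^ (n - 1) * (1 / (p : ℝ) ^ 2)) =
        4 * Y ^ (n - 1) * ∑ p ∈ T.filter (fun p : ℕ => ¬ 4 * ((MM j K D * p : ℕ) : ℝ) ≤ Y),
          1 / (p : ℝ) ^ 2 := by
      rw [mul_sum, sum_filter]
      refine sum_congr rfl fun p _ => ?_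
      by_cases h : 4 * ((MM j K D * p : ℕ) : ℝ) ≤ Y
      · rw [if_pos h, if_neg (not_not.2 h)]
      · rw [if_neg h, if_pos h]
    rw [h5]
    have h6 := tail (T.filter (fun p : ℕ => ¬ 4 * ((MM j K D * p : ℕ) : ℝ) ≤ Y))
      (w := Y / (4 * MM j K D)) (by rw [le_div_iff₀ (by linarith)]; linarith) (fun p hp => by
        have h7 := (mem_filter.1 hp).2
        push Not at h7
        push_cast at h7
        rw [div_lt_iff₀ (by linarith)]
        linarith)
    refine (mul_le_mul_of_nonneg_left h6 (by positivity)).trans (le_of_eq ?_)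
    field_simp
    ring
  have hc3 : (B3.card : ℝ) ≤ n * (W * (2 / C₁)) := by
    have h1 : (B3.card : ℝ) ≤ ∑ p ∈ T.filter (fun p : ℕ => (p : ℝ) ≤ Q), ∑ i : Fin n,
        ((A.filter (fun x => (p : ℤ) ^ 2 ∣ x i)).card : ℝ) := by
      rw [hB3]
      exact_mod_cast card_biUnion_le.trans (sum_le_sum fun p _ => card_biUnion_le)
    refine h1.trans ?_
    have h2 : ∀ p ∈ T.filter (fun p : ℕ => (p : ℝ) ≤ Q), ∑ i : Fin n,
        ((A.filter (fun x => (p : ℤ) ^ 2 ∣ x i)).card : ℝ) ≤ n * (W * (1 / (p : ℝ) ^ 2)) := by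
      intro p hp
      obtain ⟨hpT, hpQ⟩ := mem_filter.1 hp
      obtain ⟨hpp, hpC, hpD⟩ := hT p hpT
      have h5 : 4 * ((MM j K D * p ^ 2 : ℕ) : ℝ) ≤ Y := by
        push_cast
        have h7 : (MM j K D : ℝ) * (p : ℝ) ^ 2 ≤ MM j K D * Q ^ 2 :=
          mul_le_mul_of_nonneg_left (pow_le_pow_left₀ (by positivity) hpQ 2) (by linarith)
        linarith
      refine (sum_le_sum fun i _ => ?_ : _ ≤ ∑ i : Fin n, W * (1 / (p : ℝ) ^ 2)).trans (le_of_eq ?_)
      · rw [hA, hW]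
        exact b3 hB P hY0 hpp hpC hpD h5 i
      · rw [sum_const, card_univ, Fintype.card_fin, nsmul_eq_mul]
    refine (sum_le_sum h2).trans ?_
    rw [← mul_sum, ← mul_sum]
    refine mul_le_mul_of_nonneg_left (mul_le_mul_of_nonneg_left ?_ hW0) (by positivity)
    exact tail _ hCr fun p hp => by exact_mod_cast (hT p (mem_filter.1 hp).1).2.1
  have hmain := card_AA hB P hY0 h40 hc (j := j)
  rw [← hA] at hmain
  have h5 : (A.card : ℝ) ≤ (GG Y Q l j K D c' T).card + (B1.card + (B2.card + B3.card)) := by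
    have h6 := card_le_card hsub
    have h7 := card_union_le (GG Y Q l j K D c' T) (B1 ∪ (B2 ∪ B3))
    have h8 := card_union_le B1 (B2 ∪ B3)
    have h9 := card_union_le B2 B3
    have h10 : A.card ≤ (GG Y Q l j K D c' T).card + (B1.card + (B2.card + B3.card)) := by omega
    exact_mod_cast h10
  rw [hW] at hc1 hc2 hc3
  linarith

end

end LW

open LW

/-- LOWN -/
theorem lown (h : S_BOX) : S_LOWN := by
  classical
  intro n r hr1 hr
  have hn : 3 ≤ n := by omega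
  obtain ⟨l, hl⟩ : ∃ l : Fin n, (l : ℕ) = 0 := ⟨⟨0, by omega⟩, rfl⟩
  obtain ⟨c, hcl, hcs, hcp⟩ := exists_tuple hn l hl
  obtain ⟨C₁, hC₁⟩ : ∃ C₁ : ℕ, C₁ = 16 * (n ^ 2 + n) * 4 ^ (n - 1) := ⟨_, rfl⟩
  obtain ⟨K, hK⟩ : ∃ K : ℕ, K = ∏ p ∈ (range (C₁ + 1)).filter (fun p => p.Prime ∧ p ≠ 3), p :=
    ⟨_, rfl⟩
  have hKpos : 1 ≤ K := by
    rw [hK]
    show 0 < ∏ p ∈ (range (C₁ + 1)).filter (fun p => p.Prime ∧ p ≠ 3), p
    exact prod_pos fun p hp => (mem_filter.1 hp).2.1.pos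
  have hKp : ∀ q : ℕ, q.Prime → (q ∣ K ↔ q ≤ C₁ ∧ q ≠ 3) := by
    intro q hq
    rw [hK, hq.prime.dvd_finsetProd_iff]
    constructor
    · rintro ⟨p, hp, hqp⟩
      rw [mem_filter, mem_range] at hp
      have := (Nat.prime_dvd_prime_iff_eq hq hp.2.1).1 hqp
      subst this
      exact ⟨by omega, hp.2.2⟩
    · rintro ⟨h1, h2⟩
      exact ⟨q, mem_filter.2 ⟨mem_range.2 (by omega), hq, h2⟩, dvd_rfl⟩
  have h4n : 1 ≤ 4 ^ (n - 1) := Nat.one_le_pow _ _ (by norm_num)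
  have hC3 : 3 ≤ C₁ := by
    rw [hC₁]
    nlinarith
  have hn0 : (0 : ℝ) < n := by
    have : 0 < n := by omega
    exact_mod_cast this
  have hn1 : (1 : ℝ) ≤ n := by
    have : 1 ≤ n := by omega
    exact_mod_cast this
  have hn3 : (3 : ℝ) ≤ n := by exact_mod_cast hn
  have hKr : (1 : ℝ) ≤ K := by exact_mod_cast hKpos
  obtain ⟨a, ha⟩ : ∃ a : ℝ, a = 4 ^ (n - 1) := ⟨_, rfl⟩
  have ha1 : 1 ≤ a := by
    rw [ha]
    exact_mod_cast h4n
  have hCr : (C₁ : ℝ) = 16 * ((n : ℝ) ^ 2 + n) * a := by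
    rw [hC₁, ha]
    push_cast
    ring
  obtain ⟨L, hL⟩ : ∃ L : ℝ, L = 768 * (n : ℝ) ^ 3 * a * (3 * K) ^ n := ⟨_, rfl⟩
  have hL0 : 0 ≤ L := by rw [hL]; positivity
  refine ⟨1 / (8 * n * a), 1 / (2 * (12 * n * K) ^ (n - 1)), C₁ + 6 + L, by positivity, by positivity,
    by have : (0 : ℝ) ≤ C₁ := by positivity
       linarith, ?_⟩
  intro X z Q j D hT hSq hz hp hzQ hs hX
  have hprD : pr D ≠ 0 := by
    have : 0 < pr D := by
      show 0 < ∏ i, D i
      exact prod_pos fun k _ => hT.1 k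
    omega
  have hCz : (C₁ : ℝ) ≤ z := by linarith
  have P : Par n r l C₁ K D := ⟨hr1, hr, hC3, hKpos, hKp, hT, fun p hpp hpd => by
    have h1 := (hp p (Nat.mem_primeFactors.2 ⟨hpp, hpd, hprD⟩)).1
    exact_mod_cast hCz.trans_lt h1⟩
  have hC0 : (0 : ℝ) ≤ C₁ := by positivity
  have hQ1 : 1 ≤ Q := by linarith
  have hQ2 : 1 ≤ Q ^ 2 := one_le_pow₀ hQ1
  obtain ⟨m, hm⟩ : ∃ m : ℝ, m = 3 ^ j * pr D := ⟨_, rfl⟩
  have hm1 : 1 ≤ m := by
    rw [hm]
    have : 1 ≤ 3 ^ j * pr D := Nat.mul_pos (by positivity) (pr_pos P)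
    exact_mod_cast this
  have hmm : m ≤ m ^ 2 := by nlinarith
  rw [← hm] at hX ⊢
  have hPi : ((∏ k, DD l j K D k : ℕ) : ℝ) = 3 ^ n * K ^ (n - 1) * m := by
    rw [prod_DD, hm]
    push_cast
    ring
  have hMM : (MM j K D : ℝ) = 3 * K * m := by
    unfold MM
    rw [hm]
    push_cast
    ring
  have hLK : 12 * n * K ≤ L := by
    rw [hL]
    have h1 : (3 * (K : ℝ)) ≤ (3 * K) ^ n := by
      have := pow_le_pow_right₀ (show (1 : ℝ) ≤ 3 * K by linarith) (show 1 ≤ n by omega)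
      rwa [pow_one] at this
    have h2 : (n : ℝ) ≤ (n : ℝ) ^ 3 := by
      have := pow_le_pow_right₀ hn1 (show 1 ≤ 3 by norm_num)
      rwa [pow_one] at this
    have h3 : (n : ℝ) * (3 * K) ≤ (n : ℝ) ^ 3 * (3 * K) ^ n :=
      mul_le_mul h2 h1 (by positivity) (by positivity)
    have h4 : (n : ℝ) ^ 3 * (3 * K) ^ n ≤ (n : ℝ) ^ 3 * (3 * K) ^ n * a :=
      le_mul_of_one_le_right (by positivity) ha1
    nlinarith
  have hXL : L * m ^ 2 * Q ^ 2 ≤ X := by
    refine le_trans ?_ hX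
    refine mul_le_mul_of_nonneg_right (mul_le_mul_of_nonneg_right ?_ (by positivity)) (by positivity)
    linarith
  obtain ⟨Y, hY⟩ : ∃ Y : ℝ, Y = X / n := ⟨_, rfl⟩
  have hXY : X = n * Y := by
    rw [hY]
    field_simp
  have h4 : 4 * (MM j K D : ℝ) * Q ^ 2 ≤ Y := by
    rw [hY, le_div_iff₀ hn0, hMM]
    refine le_trans ?_ hXL
    calc 4 * (3 * K * m) * Q ^ 2 * n = (12 * n * K) * m * Q ^ 2 := by ring
      _ ≤ L * m ^ 2 * Q ^ 2 := by
        refine mul_le_mul_of_nonneg_right ?_ (by positivity)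
        exact mul_le_mul hLK hmm (by linarith) hL0
  have hMM1 : (1 : ℝ) ≤ MM j K D := by exact_mod_cast MM_pos P j
  have hY2 : 2 ≤ Y := by nlinarith
  have hY0 : 0 < Y := by linarith
  have hYX : Y ≤ X := by
    rw [hXY]
    nlinarith
  obtain ⟨c', hc0, hc', hc3⟩ := exists_res P hcl hcs
  obtain ⟨T, hT'⟩ : ∃ T : Finset ℕ, T = (range (⌊X⌋₊ + 1)).filter
    (fun p => p.Prime ∧ C₁ < p ∧ ¬ p ∣ pr D) := ⟨_, rfl⟩
  have hTm : ∀ p ∈ T, p.Prime ∧ C₁ < p ∧ ¬ p ∣ pr D := fun p hp => by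
    rw [hT'] at hp
    exact (mem_filter.1 hp).2
  have hsieve := sieve h P hY2 hQ1 h4 (fun p hpp => (hp p hpp).2) hc3 T hTm
  refine ⟨GG Y Q l j K D c' T, fun x hx => ?_, ?_⟩
  · unfold GG at hx
    obtain ⟨hxA, g1, g2, g3⟩ := mem_filter.1 hx
    have hxB : x ∈ Bx n Y l := by
      unfold AA at hxA
      exact (mem_filter.1 hxA).1
    obtain ⟨hs0, hbox⟩ := (mem_Bx hY0).1 hxB
    obtain ⟨hd1, hd2⟩ := AA_dvd hc0 hc' hxA
    have hres := AA_res hY0 hcs hc' hxA
    have nv := nv_of hY0 hxB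
    have hne : ∀ i, x i ≠ 0 := by
      intro i
      have := nv {i} (singleton_nonempty i) (by
        intro h
        have := congrArg card h
        rw [card_singleton, card_univ, Fintype.card_fin] at this
        omega)
      rwa [sum_singleton] at this
    obtain ⟨hb1, hb2⟩ := l_bd hs0 hbox
    have hlneg : 0 ≤ -(x l : ℝ) := le_trans (mul_nonneg (by linarith) (by linarith)) hb1
    have habs : ∀ i, |(x i : ℝ)| ≤ X := by
      intro i
      by_cases hi : i = l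
      · rw [hi, ← abs_neg, abs_of_nonneg hlneg]
        refine hb2.trans ?_
        rw [hXY]
        nlinarith
      · have h1 := hbox i hi
        rw [abs_of_pos (by linarith)]
        linarith
    have hpX : ∀ p : ℕ, ∀ i, (p : ℤ) ∣ x i → p < ⌊X⌋₊ + 1 := by
      intro p i hpi
      have h1 : p ≤ (x i).natAbs :=
        Nat.le_of_dvd (Int.natAbs_pos.2 (hne i)) (Int.natCast_dvd.1 hpi)
      have h2 : ((x i).natAbs : ℝ) ≤ X := by
        have := habs i
        rwa [← Int.cast_abs, Int.abs_eq_natAbs, Int.cast_natCast] at this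
      have h3 : p ≤ ⌊X⌋₊ := Nat.le_floor (le_trans (by exact_mod_cast h1) h2)
      omega
    have two : ∀ p : ℕ, p.Prime → ¬ p ∣ pr D → ∀ i k, (p : ℤ) ∣ x i → (p : ℤ) ∣ x k → i = k := by
      intro p hpp hpd i k hi hk
      by_cases hpC : p ≤ C₁
      · have h1 : ((p : ℕ) : ℤ) ∣ ((3 * K : ℕ) : ℤ) := by
          have : p ∣ 3 * K := by
            by_cases h3 : p = 3
            · exact ⟨K, by rw [h3]⟩
            · exact ((hKp p hpp).2 ⟨hpC, h3⟩).mul_left 3
          exact_mod_cast this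
        refine hcp p hpp i k ?_ ?_
        · have := dvd_sub hi (h1.trans (hres i))
          rwa [sub_sub_cancel] at this
        · have := dvd_sub hk (h1.trans (hres k))
          rwa [sub_sub_cancel] at this
      · push Not at hpC
        by_contra hik
        exact g2 p (by rw [hT']; exact mem_filter.2 ⟨mem_range.2 (hpX p i hi), hpp, hpC, hpd⟩) i k hik
          ⟨hi, hk⟩
    have onD : ∀ p : ℕ, p.Prime → p ∣ pr D → ∀ i,
        (x i).natAbs.factorization p = (D i).factorization p := by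
      intro p hpp hpd i
      have h1 : D i ∣ (x i).natAbs := Int.natCast_dvd.1 (hd2 i)
      obtain ⟨q, hq⟩ := h1
      have hx0 : (x i).natAbs ≠ 0 := Int.natAbs_ne_zero.2 (hne i)
      have hq0 : q ≠ 0 := by
        rintro rfl
        rw [mul_zero] at hq
        exact hx0 hq
      have hD0 : D i ≠ 0 := by
        have := hT.1 i
        omega
      rw [hq, Nat.factorization_mul hD0 hq0, Finsupp.add_apply]
      have h2 : ¬ p ∣ q := by
        rintro ⟨q', rfl⟩
        refine g1 p (Nat.mem_primeFactors.2 ⟨hpp, hpd, hprD⟩) i ?_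
        rw [Int.natCast_dvd, hq]
        exact ⟨q', by ring⟩
      rw [Nat.factorization_eq_zero_of_not_dvd h2, add_zero]
    refine ⟨hs0, hne, nv, ⟨fun i => ?_, fun p hpp => ?_⟩, habs, ⟨l, ?_⟩, ?_, fun p hpp hzp hpQ =>
      ⟨fun hpd i => onD p hpp hpd i, fun hpd => ?_⟩⟩
    · exact Int.natAbs_pos.2 (hne i)
    · unfold Dl
      rw [mem_filter]
      refine ⟨mem_univ _, ?_⟩
      by_cases hpd : p ∣ pr D
      · have h1 := hT.2 p hpp
        unfold Dl at h1
        rw [mem_filter] at h1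
        have h2 : (univ.filter fun i => p ∣ ab x i) = univ.filter fun i => p ∣ D i := by
          ext i
          rw [mem_filter, mem_filter]
          have hx0 : (x i).natAbs ≠ 0 := Int.natAbs_ne_zero.2 (hne i)
          have hD0 : D i ≠ 0 := by
            have := hT.1 i
            omega
          have h3 : p ∣ ab x i ↔ p ∣ D i := by
            show p ∣ (x i).natAbs ↔ p ∣ D i
            rw [hpp.dvd_iff_one_le_factorization hx0, hpp.dvd_iff_one_le_factorization hD0,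
              onD p hpp hpd i]
          rw [h3]
        rw [h2]
        exact h1.2
      · refine le_trans ?_ hr1
        rw [card_le_one]
        intro i hi k hk
        rw [mem_filter] at hi hk
        exact two p hpp hpd i k (Int.natCast_dvd.2 hi.2) (Int.natCast_dvd.2 hk.2)
    · rw [← abs_neg, abs_of_nonneg hlneg, ← hY]
      refine le_trans ?_ hb1
      nlinarith
    · have h1 : 3 ^ (j + 1) * pr D ∣ pr (ab x) := by
        have h2 : 3 ^ (j + 1) * pr D = ∏ i, (if i = l then 3 ^ (j + 1) else 1) * D i := by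
          rw [prod_mul_distrib, prod_ite_eq', if_pos (mem_univ l)]
          rfl
        rw [h2]
        unfold pr
        refine prod_dvd_prod_of_dvd _ _ fun i _ => ?_
        show _ ∣ (x i).natAbs
        rw [← Int.natCast_dvd]
        split_ifs with hi
        · rw [hi]
          exact hd1
        · rw [one_mul]
          exact hd2 i
      have hx0 : pr (ab x) ≠ 0 := by
        unfold pr
        exact prod_ne_zero_iff.2 fun i _ => Int.natAbs_ne_zero.2 (hne i)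
      have h2 := gain_le hx0 h1
      have h3 : (∏ p ∈ (3 ^ (j + 1) * pr D).primeFactors, p : ℕ) = 3 * rr D := by
        rw [Nat.primeFactors_mul (by positivity) hprD, Nat.primeFactors_prime_pow (by omega)
          Nat.prime_three, prod_union, prod_singleton]
        · rfl
        · rw [disjoint_singleton_left]
          intro h3
          have := P.big 3 Nat.prime_three (Nat.dvd_of_mem_primeFactors h3)
          omega
      rw [h3] at h2
      have h5 : (0 : ℝ) < rr D := by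
        have : 0 < rr D := prod_pos fun p hp => (Nat.prime_of_mem_primeFactors hp).pos
        exact_mod_cast this
      calc (3 : ℝ) ^ j * gn D = ((3 ^ (j + 1) * pr D : ℕ) : ℝ) / ((3 * rr D : ℕ) : ℝ) := by
            unfold gn
            push_cast
            rw [pow_succ]
            field_simp
        _ ≤ _ := h2
    · have hpC : C₁ < p := by exact_mod_cast hCz.trans_lt hzp
      have h1 : ∀ i, (x i).natAbs.factorization p ≤ 1 := by
        intro i
        by_contra hcon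
        push Not at hcon
        have h2 : p ^ 2 ∣ (x i).natAbs := (pow_dvd_pow p hcon).trans (Nat.ordProj_dvd _ _)
        have h3 : (p : ℤ) ^ 2 ∣ x i := by
          have := Int.natCast_dvd.2 h2
          exact_mod_cast this
        exact g3 p (by
          rw [hT']
          exact mem_filter.2 ⟨mem_range.2 (hpX p i ((dvd_pow_self _ (by norm_num)).trans h3)),
            hpp, hpC, hpd⟩) hpQ i h3
      by_cases hex : ∃ i, (x i).natAbs.factorization p ≠ 0
      · obtain ⟨i, hi⟩ := hex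
        rw [sum_eq_single i]
        · exact h1 i
        · intro k _ hki
          by_contra hk
          have h2 : ∀ k, (x k).natAbs.factorization p ≠ 0 → (p : ℤ) ∣ x k := by
            intro k hk
            exact Int.natCast_dvd.2 (Nat.dvd_of_factorization_pos hk)
          exact hki (two p hpp hpd k i (h2 k hk) (h2 i hi))
        · intro h
          exact absurd (mem_univ _) h
      · push Not at hex
        rw [sum_eq_zero fun i _ => hex i]
        exact Nat.zero_le _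
  · rw [hPi, hMM] at hsieve
    obtain ⟨V, hV⟩ : ∃ V : ℝ, V = Y ^ (n - 1) := ⟨_, rfl⟩
    have hV0 : 0 < V := by rw [hV]; positivity
    obtain ⟨B, hB⟩ : ∃ B : ℝ, B = 3 ^ n * K ^ (n - 1) * m := ⟨_, rfl⟩
    have hB0 : 0 < B := by rw [hB]; positivity
    obtain ⟨N, hN⟩ : ∃ N : ℝ, N = ((GG Y Q l j K D c' T).card : ℝ) := ⟨_, rfl⟩
    have hm0 : 0 < m := by linarith
    have ha0 : 0 < a := by linarith
    have e1 : (Y / 4) ^ (n - 1) * 3 / B = 3 * V / B / a := by
      rw [div_pow, ← ha, ← hV]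
      field_simp
    rw [← hB, e1, ← hV, ← hN] at hsieve
    have e2 : (n : ℝ) * (3 * V / B) * ∑ p ∈ (pr D).primeFactors, (1 : ℝ) / p ≤ 3 * V / B / (8 * a) := by
      refine (mul_le_mul_of_nonneg_left hs (by positivity)).trans (le_of_eq ?_)
      field_simp
    have e3 : (n : ℝ) ^ 2 * (3 * V / B * (2 / C₁)) + n * (3 * V / B * (2 / C₁)) =
        3 * V / B / (8 * a) := by
      rw [hCr]
      have : (n : ℝ) ^ 2 + n ≠ 0 := by positivity
      field_simp
      ring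
    have hKn : (K : ℝ) * K ^ (n - 1) = K ^ n := by
      rw [← pow_succ']
      congr 1
      omega
    have e4 : (n : ℝ) ^ 2 * (32 * (3 * K * m) * V / Y) ≤ 3 * V / B / (8 * a) := by
      rw [div_div, mul_div_assoc', div_le_div_iff₀ hY0 (by positivity)]
      have h5 : 256 * (n : ℝ) ^ 3 * a * (3 * K) ^ n * m ^ 2 ≤ X := by
        refine le_trans ?_ hXL
        have h6 : 256 * (n : ℝ) ^ 3 * a * (3 * K) ^ n ≤ L := by
          rw [hL]
          have : 0 ≤ (n : ℝ) ^ 3 * a * (3 * K) ^ n := by positivity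
          nlinarith
        have h7 : 256 * (n : ℝ) ^ 3 * a * (3 * K) ^ n * m ^ 2 ≤ L * m ^ 2 :=
          mul_le_mul_of_nonneg_right h6 (by positivity)
        exact h7.trans (le_mul_of_one_le_right (by positivity) hQ2)
      have h8 : 256 * (n : ℝ) ^ 2 * a * (3 * K) ^ n * m ^ 2 ≤ Y := by
        rw [hY, le_div_iff₀ hn0]
        refine le_trans (le_of_eq ?_) h5
        ring
      have h9 : (n : ℝ) ^ 2 * (32 * (3 * K * m) * V) * (B * (8 * a)) =
          3 * V * (256 * (n : ℝ) ^ 2 * a * (3 * K) ^ n * m ^ 2) := by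
        rw [hB, mul_pow, ← hKn]
        ring
      rw [h9]
      exact mul_le_mul_of_nonneg_left h8 (by positivity)
    have e5 : 3 * V / B / (8 * a) = 3 * V / B / a / 8 := by
      field_simp
    have e6 : 1 / (2 * (12 * (n : ℝ) * K) ^ (n - 1)) * X ^ (n - 1) / m = 3 * V / B / a / 2 := by
      rw [hB, hV, ha, hXY]
      obtain ⟨n', hn'⟩ : ∃ n' : ℕ, n = n' + 1 := ⟨n - 1, by omega⟩
      have h12 : (12 : ℝ) * n * K = 3 * 4 * n * K := by ring
      rw [h12, hn', Nat.add_sub_cancel, mul_pow, mul_pow, mul_pow, mul_pow, pow_succ (3 : ℝ) n']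
      field_simp
    rw [← hN]
    rw [e6]
    rw [e5] at e2 e3 e4
    have hpos : 0 < 3 * V / B / a := by positivity
    have e7 : (n : ℝ) ^ 2 * (3 * V / B * (2 / C₁) + 32 * (3 * K * m) * V / Y) =
      (n : ℝ) ^ 2 * (3 * V / B * (2 / C₁)) + (n : ℝ) ^ 2 * (32 * (3 * K * m) * V / Y) := by ring
    rw [e7] at hsieve
    linarith

end Pool.Agent.N49.NT
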