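import Pool.Agent.N906.RS.Stm

/-!
# Project RS: the sum over the triples of ideals is at most the Euler product
-/

set_option autoImplicit false

namespace Pool.Agent.N49.RS

open NumberField IsDedekindDomain Finset Filter Topology Pool.Agent.H691R3 Pool.Agent.W223.AK
open Pool.Agent.N906.RS

section Gen

open scoped Classical

variable {V : Type} (g : V → ℝ) (u c μ : ℝ)

/-- the local weight of a prime with exponent `e` -/
noncomputable def wt (v : V) (e : ℕ) : ℝ := μ * Real.exp (-(u * (e * g v)) - c * g v)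

/-- the local weights of the codes -/
noncomputable def W (v : V) : Option (Fin 3 × ℕ) → ℝ
  | none => 1
  | some x => wt g u c μ v (x.2 + 1)

/-- the code of a triple at a prime -/
noncomputable def code (E : Fin 3 → V →₀ ℕ) (v : V) : Option (Fin 3 × ℕ) :=
  if h : ∃ l, E l v ≠ 0 then some (h.choose, E h.choose v - 1) else none

theorem code_some {E : Fin 3 → V →₀ ℕ} (hE : ∀ l l', l ≠ l' → ∀ v, E l v = 0 ∨ E l' v = 0) {v : V}
    {l : Fin 3} (h : E l v ≠ 0) : code E v = some (l, E l v - 1) := by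
  have h1 : ∃ l, E l v ≠ 0 := ⟨l, h⟩
  have h2 : h1.choose = l := by
    by_contra hne
    rcases hE _ _ hne v with h3 | h3
    · exact h1.choose_spec h3
    · exact h h3
  unfold code
  rw [dif_pos h1, h2]

theorem code_none {E : Fin 3 → V →₀ ℕ} {v : V} (h : ∀ l, E l v = 0) : code E v = none := by
  unfold code
  rw [dif_neg]
  push Not
  exact h

theorem local_eq {E : Fin 3 → V →₀ ℕ} (hE : ∀ l l', l ≠ l' → ∀ v, E l v = 0 ∨ E l' v = 0) (v : V) :
    ∏ l : Fin 3, (if E l v ≠ 0 then wt g u c μ v (E l v) else 1) = W g u c μ v (code E v) := by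
  by_cases h : ∃ l, E l v ≠ 0
  · obtain ⟨l, hl⟩ := h
    rw [code_some hE hl, Fintype.prod_eq_single l, if_pos hl]
    · change _ = wt g u c μ v (E l v - 1 + 1)
      rw [Nat.sub_add_cancel (Nat.one_le_iff_ne_zero.2 hl)]
    · intro l' hl'
      rw [if_neg]
      rw [not_not]
      rcases hE l' l hl' v with h3 | h3
      · exact h3
      · exact absurd h3 hl
  · push Not at h
    rw [code_none h]
    change _ = (1 : ℝ)
    refine Finset.prod_eq_one fun l _ => ?_
    rw [if_neg (not_not.2 (h l))]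

/-- codes determine the triples -/
theorem code_inj {E E' : Fin 3 → V →₀ ℕ} (hE : ∀ l l', l ≠ l' → ∀ v, E l v = 0 ∨ E l' v = 0)
    (hE' : ∀ l l', l ≠ l' → ∀ v, E' l v = 0 ∨ E' l' v = 0) {v : V} (h : code E v = code E' v)
    (l : Fin 3) : E l v = E' l v := by
  by_cases h0 : ∃ l, E l v ≠ 0
  · obtain ⟨l₀, hl₀⟩ := h0
    rw [code_some hE hl₀] at h
    by_cases h1 : ∃ l, E' l v ≠ 0
    · obtain ⟨l₁, hl₁⟩ := h1
      rw [code_some hE' hl₁, Option.some.injEq, Prod.mk.injEq] at h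
      obtain ⟨rfl, h2⟩ := h
      by_cases hl : l = l₀
      · subst hl
        omega
      · have h3 := hE l l₀ hl v
        have h4 := hE' l l₀ hl v
        rcases h3 with h3 | h3
        · rcases h4 with h4 | h4
          · rw [h3, h4]
          · exact absurd h4 hl₁
        · exact absurd h3 hl₀
    · push Not at h1
      rw [code_none h1] at h
      exact absurd h (by simp)
  · push Not at h0
    rw [code_none h0] at h
    by_cases h1 : ∃ l, E' l v ≠ 0
    · obtain ⟨l₁, hl₁⟩ := h1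
      rw [code_some hE' hl₁] at h
      exact absurd h (by simp)
    · push Not at h1
      rw [h0 l, h1 l]

/-- the weight of a triple is the product of the local weights -/
theorem weight_eq {E : Fin 3 → V →₀ ℕ} {s : Finset V} (hs : ∀ l, (E l).support ⊆ s) :
    μ ^ (∑ l, (E l).support.card) *
      Real.exp (-(u * ∑ l, ∑ v ∈ (E l).support, (E l v : ℝ) * g v) -
        c * ∑ l, ∑ v ∈ (E l).support, g v) =
      ∏ v ∈ s, ∏ l : Fin 3, (if E l v ≠ 0 then wt g u c μ v (E l v) else 1) := by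
  rw [Finset.prod_comm]
  have h1 : ∀ l : Fin 3, ∏ v ∈ s, (if E l v ≠ 0 then wt g u c μ v (E l v) else 1) =
      ∏ v ∈ (E l).support, wt g u c μ v (E l v) := by
    intro l
    rw [← Finset.prod_filter]
    refine Finset.prod_congr ?_ fun _ _ => rfl
    ext v
    rw [Finset.mem_filter, Finsupp.mem_support_iff]
    exact ⟨fun h => h.2, fun h => ⟨hs l (Finsupp.mem_support_iff.2 h), h⟩⟩
  rw [Finset.prod_congr rfl fun l _ => h1 l]
  simp only [wt, Finset.prod_mul_distrib, Finset.prod_const]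
  rw [Finset.prod_pow_eq_pow_sum]
  congr 1
  simp only [← Real.exp_sum]
  congr 1
  simp only [Finset.sum_sub_distrib, Finset.sum_neg_distrib, Finset.mul_sum]

theorem sum_le (hμ : 0 < μ) {s : Finset V} {J : ℕ} (F : Finset (Fin 3 → V →₀ ℕ))
    (hF : ∀ E ∈ F, ∀ l l', l ≠ l' → ∀ v, E l v = 0 ∨ E l' v = 0)
    (hs : ∀ E ∈ F, ∀ l, (E l).support ⊆ s) (hJ : ∀ E ∈ F, ∀ l v, E l v ≤ J) :
    ∑ E ∈ F, ∏ v ∈ s, W g u c μ v (code E v) ≤
      ∏ v ∈ s, ∑ δ ∈ Finset.insertNone ((Finset.univ : Finset (Fin 3)) ×ˢ Finset.range J),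
        W g u c μ v δ := by
  have hW : ∀ v δ, 0 ≤ W g u c μ v δ := by
    intro v δ
    rcases δ with _ | δ
    · exact zero_le_one
    · exact (mul_pos hμ (Real.exp_pos _)).le
  rw [Finset.prod_sum]
  let Φ : (Fin 3 → V →₀ ℕ) → ∀ a ∈ s, Option (Fin 3 × ℕ) := fun E a _ => code E a
  have hinj : Set.InjOn Φ (F : Set (Fin 3 → V →₀ ℕ)) := by
    intro E hE E' hE' h
    funext l
    refine Finsupp.ext fun v => ?_
    by_cases hv : v ∈ s
    · exact code_inj (hF E hE) (hF E' hE') (congrFun (congrFun h v) hv) l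
    · have h1 : v ∉ (E l).support := fun h => hv (hs E hE l h)
      have h2 : v ∉ (E' l).support := fun h => hv (hs E' hE' l h)
      rw [Finsupp.notMem_support_iff.1 h1, Finsupp.notMem_support_iff.1 h2]
  have h1 : ∑ E ∈ F, ∏ v ∈ s, W g u c μ v (code E v) =
      ∑ p ∈ F.image Φ, ∏ x ∈ s.attach, W g u c μ x.1 (p x.1 x.2) := by
    rw [Finset.sum_image hinj]
    refine Finset.sum_congr rfl fun E _ => ?_
    exact (Finset.prod_attach s fun v => W g u c μ v (code E v)).symm
  rw [h1]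
  refine Finset.sum_le_sum_of_subset_of_nonneg ?_ fun p _ _ =>
    Finset.prod_nonneg fun x _ => hW _ _
  intro p hp
  obtain ⟨E, hE, rfl⟩ := Finset.mem_image.1 hp
  rw [Finset.mem_pi]
  intro v hv
  change code E v ∈ _
  by_cases h : ∃ l, E l v ≠ 0
  · obtain ⟨l, hl⟩ := h
    rw [code_some (hF E hE) hl, Finset.some_mem_insertNone, Finset.mem_product]
    refine ⟨Finset.mem_univ _, Finset.mem_range.2 ?_⟩
    have := hJ E hE l v
    change E l v - 1 < J
    omega
  · push Not at h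
    rw [code_none h]
    exact Finset.none_mem_insertNone

/-- the geometric series -/
theorem local_le (hμ : 0 < μ) (hu : 0 < u) {v : V} (hg : 0 < g v) (J : ℕ) :
    ∑ δ ∈ Finset.insertNone ((Finset.univ : Finset (Fin 3)) ×ˢ Finset.range J), W g u c μ v δ ≤
      1 + 3 * μ * Real.exp (-(c * g v)) / (Real.exp (u * g v) - 1) := by
  rw [Finset.sum_insertNone]
  change (1 : ℝ) + _ ≤ _
  have h0 : 1 < Real.exp (u * g v) := Real.one_lt_exp_iff.2 (mul_pos hu hg)
  have h1 : ∀ x : Fin 3 × ℕ, W g u c μ v (some x) =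
      μ * Real.exp (-(c * g v)) * (Real.exp (-(u * g v))) ^ (x.2 + 1) := by
    intro x
    change μ * Real.exp (-(u * (((x.2 + 1 : ℕ) : ℝ) * g v)) - c * g v) = _
    rw [← Real.exp_nat_mul, mul_assoc, ← Real.exp_add]
    congr 2
    ring
  rw [Finset.sum_congr rfl fun x _ => h1 x, Finset.sum_product]
  simp only [Finset.sum_const, Finset.card_univ, Fintype.card_fin]
  rw [← Finset.mul_sum, nsmul_eq_mul]
  have h2 : ∑ j ∈ Finset.range J, (Real.exp (-(u * g v))) ^ (j + 1) ≤
      1 / (Real.exp (u * g v) - 1) := by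
    have hr : Real.exp (-(u * g v)) = (Real.exp (u * g v))⁻¹ := Real.exp_neg _
    rw [hr]
    set R := Real.exp (u * g v) with hR
    have hR0 : 0 < R := Real.exp_pos _
    have hRi : R⁻¹ < 1 := inv_lt_one_of_one_lt₀ h0
    have h3 : ∑ j ∈ Finset.range J, (R⁻¹) ^ (j + 1) = R⁻¹ * ∑ j ∈ Finset.range J, (R⁻¹) ^ j := by
      rw [Finset.mul_sum]
      exact Finset.sum_congr rfl fun j _ => pow_succ' _ _
    have h4 : ∑ j ∈ Finset.range J, (R⁻¹) ^ j ≤ (1 - R⁻¹)⁻¹ := by
      have h5 := (hasSum_geometric_of_lt_one (inv_nonneg.2 hR0.le) hRi)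
      rw [← h5.tsum_eq]
      exact h5.summable.sum_le_tsum _ fun j _ => by positivity
    rw [h3]
    calc R⁻¹ * ∑ j ∈ Finset.range J, (R⁻¹) ^ j ≤ R⁻¹ * (1 - R⁻¹)⁻¹ :=
          mul_le_mul_of_nonneg_left h4 (by positivity)
      _ = 1 / (R - 1) := by
          have h6 : R - 1 ≠ 0 := by
            have : 0 < R - 1 := by linarith
            exact this.ne'
          rw [← mul_inv, one_div]
          congr 1
          field_simp
  have h7 : 0 ≤ μ * Real.exp (-(c * g v)) := (mul_pos hμ (Real.exp_pos _)).le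
  have h8 := mul_le_mul_of_nonneg_left h2 h7
  have h9 : 3 * μ * Real.exp (-(c * g v)) / (Real.exp (u * g v) - 1) =
      3 * (μ * Real.exp (-(c * g v)) * (1 / (Real.exp (u * g v) - 1))) := by
    ring
  rw [h9]
  push_cast
  linarith

end Gen

open scoped Classical in
/-- **GUP.** -/
theorem gup (K : Type) [Field K] [NumberField K] (h : S_EUP K) : S_GUP K := by
  intro μ θ ε hμ hθ hθ' hε
  obtain ⟨u₀, hu₀, hu₀', H⟩ := h μ θ ε hμ hθ hθ' hε
  refine ⟨u₀, hu₀, hu₀', fun u hu huu F hF => ?_⟩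
  let g : Pr K → ℝ := fun v => Real.log (Nv v)
  let s : Finset (Pr K) := F.biUnion fun E => Finset.univ.biUnion fun l => (E l).support
  let J : ℕ := ∑ E ∈ F, ∑ l, ∑ v ∈ s, E l v
  have hF' : ∀ E ∈ F, ∀ l l', l ≠ l' → ∀ v, E l v = 0 ∨ E l' v = 0 :=
    fun E hE l l' hl v => hF E hE l l' hl v
  have hs : ∀ E ∈ F, ∀ l, (E l).support ⊆ s := by
    intro E hE l v hv
    exact Finset.mem_biUnion.2 ⟨E, hE, Finset.mem_biUnion.2 ⟨l, Finset.mem_univ l, hv⟩⟩
  have hJ : ∀ E ∈ F, ∀ l v, E l v ≤ J := by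
    intro E hE l v
    by_cases hv : v ∈ s
    · have h1 : E l v ≤ ∑ v ∈ s, E l v :=
        Finset.single_le_sum (f := fun v => E l v) (fun _ _ => Nat.zero_le _) hv
      have h2 : ∑ v ∈ s, E l v ≤ ∑ l, ∑ v ∈ s, E l v :=
        Finset.single_le_sum (f := fun l => ∑ v ∈ s, E l v) (fun _ _ => Nat.zero_le _)
          (Finset.mem_univ l)
      have h3 : ∑ l, ∑ v ∈ s, E l v ≤ J :=
        Finset.single_le_sum (f := fun E : Fin 3 → Idl K => ∑ l, ∑ v ∈ s, E l v)
          (fun _ _ => Nat.zero_le _) hE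
      exact h1.trans (h2.trans h3)
    · have h1 : v ∉ (E l).support := fun h => hv (hs E hE l h)
      rw [Finsupp.notMem_support_iff.1 h1]
      exact Nat.zero_le _
  have h1 : ∑ E ∈ F, μ ^ om E * Real.exp (-(u * tl E) - (1 - θ * u) * tr E) =
      ∑ E ∈ F, ∏ v ∈ s, W g u (1 - θ * u) μ v (code E v) := by
    refine Finset.sum_congr rfl fun E hE => ?_
    rw [← Finset.prod_congr rfl fun v _ => local_eq g u (1 - θ * u) μ (hF' E hE) v,
      ← weight_eq g u (1 - θ * u) μ (hs E hE)]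
    rfl
  have h2 : ∀ v : Pr K, 1 + 3 * μ * Real.exp (-((1 - θ * u) * g v)) / (Real.exp (u * g v) - 1) =
      1 + 3 * μ * (Nv v) ^ (θ * u - 1) / ((Nv v) ^ u - 1) := by
    intro v
    rw [Real.rpow_def_of_pos (Nv_pos v), Real.rpow_def_of_pos (Nv_pos v)]
    have e1 : -((1 - θ * u) * g v) = Real.log (Nv v) * (θ * u - 1) := by
      simp only [g]
      ring
    have e2 : u * g v = Real.log (Nv v) * u := by
      simp only [g]
      ring
    rw [e1, e2]
  have h3 : ∀ v : Pr K, 0 < 1 + 3 * μ * (Nv v) ^ (θ * u - 1) / ((Nv v) ^ u - 1) := by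
    intro v
    have h4 : 1 < (Nv v) ^ u := Real.one_lt_rpow (Nv_one_lt v) hu
    have h5 : 0 < (Nv v) ^ (θ * u - 1) := Real.rpow_pos_of_pos (Nv_pos v) _
    have h6 : 0 < (Nv v) ^ u - 1 := by linarith
    positivity
  rw [h1]
  calc ∑ E ∈ F, ∏ v ∈ s, W g u (1 - θ * u) μ v (code E v)
      ≤ ∏ v ∈ s, ∑ δ ∈ Finset.insertNone ((Finset.univ : Finset (Fin 3)) ×ˢ Finset.range J),
          W g u (1 - θ * u) μ v δ := sum_le g u (1 - θ * u) μ hμ F hF' hs hJ
    _ ≤ ∏ v ∈ s, (1 + 3 * μ * (Nv v) ^ (θ * u - 1) / ((Nv v) ^ u - 1)) := by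
        refine Finset.prod_le_prod (fun v _ => Finset.sum_nonneg fun δ _ => ?_) fun v _ => ?_
        · rcases δ with _ | δ
          · exact zero_le_one
          · exact (mul_pos hμ (Real.exp_pos _)).le
        · rw [← h2]
          exact local_le g u (1 - θ * u) μ hμ hu (log_Nv_pos v) J
    _ = Real.exp (∑ v ∈ s, Real.log (1 + 3 * μ * (Nv v) ^ (θ * u - 1) / ((Nv v) ^ u - 1))) := by
        rw [Real.exp_sum]
        exact Finset.prod_congr rfl fun v _ => (Real.exp_log (h3 v)).symm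
    _ ≤ Real.exp ((1 + ε) * (3 * μ) / (u * Real.log (1 / u))) :=
        Real.exp_le_exp.2 (H u hu huu s)

end Pool.Agent.N49.RS
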