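import Mathlib

set_option autoImplicit false

/-!
The group of finitary automorphisms of the binary rooted tree.  Vertices are lists of
booleans, the root is the empty list and the parent of a vertex is its tail.
-/

namespace Pool.Agent.N49.Tseq

open Equiv

theorem tail_length {w : List Bool} : w.tail.length = w.length - 1 := by simp

/-- The finitary automorphisms of the binary tree. -/
def FinAut : Subgroup (Perm (List Bool)) where
  carrier := {g | (∀ w, (g w).length = w.length) ∧ (∀ w, (g w).tail = g w.tail) ∧
    {w | g (false :: w) ≠ false :: g w}.Finite}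
  one_mem' := by
    refine ⟨fun w => rfl, fun w => rfl, ?_⟩
    simp
  mul_mem' := by
    rintro g h ⟨g1, g2, g3⟩ ⟨h1, h2, h3⟩
    refine ⟨fun w => by simp [g1, h1], fun w => by simp [g2, h2], ?_⟩
    refine (h3.union (g3.preimage (f := h) h.injective.injOn)).subset ?_
    intro w hw
    by_contra hcon
    simp only [Set.mem_union, Set.mem_ofPred_eq, Set.mem_preimage, not_or, not_not] at hcon
    apply hw
    simp [hcon.1, hcon.2]
  inv_mem' := by
    rintro g ⟨g1, g2, g3⟩
    have ap : ∀ w, g (g⁻¹ w) = w := fun w => by simp
    have pa : ∀ w, g⁻¹ (g w) = w := fun w => by simp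
    have k1 : ∀ w, (g⁻¹ w).length = w.length := by
      intro w
      have := g1 (g⁻¹ w)
      rw [ap] at this
      exact this.symm
    have k2 : ∀ w, (g⁻¹ w).tail = g⁻¹ w.tail := by
      intro w
      have := g2 (g⁻¹ w)
      rw [ap] at this
      rw [this, pa]
    refine ⟨k1, k2, ?_⟩
    refine (g3.image g).subset ?_
    intro w hw
    refine ⟨g⁻¹ w, ?_, ap w⟩
    intro hcon
    apply hw
    rw [ap] at hcon
    rw [← hcon, pa]

theorem len (g : FinAut) (w : List Bool) : ((g : Perm (List Bool)) w).length = w.length :=
  g.2.1 w

theorem tl (g : FinAut) (w : List Bool) :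
    ((g : Perm (List Bool)) w).tail = (g : Perm (List Bool)) w.tail := g.2.2.1 w

/-- The label of `g` at the vertex `w`. -/
def lab (g : FinAut) (w : List Bool) : ZMod 2 :=
  if (g : Perm (List Bool)) (false :: w) = false :: (g : Perm (List Bool)) w then 0 else 1

theorem cons_form (g : FinAut) (b : Bool) (w : List Bool) :
    ∃ c : Bool, (g : Perm (List Bool)) (b :: w) = c :: (g : Perm (List Bool)) w := by
  have h1 := len g (b :: w)
  have h2 := tl g (b :: w)
  rcases h : (g : Perm (List Bool)) (b :: w) with _ | ⟨c, u⟩
  · rw [h] at h1; simp at h1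
  · rw [h] at h2
    simp only [List.tail_cons] at h2
    exact ⟨c, by rw [h2]⟩

theorem apply_cons (g : FinAut) (b : Bool) (w : List Bool) :
    (g : Perm (List Bool)) (b :: w)
      = (if lab g w = 0 then b else !b) :: (g : Perm (List Bool)) w := by
  obtain ⟨c, hc⟩ := cons_form g false w
  obtain ⟨d, hd⟩ := cons_form g true w
  have hne : c ≠ d := by
    intro h
    have : (g : Perm (List Bool)) (false :: w) = (g : Perm (List Bool)) (true :: w) := by
      rw [hc, hd, h]
    have := (g : Perm (List Bool)).injective this
    simp at this
  unfold lab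
  rw [hc]
  cases c <;> cases d <;> cases b <;> simp_all

theorem lab_mul (g h : FinAut) (w : List Bool) :
    lab (g * h) w = lab h w + lab g ((h : Perm (List Bool)) w) := by
  have e : ∀ x : FinAut, ∀ u, lab x u = 0 ∨ lab x u = 1 := by
    intro x u; unfold lab; split_ifs <;> simp
  have h1 : ((g * h : FinAut) : Perm (List Bool)) (false :: w) =
      (g : Perm (List Bool)) ((h : Perm (List Bool)) (false :: w)) := rfl
  have h2 : ((g * h : FinAut) : Perm (List Bool)) w =
      (g : Perm (List Bool)) ((h : Perm (List Bool)) w) := rfl
  have h3 : lab (g * h) w = if ((g * h : FinAut) : Perm (List Bool)) (false :: w) =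
      false :: ((g * h : FinAut) : Perm (List Bool)) w then 0 else 1 := rfl
  rw [h3, h1, h2, apply_cons h, apply_cons g]
  rcases e h w with a | a <;> rcases e g ((h : Perm (List Bool)) w) with b | b <;>
    rw [a, b] <;> simp
  decide

theorem lab_finite (g : FinAut) : {w | lab g w ≠ 0}.Finite := by
  refine g.2.2.2.subset ?_
  intro w hw
  simp only [Set.mem_ofPred_eq, lab, ne_eq, ite_eq_left_iff, one_ne_zero, imp_false,
    not_not] at hw
  exact hw

theorem eq_one_of_lab (g : FinAut) (h : ∀ w, lab g w = 0) : g = 1 := by
  apply Subtype.ext
  apply Equiv.ext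
  intro w
  show (g : Perm (List Bool)) w = w
  induction w with
  | nil => exact List.length_eq_zero_iff.mp (len g [])
  | cons b w ih => rw [apply_cons, h w, ih]; simp

/-- the sum of the labels over all vertices whose level lies in `S` -/
noncomputable def phi (S : Set ℕ) : FinAut →* Multiplicative (ZMod 2) where
  toFun g := Multiplicative.ofAdd (∑ᶠ w : List Bool, Set.indicator {w | w.length ∈ S} (lab g) w)
  map_one' := by
    have : ∀ w, lab (1 : FinAut) w = 0 := by intro w; simp [lab]
    have h2 : (fun w : List Bool => Set.indicator {w | w.length ∈ S} (lab (1 : FinAut)) w) =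
        fun _ => 0 := by
      funext w
      simp [Set.indicator, this]
    rw [h2]; simp
  map_mul' := by
    intro g h
    have h1 : (fun w : List Bool => Set.indicator {w | w.length ∈ S} (lab (g * h)) w) =
        fun w => Set.indicator {w | w.length ∈ S} (lab h) w +
          Set.indicator {w | w.length ∈ S} (lab g) ((h : Perm (List Bool)) w) := by
      funext w
      by_cases hw : w.length ∈ S
      · have hw' : ((h : Perm (List Bool)) w).length ∈ S := by rw [len]; exact hw
        simp only [Set.indicator, Set.mem_ofPred_eq, hw, hw', if_true, lab_mul]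
      · have hw' : ((h : Perm (List Bool)) w).length ∉ S := by rw [len]; exact hw
        simp only [Set.indicator, Set.mem_ofPred_eq, hw, hw', if_false, add_zero]
    have f1 : (Function.support fun w : List Bool =>
        Set.indicator {w | w.length ∈ S} (lab h) w).Finite := by
      refine (lab_finite h).subset ?_
      intro w hw
      simp only [Function.mem_support, Set.indicator, Set.mem_ofPred_eq] at hw
      split_ifs at hw with h1
      · exact hw
      · exact absurd rfl hw
    have f2 : (Function.support fun w : List Bool =>
        Set.indicator {w | w.length ∈ S} (lab g) ((h : Perm (List Bool)) w)).Finite := by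
      refine ((lab_finite g).preimage
        (f := (h : Perm (List Bool))) (h : Perm (List Bool)).injective.injOn).subset ?_
      intro w hw
      simp only [Function.mem_support, Set.indicator, Set.mem_ofPred_eq] at hw
      split_ifs at hw with h1
      · exact hw
      · exact absurd rfl hw
    rw [h1, finsum_add_distrib f1 f2,
      finsum_comp_equiv (h : Perm (List Bool))
        (f := fun w => Set.indicator {w | w.length ∈ S} (lab g) w), add_comm, ofAdd_add]

/-- the function switching the two subtrees below `w` -/
def flipFun (w : List Bool) : List Bool → List Bool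
  | [] => []
  | b :: u => (if u = w then !b else b) :: flipFun w u

theorem flipFun_length (w u : List Bool) : (flipFun w u).length = u.length := by
  induction u with
  | nil => rfl
  | cons b u ih => simp [flipFun, ih]

theorem flipFun_tail (w u : List Bool) : (flipFun w u).tail = flipFun w u.tail := by
  cases u <;> simp [flipFun]

theorem flipFun_of_le (w u : List Bool) (h : u.length ≤ w.length) : flipFun w u = u := by
  induction u with
  | nil => rfl
  | cons b u ih =>
    have h1 : u.length < w.length := by simpa using h
    have h2 : u ≠ w := by rintro rfl; exact lt_irrefl _ h1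
    simp [flipFun, h2, ih h1.le]

theorem flipFun_eq_iff (w u : List Bool) : flipFun w u = w ↔ u = w := by
  constructor
  · intro h
    have h1 : u.length = w.length := by rw [← flipFun_length w u, h]
    rw [← h, flipFun_of_le w u h1.le]
  · rintro rfl
    exact flipFun_of_le u u le_rfl

theorem flipFun_flipFun (w u : List Bool) : flipFun w (flipFun w u) = u := by
  induction u with
  | nil => rfl
  | cons b u ih =>
    simp only [flipFun, flipFun_eq_iff, ih]
    by_cases h : u = w <;> simp [h]

/-- the switch at `w` -/
def flip (w : List Bool) : FinAut :=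
  ⟨⟨flipFun w, flipFun w, flipFun_flipFun w, flipFun_flipFun w⟩, by
    refine ⟨fun u => flipFun_length w u, fun u => flipFun_tail w u, ?_⟩
    refine (Set.finite_singleton w).subset ?_
    intro u hu
    simp only [Set.mem_ofPred_eq, Equiv.coe_fn_mk, flipFun] at hu
    by_contra hne
    simp only [Set.mem_singleton_iff] at hne
    simp [hne] at hu⟩

theorem flip_apply (w u : List Bool) : (flip w : Perm (List Bool)) u = flipFun w u := rfl

theorem lab_flip (w u : List Bool) : lab (flip w) u = if u = w then 1 else 0 := by
  unfold lab
  rw [flip_apply, flip_apply]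
  by_cases h : u = w <;> simp [flipFun, h]

/-- The pointwise stabiliser of all vertices of length at most `n`. -/
def St (n : ℕ) : Subgroup FinAut where
  carrier := {g | ∀ w : List Bool, w.length ≤ n → (g : Perm (List Bool)) w = w}
  one_mem' := fun w _ => rfl
  mul_mem' := by
    intro g h hg hh w hw
    show (g : Perm (List Bool)) ((h : Perm (List Bool)) w) = w
    rw [hh w hw, hg w hw]
  inv_mem' := by
    intro g hg w hw
    show (g : Perm (List Bool))⁻¹ w = w
    rw [Perm.inv_eq_iff_eq, hg w hw]

theorem mem_St {n : ℕ} {g : FinAut} :
    g ∈ St n ↔ ∀ w : List Bool, w.length ≤ n → (g : Perm (List Bool)) w = w := Iff.rfl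

theorem St_anti : Antitone St := by
  intro m n h g hg w hw
  exact hg w (hw.trans h)

theorem St_normal (n : ℕ) : (St n).Normal := by
  refine ⟨fun g hg h w hw => ?_⟩
  show (h : Perm (List Bool)) ((g : Perm (List Bool)) (((h⁻¹ : FinAut) : Perm (List Bool)) w)) = w
  have h1 : (((h⁻¹ : FinAut) : Perm (List Bool)) w).length ≤ n := by rw [len]; exact hw
  rw [hg _ h1]
  show (h : Perm (List Bool)) ((h : Perm (List Bool))⁻¹ w) = w
  simp

theorem smul_eq (g : FinAut) (w : List Bool) : g • w = (g : Perm (List Bool)) w := rfl

theorem St_finiteIndex (n : ℕ) : (St n).FiniteIndex := by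
  have hfin : Finite {w : List Bool // w.length ≤ n} := by
    have := List.finite_length_le Bool n
    exact this.to_subtype
  have h1 : (⨅ w : {w : List Bool // w.length ≤ n}, MulAction.stabilizer FinAut (w : List Bool))
      ≤ St n := by
    intro g hg w hw
    have := (Subgroup.mem_iInf.mp hg) ⟨w, hw⟩
    exact this
  have h2 : (⨅ w : {w : List Bool // w.length ≤ n},
      MulAction.stabilizer FinAut (w : List Bool)).FiniteIndex := by
    apply Subgroup.finiteIndex_iInf
    intro w
    constructor
    rw [MulAction.index_stabilizer]
    have hf : (MulAction.orbit FinAut (w : List Bool)).Finite := by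
      refine (List.finite_length_eq Bool (w : List Bool).length).subset ?_
      rintro _ ⟨g, rfl⟩
      exact len g w
    exact Set.ncard_ne_zero_of_mem (MulAction.mem_orbit_self _) hf
  exact Subgroup.finiteIndex_of_le h1

theorem mem_closure_flip (n : ℕ) (k : ℕ) : ∀ g : FinAut, g ∈ St n →
    {w | lab g w ≠ 0}.ncard = k → g ∈ Subgroup.closure {g | ∃ w, n ≤ w.length ∧ g = flip w} := by
  induction k with
  | zero =>
    intro g _ hk
    rw [Set.ncard_eq_zero (lab_finite g)] at hk
    have : g = 1 := by
      apply eq_one_of_lab
      intro w
      by_contra hw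
      have : w ∈ ({w | lab g w ≠ 0} : Set (List Bool)) := hw
      rw [hk] at this
      exact this
    rw [this]
    exact Subgroup.one_mem _
  | succ k ih =>
    intro g hg hk
    have hne : {w | lab g w ≠ 0}.Nonempty := by
      rw [← Set.ncard_pos (lab_finite g), hk]; omega
    obtain ⟨w, hw, hmax⟩ := Set.exists_max_image _ List.length (lab_finite g) hne
    have hwn : n ≤ w.length := by
      by_contra hlt
      push Not at hlt
      apply hw
      have h1 := hg (false :: w) (by simpa using hlt)
      have h2 := hg w hlt.le
      unfold lab
      rw [h1, h2]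
      simp
    have hfl : flip w ∈ St n := by
      intro u hu
      rw [flip_apply, flipFun_of_le w u (hu.trans hwn)]
    have hset : {u | lab (g * flip w) u ≠ 0} = {u | lab g u ≠ 0} \ {w} := by
      ext u
      simp only [Set.mem_ofPred_eq, Set.mem_sdiff, Set.mem_singleton_iff, lab_mul, lab_flip,
        flip_apply]
      have e : ∀ x : FinAut, ∀ u, lab x u = 0 ∨ lab x u = 1 := by
        intro x u; unfold lab; split_ifs <;> simp
      by_cases hu : u.length ≤ w.length
      · rw [flipFun_of_le w u hu]
        by_cases huw : u = w
        · subst huw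
          have : lab g u = 1 := by
            rcases e g u with h | h
            · exact absurd h hw
            · exact h
          simp only [if_true, this]
          decide
        · simp [huw]
      · push Not at hu
        have huw : u ≠ w := by rintro rfl; exact lt_irrefl _ hu
        have h1 : lab g u = 0 := by
          by_contra h
          exact absurd (hmax u h) (not_le.mpr hu)
        have h2 : lab g (flipFun w u) = 0 := by
          by_contra h
          have := hmax (flipFun w u) h
          rw [flipFun_length] at this
          exact absurd this (not_le.mpr hu)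
        simp [h1, h2, huw]
    have hcard : {u | lab (g * flip w) u ≠ 0}.ncard = k := by
      rw [hset, Set.ncard_sdiff_singleton_of_mem (by exact hw), hk]; rfl
    have h1 := ih (g * flip w) (Subgroup.mul_mem _ hg hfl) hcard
    have h2 : flip w ∈ Subgroup.closure {g | ∃ w, n ≤ w.length ∧ g = flip w} :=
      Subgroup.subset_closure ⟨w, hwn, rfl⟩
    have h3 := Subgroup.mul_mem _ h1 (Subgroup.inv_mem _ h2)
    simpa using h3

theorem flipFun_of_not_below (w u : List Bool) (h : ∀ k : ℕ, List.tail^[k] u ≠ w) :
    flipFun w u = u := by
  induction u with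
  | nil => rfl
  | cons b u ih =>
    have h1 : u ≠ w := h 1
    have h2 : ∀ k : ℕ, List.tail^[k] u ≠ w := fun k => by
      have := h (k + 1)
      rw [Function.iterate_succ_apply] at this
      exact this
    simp [flipFun, h1, ih h2]

theorem tail_iter_length (w : List Bool) (k : ℕ) : (List.tail^[k] w).length = w.length - k := by
  induction k with
  | zero => simp
  | succ k ih => rw [Function.iterate_succ_apply', List.length_tail, ih]; omega

theorem transitive : ∀ v w : List Bool, v.length = w.length →
    ∃ g : FinAut, (g : Perm (List Bool)) v = w := by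
  intro v
  induction v with
  | nil =>
    intro w h
    refine ⟨1, ?_⟩
    have : w = [] := List.length_eq_zero_iff.mp h.symm
    rw [this]; rfl
  | cons b v ih =>
    intro w h
    cases w with
    | nil => simp at h
    | cons c w =>
      have h1 : v.length = w.length := by simpa using h
      obtain ⟨g, hg⟩ := ih w h1
      obtain ⟨d, hd⟩ := cons_form g b v
      by_cases hdc : d = c
      · exact ⟨g, by rw [hd, hg, hdc]⟩
      · refine ⟨flip w * g, ?_⟩
        show flipFun w ((g : Perm (List Bool)) (b :: v)) = c :: w
        rw [hd, hg]
        simp only [flipFun, if_true, flipFun_of_le w w le_rfl, List.cons.injEq, and_true]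
        cases d <;> cases c <;> simp_all

theorem phi_flip (S : Set ℕ) (w : List Bool) [Decidable (w.length ∈ S)] :
    phi S (flip w) = Multiplicative.ofAdd (if w.length ∈ S then 1 else 0) := by
  show Multiplicative.ofAdd (∑ᶠ u : List Bool,
    Set.indicator {w | w.length ∈ S} (lab (flip w)) u) = _
  congr 1
  rw [finsum_eq_single _ w]
  · simp only [Set.indicator, Set.mem_ofPred_eq, lab_flip, if_true]
  · intro u hu
    simp [Set.indicator, lab_flip, hu]

/-- pairwise disjoint infinite sets of levels -/
def lev (a : ℕ) : Set ℕ := {l | ∃ k : ℕ, l = Nat.pair a k}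

theorem lev_unbounded (a j : ℕ) : ∃ l ∈ lev a, j ≤ l :=
  ⟨Nat.pair a j, ⟨j, rfl⟩, Nat.right_le_pair a j⟩

theorem lev_disjoint {a b l : ℕ} (ha : l ∈ lev a) (hb : l ∈ lev b) : a = b := by
  obtain ⟨k, hk⟩ := ha
  obtain ⟨k', hk'⟩ := hb
  have : Nat.pair a k = Nat.pair b k' := by rw [← hk, ← hk']
  exact (Nat.pair_eq_pair.mp this).1

/-- the normal T-sequences -/
noncomputable def M (a i : ℕ) : Subgroup FinAut := St i ⊓ (phi (lev a)).ker

theorem M_not_le (a b j : ℕ) (hab : a ≠ b) : ¬ M b j ≤ M a 0 := by
  classical
  intro h
  obtain ⟨l, hl, hj⟩ := lev_unbounded a j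
  have hlb : l ∉ lev b := fun hb => hab (lev_disjoint hl hb)
  set w : List Bool := List.replicate l false with hw
  have hwl : w.length = l := by simp [hw]
  have h1 : flip w ∈ M b j := by
    refine ⟨?_, ?_⟩
    · intro u hu
      rw [flip_apply, flipFun_of_le w u (by omega)]
    · show phi (lev b) (flip w) = 1
      rw [phi_flip, hwl, if_neg hlb]; rfl
  have h2 : phi (lev a) (flip w) = 1 := (h h1).2
  rw [phi_flip, hwl, if_pos hl] at h2
  exact absurd h2 (by decide)

end Pool.Agent.N49.Tseq
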