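import Pool.Agent.N585.WC.Defs

/-!
Project WC (helper585), part 2 (helper49): countably compact subsets of `2^ω₁` are `ω`-bounded if there are
pseudo-intersections for families of size `ℵ₁`.
-/

set_option autoImplicit false

namespace Pool.Agent.N49.WC

open Cardinal Set TopologicalSpace
open Pool.Agent.N585.WC

theorem stmBdd : StmBdd := by
  classical
  intro hPI J hJ H hH A hAH hAc x hx
  by_contra hxH
  have hxA : x ∉ A := fun h => hxH (hAH h)
  have hne : A.Nonempty := by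
    rw [nonempty_iff_ne_empty]
    rintro rfl
    rw [closure_empty] at hx
    exact hx
  obtain ⟨a, ha⟩ := hAc.exists_eq_range hne
  have haA : ∀ n, a n ∈ A := fun n => by
    rw [ha]
    exact ⟨n, rfl⟩
  have hopen : ∀ (j : J) (y : J → ZMod 2), IsOpen {z : J → ZMod 2 | z j = y j} := by
    intro j y
    have h1 : Continuous (fun z : J → ZMod 2 => z j) := continuous_apply j
    have h2 := (isOpen_discrete ({y j} : Set (ZMod 2))).preimage h1
    exact h2
  obtain ⟨B, hB, hBF⟩ := hPI J (fun j => {n | a n j = x j}) hJ.le (by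
    intro s hfin
    have hV : IsOpen ((⋂ j ∈ s, {z : J → ZMod 2 | z j = x j}) ∩
        (a '' (⋂ j ∈ s, {n | a n j = x j}))ᶜ) :=
      (isOpen_biInter_finset fun j _ => hopen j x).inter (hfin.image a).isClosed.isOpen_compl
    have hxV : x ∈ (⋂ j ∈ s, {z : J → ZMod 2 | z j = x j}) ∩
        (a '' (⋂ j ∈ s, {n | a n j = x j}))ᶜ := by
      refine ⟨mem_iInter₂.2 fun j _ => rfl, ?_⟩
      rintro ⟨n, -, h⟩
      exact hxA (h ▸ haA n)
    obtain ⟨y, ⟨hy1, hy2⟩, hyA⟩ := mem_closure_iff.1 hx _ hV hxV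
    rw [ha] at hyA
    obtain ⟨n, rfl⟩ := hyA
    refine hy2 ⟨n, ?_, rfl⟩
    rw [mem_iInter₂] at hy1 ⊢
    exact hy1)
  let U : ℕ → Set ↥H := fun n => {z | z.1 ∉ closure (a '' {m | m ∈ B ∧ n ≤ m})}
  have hUo : ∀ n, IsOpen (U n) := fun n =>
    (isClosed_closure.isOpen_compl).preimage continuous_subtype_val
  by_cases hcov : (⋃ n, U n) = Set.univ
  · obtain ⟨s, hs⟩ := hH U hUo hcov
    obtain ⟨m, hmB, hm⟩ := hB.exists_gt (s.sup id)
    have h1 : (⟨a m, hAH (haA m)⟩ : ↥H) ∈ (⋃ n ∈ s, U n) := by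
      rw [hs]
      exact mem_univ _
    rw [mem_iUnion₂] at h1
    obtain ⟨n, hn, h2⟩ := h1
    refine h2 (subset_closure ⟨m, ⟨hmB, ?_⟩, rfl⟩)
    have := Finset.le_sup (f := id) hn
    simp only [id] at this
    exact this.trans hm.le
  · have h1 : ∃ z : ↥H, ∀ n, z ∉ U n := by
      by_contra hcon
      push Not at hcon
      exact hcov (eq_univ_of_forall fun z => mem_iUnion.2 (hcon z))
    obtain ⟨z, hz⟩ := h1
    have hzx : z.1 = x := by
      funext j
      by_contra hne'
      obtain ⟨n, hn⟩ := (hBF j).bddAbove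
      have h2 := hz (n + 1)
      have h3 : z.1 ∈ closure (a '' {m | m ∈ B ∧ n + 1 ≤ m}) := by
        by_contra h
        exact h2 h
      obtain ⟨y, hy1, m, ⟨hmB, hm⟩, rfl⟩ := mem_closure_iff.1 h3 _ (hopen j z.1) rfl
      have h4 : a m j = z.1 j := hy1
      have h5 : m ∈ B \ {n | a n j = x j} := ⟨hmB, fun h => hne' (h4.symm.trans h)⟩
      have := hn h5
      omega
    exact hxH (hzx ▸ z.2)

end Pool.Agent.N49.WC
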